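import Pool.Agent.Lib.MP_ded8ec_lc.FI.Spec

/-!
# CM3: sets cut off in a 3-connected graph
-/

set_option autoImplicit false

namespace Pool.Agent.Lib.MPded8ec.FI

open Pool.Agent.Lib.MPded8ec.SG Pool.Agent.Lib.MPded8ec.FC

universe u

theorem specCM3 : SpecCM3.{u} := by
  classical
  have three : ∀ (V : Type u) [Fintype V] [DecidableEq V] (G : SimpleGraph V) (_ : Conn3 G)
      (T A : Finset V) (_ : A.Nonempty) (_ : Disjoint A T)
      (_ : ∀ y ∈ A, ∀ z, G.Adj y z → z ∈ A ∨ z ∈ T) (x : V) (_ : x ∉ A) (_ : x ∉ T),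
      3 ≤ T.card := by
    intro V _ _ G h3 T A hA hAT hcl x hxA hxT
    by_contra hlt
    obtain ⟨a, ha⟩ := hA
    have hc := h3.2 T (by omega)
    have haT : a ∈ ((T : Set V)ᶜ) := fun h => Finset.disjoint_left.1 hAT ha h
    have hxT' : x ∈ ((T : Set V)ᶜ) := fun h => hxT h
    obtain ⟨w⟩ := hc.preconnected ⟨a, haT⟩ ⟨x, hxT'⟩
    have key : ∀ (p q : ((T : Set V)ᶜ : Set V)), (G.induce ((T : Set V)ᶜ)).Walk p q →
        (p : V) ∈ A → (q : V) ∈ A := by
      intro p q w
      induction w with
      | nil => exact id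
      | @cons p q s h w ih =>
        intro hp
        refine ih ?_
        have h' : G.Adj (p : V) (q : V) := h
        exact (hcl _ hp _ h').resolve_right (fun hT => q.2 hT)
    exact hxA (key _ _ w ha)
  refine ⟨three, ?_⟩
  intro V _ _ G h3 x N hN
  by_cases h : ∃ y, y ≠ x ∧ y ∉ N.erase x
  · obtain ⟨y, hyx, hyN⟩ := h
    have h1 := three V G h3 (N.erase x) {x} ⟨x, Finset.mem_singleton_self x⟩
      (by rw [Finset.disjoint_singleton_left]; exact Finset.notMem_erase x N)
      (by
        intro a ha z hz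
        rw [Finset.mem_singleton] at ha
        subst ha
        exact Or.inr (Finset.mem_erase.2 ⟨hz.ne.symm, hN z hz⟩))
      y (by simpa using hyx) hyN
    exact h1.trans (Finset.card_le_card (Finset.erase_subset x N))
  · push Not at h
    have h1 : (Finset.univ.erase x : Finset V) ⊆ N := by
      intro y hy
      exact Finset.mem_of_mem_erase (h y (Finset.ne_of_mem_erase hy))
    have h2 := Finset.card_le_card h1
    rw [Finset.card_erase_of_mem (Finset.mem_univ x), Finset.card_univ] at h2
    have h4 := h3.1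
    omega

end Pool.Agent.Lib.MPded8ec.FI
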