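import Pool.Agent.Lib.MP_ded8ec_lc.FI.Spec
import Pool.Agent.Lib.MP_ded8ec_lc.SG.WKL
import Pool.Agent.Lib.MP_ded8ec_lc.SG.TBF
import Pool.Agent.Lib.MP_ded8ec_lc.SG.ORB
import Pool.Agent.Lib.MP_ded8ec_lc.SG.AUG
import Pool.Agent.Lib.MP_ded8ec_lc.SG.CNT
import Pool.Agent.Lib.MP_ded8ec_lc.SG.CLS
import Pool.Agent.Lib.MP_ded8ec_lc.SG.DIC

/-!
# MP_ded8ec_lc, FI, module DI3 (helper49): two disjoint breaking paths, or a vertex meeting all odd
# circuits, or an odd `K4`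
-/

set_option autoImplicit false

namespace Pool.Agent.Lib.MPded8ec.FI

open Pool.Agent.Lib.MPded8ec.SG Pool.Agent.Lib.MPded8ec.FC

universe u

theorem specDI3 (hSE3 : SpecSE3.{u, u}) (hXC3 : SpecXC3.{u}) (hTR3 : SpecTR3.{u}) :
    SpecDI3.{u} := by
  intro V _ _ G hG R c hR hm
  have hR4 : 4 ≤ R.card := by omega
  by_cases hμ : ∃ μ : Port R c → Port R c, (∀ x, μ (μ x) = x) ∧
      (∀ x, μ x ≠ x → (PG G R c).Adj x (μ x)) ∧
      (Finset.univ.filter fun x => μ x = x).card ≤ R.card - 4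
  · obtain ⟨μ, h1, h2, h3⟩ := hμ
    exact Or.inl ((specAUG specORB specWKL) V G R c hR4 μ h1 h2 h3)
  · right
    obtain ⟨S, f, hf, hS⟩ :=
      specTBF (Port R c) (PG G R c) (R.card - 4) (DICM.even_port R c hR4) hμ
    obtain ⟨X, Z, κ, g, hE⟩ := specCNT V G R c hR4 S f hf hS
    rcases hSE3 V (Port R c) G hG R c hR X Z κ g hE with hZ | ⟨p, N, hN⟩
    · subst hZ
      rcases specCLS V (Port R c) G R c hR4 X κ g hE with h | ⟨κ', t₁, t₂, t₃, hT⟩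
      · exact Or.inl h
      · obtain ⟨b, hb, hcb, -⟩ := hm (!κ' t₁) t₁
        refine Or.inr (hTR3 V G hG.1 R c κ' t₁ t₂ t₃ hT b ?_)
        rw [hT.col b hb, hcb]
        cases κ' t₁ <;> simp
    · exact hXC3 V G hG.1 R c κ hm p N hN

end Pool.Agent.Lib.MPded8ec.FI
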