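import Pool.Agent.Lib.MP_ded8ec_lc.FI.Spec
import Pool.Agent.Lib.MP_ded8ec_lc.FC.MTC
import Pool.Agent.Lib.MP_ded8ec_lc.FC.EXP

/-!
# MP_ded8ec_lc, FI, module EXE (helper16)
-/

set_option autoImplicit false

namespace Pool.Agent.Lib.MPded8ec.FI

open Pool.Agent.Lib.MPded8ec.SG Pool.Agent.Lib.MPded8ec.FC

universe u

namespace EXEM

theorem core (hMTC : SpecMTC.{u}) (hHLE : SpecHLE.{u}) {V : Type u} [DecidableEq V]
    (G : SimpleGraph V) (U T : Finset V) (F : Finset (Finset V)) (hS : SurE G T F) (hF : Fam G U T F)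
    (hm : ∀ K ∈ F, ∀ x ∈ K, Mt G (K \ {x})) (X : Finset (Finset V)) (hX : X ⊆ F) (Z : Finset V)
    (hZ : Z.card ≤ 1 ∨ (Z.card ≤ 2 ∧ X ≠ F)) (hc : (T \ Z).card ≤ X.card) :
    Mt G ((T \ Z) ∪ X.biUnion id) := by
  obtain ⟨φ, hinj, hφ⟩ := hHLE V G T F hS X hX Z hZ
  have h1 : Mt G (X.biUnion fun K => insert (φ K) K) := by
    refine hMTC.bun V (Finset V) G X (fun K => insert (φ K) K) ?_ ?_
    · intro K hK
      obtain ⟨h2, -, x, hx, hxa⟩ := hφ K hK
      refine EXPM.one hMTC hx ?_ hxa (hm K (hX hK) x hx)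
      intro h3
      exact Finset.disjoint_left.1 (hF.dis K (hX hK)) h3 h2
    · intro K hK L hL hne
      rw [Finset.disjoint_left]
      intro z hz hz2
      rw [Finset.mem_insert] at hz hz2
      rcases hz with hz | hz
      · rcases hz2 with hz2 | hz2
        · exact hne (hinj hK hL (hz.symm.trans hz2))
        · exact Finset.disjoint_left.1 (hF.dis L (hX hL)) hz2 (hz ▸ (hφ K hK).1)
      · rcases hz2 with hz2 | hz2
        · exact Finset.disjoint_left.1 (hF.dis K (hX hK)) hz (hz2 ▸ (hφ L hL).1)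
        · exact Finset.disjoint_left.1 (hF.pw K (hX hK) L (hX hL) hne) hz hz2
  have h2 : X.image φ = T \ Z := by
    refine Finset.eq_of_subset_of_card_le ?_ ?_
    · intro z hz
      obtain ⟨K, hK, rfl⟩ := Finset.mem_image.1 hz
      exact Finset.mem_sdiff.2 ⟨(hφ K hK).1, (hφ K hK).2.1⟩
    · rw [Finset.card_image_of_injOn hinj]
      exact hc
  have h3 : (X.biUnion fun K => insert (φ K) K) = (T \ Z) ∪ X.biUnion id := by
    rw [← h2]
    ext z
    simp only [Finset.mem_biUnion, Finset.mem_insert, Finset.mem_union, Finset.mem_image, id]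
    constructor
    · rintro ⟨K, hK, h | h⟩
      · exact Or.inl ⟨K, hK, h.symm⟩
      · exact Or.inr ⟨K, hK, h⟩
    · rintro (⟨K, hK, h⟩ | ⟨K, hK, h⟩)
      · exact ⟨K, hK, Or.inl h.symm⟩
      · exact ⟨K, hK, Or.inr h⟩
  rw [← h3]
  exact h1

end EXEM

/-- **EXE**. -/
theorem specEXE (hHLE : SpecHLE.{u}) : SpecEXE.{u} := by
  intro V _ _ G T F hS hF hm
  constructor
  · intro a ha
    refine EXEM.core specMTC hHLE G Finset.univ T F hS hF hm F (Finset.Subset.refl _) {a}
      (Or.inl (by rw [Finset.card_singleton])) ?_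
    have h1 : ({a} : Finset V) ⊆ T := Finset.singleton_subset_iff.2 ha
    rw [Finset.card_sdiff_of_subset h1, Finset.card_singleton, hS.eq]
    omega
  · intro K₁ hK₁ s hs e he hse
    have hc : ({s, e} : Finset V).card = 2 := Finset.card_pair hse
    refine EXEM.core specMTC hHLE G Finset.univ T F hS hF hm (F.erase K₁) (Finset.erase_subset _ _)
      {s, e} (Or.inr ⟨hc.le, fun h => ?_⟩) ?_
    · exact Finset.notMem_erase K₁ F (h.symm ▸ hK₁)
    · have h1 : ({s, e} : Finset V) ⊆ T := by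
        intro z hz
        simp only [Finset.mem_insert, Finset.mem_singleton] at hz
        rcases hz with rfl | rfl
        · exact hs
        · exact he
      rw [Finset.card_sdiff_of_subset h1, hc, hS.eq, Finset.card_erase_of_mem hK₁]
      omega

end Pool.Agent.Lib.MPded8ec.FI
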