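import Pool.Agent.Lib.MP_ded8ec_lc.FI.Spec
import Pool.Agent.Lib.MP_ded8ec_lc.SG.FAN

/-!
# Internally 4-connected Seymour graphs (MP_ded8ec_lc), module FA3 (helper12)

A copy of SG/FAN (helper96): three paths from a vertex to three given vertices in a 3-connected graph.
-/

set_option autoImplicit false

namespace Pool.Agent.Lib.MPded8ec.FI

open Pool.Agent.Lib.MPded8ec.SG Pool.Agent.Lib.MPded8ec.FC

universe u

open FANM in
theorem specFA3 : SpecFA3.{u} := by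
  intro V _ G hG b t₁ t₂ t₃ hnd
  classical
  simp only [List.nodup_cons, List.mem_cons, List.not_mem_nil, or_false, not_or,
    not_false_eq_true, List.nodup_nil, and_true] at hnd
  obtain ⟨⟨hb1, hb2, hb3⟩, ⟨h12, h13⟩, h23⟩ := hnd
  obtain ⟨B, hB⟩ : ∃ B : Finset V, B = {t₁, t₂, t₃} := ⟨_, rfl⟩
  have hBc : B.card = 3 := by
    rw [hB]
    exact Finset.card_eq_three.2 ⟨t₁, t₂, t₃, h12, h13, h23, rfl⟩
  have hbB : b ∉ B := by
    rw [hB]
    simp only [Finset.mem_insert, Finset.mem_singleton]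
    tauto
  obtain ⟨e, P, he, hinj, hP, hdis, hend⟩ := DL.fan (G := G) (v := b) (B := B) (k := 3) hbB (by
    intro T hbT hT
    have h1 : ¬ B ⊆ T := fun h => by
      have := Finset.card_le_card h
      omega
    obtain ⟨t, htB, htT⟩ := Finset.not_subset.1 h1
    exact ⟨t, htB, htT, reach_del (hG.2 T (by omega)) hbT htT⟩)
  have hsurj : ∀ t ∈ B, ∃ i, e i = t := by
    have h1 : Finset.univ.image e = B := by
      apply Finset.eq_of_subset_of_card_le
      · intro p hp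
        obtain ⟨i, _, rfl⟩ := Finset.mem_image.1 hp
        exact he i
      · rw [Finset.card_image_of_injective _ hinj]
        simp [hBc]
    intro t ht
    rw [← h1] at ht
    obtain ⟨i, _, hi⟩ := Finset.mem_image.1 ht
    exact ⟨i, hi⟩
  have key : ∀ i, ∃ l : List V, (b :: (l ++ [e i])).Nodup ∧ Wk G.Adj b l (e i) ∧
      ∀ z ∈ l, z ∈ DL.vs (P i) :=
    fun i => list_of_pth (hP i) fun h => hbB (h ▸ he i)
  choose l hl1 hl2 hl3 using key
  have hlb : ∀ i, b ∉ l i := by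
    intro i h
    have := hl1 i
    rw [List.nodup_cons] at this
    exact this.1 (by simp [h])
  have hle : ∀ i, e i ∉ l i := by
    intro i h
    have h1 := hl1 i
    rw [List.nodup_cons, List.nodup_append] at h1
    exact h1.2.2.2 (e i) h (e i) (by simp) rfl
  have hln : ∀ i, (l i).Nodup := by
    intro i
    have h1 := hl1 i
    rw [List.nodup_cons, List.nodup_append] at h1
    exact h1.2.1
  have hlB : ∀ i, ∀ t ∈ B, t ∉ l i := by
    intro i t ht h
    have h1 := hend i t (hl3 i t h) ht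
    exact hle i (h1 ▸ h)
  have hld : ∀ i j, i ≠ j → ∀ z ∈ l i, z ∉ l j := by
    intro i j hij z hz hz'
    have h1 := hdis i j hij (Finset.mem_inter.2 ⟨hl3 i z hz, hl3 j z hz'⟩)
    rw [Finset.mem_singleton] at h1
    exact hlb i (h1 ▸ hz)
  obtain ⟨i₁, hi₁⟩ := hsurj t₁ (by rw [hB]; simp)
  obtain ⟨i₂, hi₂⟩ := hsurj t₂ (by rw [hB]; simp)
  obtain ⟨i₃, hi₃⟩ := hsurj t₃ (by rw [hB]; simp)
  have e12 : i₁ ≠ i₂ := fun h => h12 (by rw [← hi₁, ← hi₂, h])
  have e13 : i₁ ≠ i₃ := fun h => h13 (by rw [← hi₁, ← hi₃, h])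
  have e23 : i₂ ≠ i₃ := fun h => h23 (by rw [← hi₂, ← hi₃, h])
  have m1 : t₁ ∈ B := by rw [hB]; simp
  have m2 : t₂ ∈ B := by rw [hB]; simp
  have m3 : t₃ ∈ B := by rw [hB]; simp
  refine ⟨l i₁, l i₂, l i₃, ?_, ?_, ?_, ?_⟩
  · simp only [List.nodup_cons, List.mem_cons, List.mem_append, not_or, List.nodup_append]
    refine ⟨⟨hb1, hb2, hb3, hlb _, hlb _, hlb _⟩, ⟨h12, h13, hlB _ _ m1, hlB _ _ m1, hlB _ _ m1⟩,
      ⟨h23, hlB _ _ m2, hlB _ _ m2, hlB _ _ m2⟩, ⟨hlB _ _ m3, hlB _ _ m3, hlB _ _ m3⟩,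
      hln _, ⟨hln _, hln _, ?_⟩, ?_⟩
    · intro a ha c hc hac
      exact hld i₂ i₃ e23 a ha (hac ▸ hc)
    · intro a ha c hc hac
      rcases hc with hc | hc
      · exact hld i₁ i₂ e12 a ha (hac ▸ hc)
      · exact hld i₁ i₃ e13 a ha (hac ▸ hc)
  · rw [← hi₁]
    exact hl2 i₁
  · rw [← hi₂]
    exact hl2 i₂
  · rw [← hi₃]
    exact hl2 i₃

end Pool.Agent.Lib.MPded8ec.FI
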