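import Pool.Agent.Lib.MP_ded8ec_lc.FC.Spec

/-!
# Internally 4-connected Seymour graphs (MP_ded8ec_lc): an internally 4-connected graph `G` is a Seymour
# graph iff `G - v` is bipartite for some `v`.  Specification.

Captain helper90.  Every statement has its complete proof in the docstring.  The module `XXX` is the file
`Pool/Agent/Lib/MP_ded8ec_lc/FI/XXX.lean` which proves `theorem specXXX (h : SpecYYY) .. : SpecXXX`, the
hypotheses are the modules of this folder named after `from` (in this order, universe `u`).  Modules of the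
folder `FC` (`FC.Mt`, `FC.Fam`, `FC.Cn`, `FC.BAL`, ..) are imported as proved theorems: `FC.specMTC`,
`FC.specPTH FC.specMTC`, `FC.specBAS`, `FC.specTUT`, `FC.specBER FC.specMTC`, `FC.specCMP` (only its field `cmp`),
`FC.specEVT (FC.specPTH FC.specMTC)`, `FC.specNBP` (files `Pool/Agent/Lib/MP_ded8ec_lc/FC/MTC.lean`, ..).

Part A: connectivity and the dichotomy (a copy of `SG`).  Part B: hubs with `|T| = |I| + 1`, tight sets.
Part C: the extremal triple (a copy of `FC`, with `|T| ≤ |F| + 1` instead of `|T| ≤ |F| + 2`).  Part D: there is no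
good triple: the linear space of the tight sets.
-/

set_option autoImplicit false

namespace Pool.Agent.Lib.MPded8ec.FI

open Pool.Agent.Lib.MPded8ec.SG Pool.Agent.Lib.MPded8ec.FC

universe u v

/-! ### part A -/

/-- `G` is 3-connected: at least 4 vertices, connected after the removal of at most 2 vertices. -/
def Conn3 {V : Type u} [Fintype V] (G : SimpleGraph V) : Prop :=
  4 ≤ Fintype.card V ∧ ∀ N : Finset V, N.card ≤ 2 → (G.induce ((N : Set V)ᶜ)).Connected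

/-- `G` is internally 4-connected: 3-connected, and if the removal of 3 vertices (`N`) separates `A` from `B`
(`V` is the disjoint union of `N`, `A`, `B`, no edges between `A` and `B`) then `A` or `B` has at most one
element. -/
def IConn4 {V : Type u} [Fintype V] (G : SimpleGraph V) : Prop :=
  Conn3 G ∧ ∀ N A B : Finset V, N.card = 3 → Disjoint A N → Disjoint B N → Disjoint A B →
    (∀ x, x ∈ A ∨ x ∈ B ∨ x ∈ N) → (∀ x ∈ A, ∀ y ∈ B, ¬ G.Adj x y) → A.card ≤ 1 ∨ B.card ≤ 1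

/-- CM3 (100 lines).  `three`: as `four` in `FC/CMP.lean`: otherwise `|T| ≤ 2`, `G - T` is connected, it contains an
element of `A` and `x`, so there are adjacent `y ∈ A`, `z ∉ A`, `z ∉ T`: contradiction.
`deg`: `three` with `T` = the set of the neighbours of `x`, `A = {x}`, and a vertex `≠ x` which is not a neighbour;
if there is no such vertex then `x` has `|V| - 1 ≥ 3` neighbours. -/
structure SpecCM3 : Prop where
  three : ∀ (V : Type u) [Fintype V] [DecidableEq V] (G : SimpleGraph V) (_ : Conn3 G)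
    (T A : Finset V) (_ : A.Nonempty) (_ : Disjoint A T)
    (_ : ∀ y ∈ A, ∀ z, G.Adj y z → z ∈ A ∨ z ∈ T) (x : V) (_ : x ∉ A) (_ : x ∉ T), 3 ≤ T.card
  deg : ∀ (V : Type u) [Fintype V] [DecidableEq V] (G : SimpleGraph V) (_ : Conn3 G)
    (x : V) (N : Finset V) (_ : ∀ y, G.Adj x y → y ∈ N), 3 ≤ N.card

/-- FA3 (100 lines): copy of `SG.specFAN` (`SG/FAN.lean`), which uses `Conn4` only for sets with at most 2
elements. -/
def SpecFA3 : Prop :=
  ∀ (V : Type u) [Fintype V] (G : SimpleGraph V) (_ : Conn3 G) (b t₁ t₂ t₃ : V)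
    (_ : [b, t₁, t₂, t₃].Nodup), ∃ l₁ l₂ l₃ : List V,
      (b :: t₁ :: t₂ :: t₃ :: (l₁ ++ (l₂ ++ l₃))).Nodup ∧
      Wk G.Adj b l₁ t₁ ∧ Wk G.Adj b l₂ t₂ ∧ Wk G.Adj b l₃ t₃

/-- TR3 (100 lines, from FA3): copy of `SG.specTRI` (`SG/TRI.lean`). -/
def SpecTR3 : Prop :=
  ∀ (V : Type u) [Fintype V] (G : SimpleGraph V) (_ : Conn3 G) (R : Finset V) (c κ : V → Bool)
    (t₁ t₂ t₃ : V) (_ : Tri G R c κ t₁ t₂ t₃) (b : V) (_ : κ b ≠ κ t₁), TOK G

/-- The exceptional case: `p` has exactly the three neighbours in `N`, `κ` is a colouring of `G - p`, the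
edges of `G - p` with both ends of the same colour are inside `N`. -/
structure Ex3 {V : Type u} (G : SimpleGraph V) (R : Finset V) (c κ : V → Bool) (p : V)
    (N : Finset V) : Prop where
  num : N.card = 3
  pN : p ∉ N
  pR : p ∉ R
  nb : ∀ w, G.Adj p w ↔ w ∈ N
  col : ∀ r ∈ R, κ r = c r
  only : ∀ x y, x ≠ p → y ≠ p → G.Adj x y → κ x = κ y → x ∈ N ∧ y ∈ N

/-- SE3 (200 lines, from CM3).

PROOF.  Suppose `Z ≠ ∅`, let `v ∈ Z`, `q = g v`, `N = X ∪ {w | w ∉ X ∧ w ∉ Z ∧ g w = q}`.  By `Exc.num`: if `|X| = 1` the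
second set has at most `1` element, if `X = ∅` it has at most `3`.  So `|N| ≤ 3`.  `C = {w ∈ Z | g w = q}` contains
`v`, is disjoint from `N` and `R`, and a neighbour `w' ∉ N` of `w ∈ C` is in `C` (`w' ∉ X`, so `g w' = q` by `both`, and
`w' ∉ N` gives `w' ∈ Z`).  `B = univ \ (N ∪ C)` contains `R \ N`, so at least `2` elements.  CM3 `three` (`T = N`, `A = C`,
`x ∈ B`): `3 ≤ |N|`, so `|N| = 3`, and this is only possible if `X = ∅` (if `|X| = 1` then `|N| ≤ 2`).  So for every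
`v' ∈ Z` the class `g v'` has `3` elements outside of `Z`; by `num` (`3 / 2 = 1`) at most one class has at least
`2` elements outside of `Z`: `Z = C`.  `IConn4` for `N`, `C`, `B`: `|C| ≤ 1`, so `Z = C = {v}`, `p = v`.
`nb`: the neighbours of `p` are in `N` (`C = {p}`), and there are at least `3` of them (CM3 `deg`).
`only`: `x`, `y ≠ p` are not in `X ∪ Z`; `mono`: `g x = g y`; the class contains `x ≠ y`, so it has `2` elements
outside of `Z`, so it is the class `q`.  `col`: `Exc.col`, `pR`: `Exc.ZR`. -/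
def SpecSE3 : Prop :=
  ∀ (V : Type u) (Q : Type v) [Fintype V] [DecidableEq V] [Fintype Q] [DecidableEq Q]
    (G : SimpleGraph V) (_ : IConn4 G) (R : Finset V) (c : V → Bool) (_ : 5 ≤ R.card)
    (X Z : Finset V) (κ : V → Bool) (g : V → Q) (_ : Exc G R c X Z κ g),
    Z = ∅ ∨ ∃ (p : V) (N : Finset V), Ex3 G R c κ p N

/-- XC3 (250 lines, from FA3).

PROOF.  `N = {x, y, z}`.
(1) `κ` is constant on `N`.  If `x`, `y`, `z` are pairwise adjacent, then `p`, `x`, `y`, `z` are the branch vertices of a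
`TOK` with all paths `[]`.  Otherwise one of the three pairs, say `{y, z}`, is not adjacent: `Apex` with `x` and the
colouring `κ` changed at `p` to `! κ x`: an edge without `x` and `p` has different colours (otherwise both ends
are in `N`, so they are `y`, `z`); the neighbours of `p` have the colour `κ x`.
(2) Otherwise there are `x`, `y`, `z` with `N = {x, y, z}`, `κ x = κ y ≠ κ z`.  The only edge of `G - p` with both ends of
the same colour can be `x y` (both ends are in `N`).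
(2a) `x`, `y` are not adjacent: `Apex` with `p`, `κ`.
(2b) `x`, `y` are adjacent.  By hypothesis there is `m ∈ R` with `c m = κ z`, `m ≠ z`.  `κ m = c m`, so `m ∉ N`, and `m ≠ p`
(`pR`).  FA3: disjoint paths `(m, l₁, x)`, `(m, l₂, y)`, `(m, l₃, z)`.  `p` is not on them: a neighbour of `p` on such
a path would be in `N`, but on each of them only the last vertex is in `N`, and `p` would have two neighbours on
the path (an interior vertex has two neighbours on the path; use `SpecWKL.app` (`SG.specWKL`) to split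
the path at `p`: the vertex before `p` is `m` or an element of `l_i`, it is in `N` (`nb`), it is not the
last one, contradiction to `Nodup`).  So all edges on the paths have different colours (both ends in `N` is
impossible: only the last vertex is in `N`).  `κ m ≠ κ x`: `l₁.length`, `l₂.length` are even; `κ m = κ z`:
`l₃.length` is odd (`sg = false`: as in `SG.specWKL.ok`, for the relation `G.Adj a b ∧ κ a ≠ κ b`).
`TOK` with the branch vertices `p`, `x`, `y`, `m`: the paths are `p x`: `[]`, `p y`: `[]`, `x y`: `[]`, `x m`: `l₁.reverse`,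
`y m`: `l₂.reverse`, `p m`: `z :: l₃.reverse` (even length). -/
def SpecXC3 : Prop :=
  ∀ (V : Type u) [Fintype V] [DecidableEq V] (G : SimpleGraph V) (_ : Conn3 G) (R : Finset V)
    (c κ : V → Bool) (_ : ∀ (β : Bool) (z : V), ∃ m ∈ R, c m = β ∧ m ≠ z) (p : V) (N : Finset V)
    (_ : Ex3 G R c κ p N), Apex G ∨ TOK G

/-- DI3 (120 lines, from SE3, XC3, TR3; `SG.specTBF`, `SG.specAUG`, `SG.specCNT`, `SG.specCLS` of the folder `SG`
with their hypotheses, see `SG/Main.lean`).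

PROOF.  As `SG.specDIC` (`SG/DIC.lean`; its lemmas `DICM.even_port` can be imported).  If `Z = ∅`: CLS: `Apex` or
`Tri`, and then TR3 with `b ∈ R`, `c b ≠ κ t₁` (`κ b = c b` by `Tri.col`).  Otherwise XC3. -/
def SpecDI3 : Prop :=
  ∀ (V : Type u) [Fintype V] [DecidableEq V] (G : SimpleGraph V) (_ : IConn4 G) (R : Finset V)
    (c : V → Bool) (_ : 5 ≤ R.card) (_ : ∀ (β : Bool) (z : V), ∃ m ∈ R, c m = β ∧ m ≠ z),
    (∃ a l b a' l' b', BP2 G R c a l b a' l' b') ∨ Apex G ∨ TOK G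

/-! ### part B: hubs -/

open Classical in
/-- The elements of `T` with a neighbour in `X`. -/
noncomputable def NV {V : Type u} (G : SimpleGraph V) (T X : Finset V) : Finset V :=
  T.filter fun t => ∃ x ∈ X, G.Adj x t

/-- A hub: `I` is independent with all neighbours in `T`. -/
structure HubE {V : Type u} (G : SimpleGraph V) (T I : Finset V) : Prop where
  dis : Disjoint T I
  nb : ∀ x ∈ I, ∀ y, G.Adj x y → y ∈ T
  eq : T.card = I.card + 1
  two : 2 ≤ I.card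
  sur : ∀ X ⊆ I, X.Nonempty → X ≠ I → X.card + 2 ≤ (NV G T X).card

/-- A tight set. -/
structure Ti {V : Type u} (G : SimpleGraph V) (T I X : Finset V) : Prop where
  sub : X ⊆ I
  ne : X.Nonempty
  prop : X ≠ I
  eq : (NV G T X).card = X.card + 2

/-- TGH (150 lines).  PROOF.  `N(X) = NV G T X`.  `N(X ∪ Y) = N(X) ∪ N(Y)`, `N(X ∩ Y) ⊆ N(X) ∩ N(Y)`,
`|N(X) ∪ N(Y)| + |N(X) ∩ N(Y)| = |X| + |Y| + 4 = |X ∪ Y| + |X ∩ Y| + 4`, `|N(X ∪ Y)| ≥ |X ∪ Y| + 2` (`X ∪ Y ≠ I`).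
`cap`: `|N(X ∩ Y)| ≥ |X ∩ Y| + 2` (`X ∩ Y ⊆ X`, so it is not `I`), so all inequalities are equalities.
`cup`: if `X ∩ Y` is not empty as in `cap`.  Otherwise `|N(X ∪ Y)| ≤ |X ∪ Y| + 4 - 2`.
`meet`: if `X ∩ Y = ∅` then `|N(X ∪ Y)| ≤ |X ∪ Y| + 4 - 3`: contradiction.
`one`: `N(I \ {i})` has at least `|I| - 1 + 2 = |T|` elements and is a subset of `T`.
`all`: `N(I) ⊇ N(I \ {i}) = T`. -/
structure SpecTGH : Prop where
  cap : ∀ (V : Type u) [DecidableEq V] (G : SimpleGraph V) (T I : Finset V) (_ : HubE G T I)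
    (X Y : Finset V) (_ : Ti G T I X) (_ : Ti G T I Y) (_ : X ∪ Y ≠ I) (_ : (X ∩ Y).Nonempty),
    Ti G T I (X ∩ Y) ∧ NV G T (X ∩ Y) = NV G T X ∩ NV G T Y
  cup : ∀ (V : Type u) [DecidableEq V] (G : SimpleGraph V) (T I : Finset V) (_ : HubE G T I)
    (X Y : Finset V) (_ : Ti G T I X) (_ : Ti G T I Y) (_ : X ∪ Y ≠ I)
    (_ : 2 ≤ (NV G T X ∩ NV G T Y).card), Ti G T I (X ∪ Y)
  meet : ∀ (V : Type u) [DecidableEq V] (G : SimpleGraph V) (T I : Finset V) (_ : HubE G T I)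
    (X Y : Finset V) (_ : Ti G T I X) (_ : Ti G T I Y) (_ : X ∪ Y ≠ I)
    (_ : 3 ≤ (NV G T X ∩ NV G T Y).card), (X ∩ Y).Nonempty
  one : ∀ (V : Type u) [DecidableEq V] (G : SimpleGraph V) (T I : Finset V) (_ : HubE G T I)
    (i : V) (_ : i ∈ I), Ti G T I (I.erase i) ∧ NV G T (I.erase i) = T
  all : ∀ (V : Type u) [DecidableEq V] (G : SimpleGraph V) (T I : Finset V) (_ : HubE G T I),
    NV G T I = T

/-- TGM (120 lines, from TGH).  A family `P` of tight sets which contain three given points `p`, `q`, `r` in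
`N(X)`, such that the union of two of them is never `I`, and which is closed under intersections, has a
smallest element.

PROOF.  Choose `Z` in the family with `|Z|` minimal.  For `Y` in the family: `Z ∩ Y` is nonempty by TGH `meet`
(`p`, `q`, `r ∈ N(Z) ∩ N(Y)`), tight with `N(Z ∩ Y) = N(Z) ∩ N(Y)` by `cap`, so it is in the family by `hcap`,
so `|Z ∩ Y| ≥ |Z|`, `Z ⊆ Y`. -/
def SpecTGM : Prop :=
  ∀ (V : Type u) [DecidableEq V] (G : SimpleGraph V) (T I : Finset V) (_ : HubE G T I)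
    (P : Finset V → Prop) (p q r : V) (_ : [p, q, r].Nodup)
    (_ : ∀ X, P X → Ti G T I X ∧ p ∈ NV G T X ∧ q ∈ NV G T X ∧ r ∈ NV G T X)
    (_ : ∀ X Y, P X → P Y → X ∪ Y ≠ I)
    (_ : ∀ X Y, P X → P Y → Ti G T I (X ∩ Y) → NV G T (X ∩ Y) = NV G T X ∩ NV G T Y → P (X ∩ Y))
    (_ : ∃ X, P X), ∃ Z, P Z ∧ ∀ Y, P Y → Z ⊆ Y

/-- `X` is tight, does not contain `i`, and `a`, `b ∈ N(X)`; minimal with this property. -/
structure Bot {V : Type u} (G : SimpleGraph V) (T I : Finset V) (i a b : V) (X : Finset V) :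
    Prop where
  ti : Ti G T I X
  ni : i ∉ X
  ha : a ∈ NV G T X
  hb : b ∈ NV G T X
  min : ∀ Y, Ti G T I Y → i ∉ Y → a ∈ NV G T Y → b ∈ NV G T Y → Y ⊆ X → Y = X

/-- `j` is free for `a` (with respect to `i`, `c`, `d`): every tight set without `i` which has `a`, `c`, `d` in its
neighbourhood contains `j`. -/
def Fr {V : Type u} (G : SimpleGraph V) (T I : Finset V) (i a c d j : V) : Prop :=
  ∀ Z, Ti G T I Z → i ∉ Z → a ∈ NV G T Z → c ∈ NV G T Z → d ∈ NV G T Z → j ∈ Z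

/-- TGC (250 lines, from TGH, TGM).  The choice of `i`.

PROOF.  For `i ∈ I` and `Q ⊆ T` with 3 elements the family of the tight sets `X` with `i ∉ X`, `Q ⊆ N(X)` has a smallest
element (TGM; it contains `I \ {i}` by TGH `one`; unions do not contain `i`).  Let `Za i`, `Zb i` be the
smallest ones for `{a, c, d}`, `{b, c, d}`; let `Y i` be the smallest tight set with `i ∉ Y`, `{a, b, c, d} ⊆ N(Y)`
(the same proof).
(1) It is enough to find `i` and a `Bot` `X` for `i`, `a`, `b` such that `X ∩ Za i` and `X ∩ Zb i` are nonempty: by TGH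
`cap` (unions do not contain `i`) `N(X ∩ Za i) = N(X) ∩ N(Za i)` contains `a`, so there is `j ∈ X ∩ Za i` adjacent to
`a`; `Fr` for `j` holds as `Za i ⊆ Z`.  In the same way for `b`.
(2) For every `i` there is a `Bot` `X ⊆ Y i` (choose `X ⊆ Y i` tight with `i ∉ X`, `a`, `b ∈ N(X)`, and `|X|` minimal).
(3) Let `P_a` be the family of the tight `Z` with `a`, `c`, `d ∈ N(Z)`, `b ∉ N(Z)`.  Unions of two of its elements are not
`I` (`b ∈ N(I)` by `all`), it is closed under intersections (`N(Z ∩ Z') = N(Z) ∩ N(Z')`), so if it is not empty it has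
a smallest element `Za` (TGM); the same for `P_b` (`b`, `c`, `d ∈ N(Z)`, `a ∉ N(Z)`), `Zb`.
(4) If no element of `P_a` avoids `i` (for example if `P_a` is empty, or `i ∈ Za`) then `Za i = Y i`: `b ∈ N(Za i)`
(otherwise `Za i ∈ P_a`), so `Y i ⊆ Za i`, and `Za i ⊆ Y i`.  If `P_a` is nonempty and `i ∉ Za` then `Za i = Za`:
`Za i ⊆ Za`, so `b ∉ N(Za i)`, so `Za i ∈ P_a`, `Za ⊆ Za i`.  The same for `b`.
(5) If `P_a`, `P_b` are both empty take any `i ∈ I`; if only `P_a` is nonempty `i ∈ Za`; if only `P_b` is nonempty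
`i ∈ Zb`; if both are nonempty and there is `i ∈ Za ∩ Zb`, take this `i`.  In these cases `Za i = Zb i = Y i`, and
`X ⊆ Y i` of (2) is as in (1).
(6) Both nonempty, `Za ∩ Zb = ∅`, and there is `i ∈ I`, `i ∉ Za ∪ Zb`.  `Za i = Za`, `Zb i = Zb` by (4).  `Za ∪ Zb` is tight by
TGH `cup` (`c`, `d ∈ N(Za) ∩ N(Zb)`), it does not contain `i`, so `Y i ⊆ Za ∪ Zb`.  Let `X ⊆ Y i` be as in (2).  `b ∈ N(X)`,
`b ∉ N(Za)`, so `X ⊄ Za`, so `X ∩ Zb` is nonempty; in the same way `X ∩ Za` is nonempty.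
(7) Both nonempty, `Za ∩ Zb = ∅`, `Za ∪ Zb = I`.  Let `i ∈ Za`: `Za i = Y i`, `Zb i = Zb` by (4).  Let `X ⊆ Y i` be as in (2): it
meets `Za i = Y i`; `b ∈ N(X)`, `b ∉ N(Za)` gives `X ⊄ Za`, so `X` meets `Zb` (`X ⊆ I = Za ∪ Zb`). -/
def SpecTGC : Prop :=
  ∀ (V : Type u) [DecidableEq V] (G : SimpleGraph V) (T I : Finset V) (_ : HubE G T I)
    (a b c d : V) (_ : a ∈ T) (_ : b ∈ T) (_ : c ∈ T) (_ : d ∈ T) (_ : [a, b, c, d].Nodup),
    ∃ i ∈ I, ∃ X, Bot G T I i a b X ∧ (∃ j ∈ X, G.Adj j a ∧ Fr G T I i a c d j) ∧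
      ∃ j ∈ X, G.Adj j b ∧ Fr G T I i b c d j

/-- HAE (200 lines).  Matchings in a hub (`FC.specMTC`).

PROOF.  `mt`: Hall's theorem (`Finset.all_card_le_biUnion_card_iff_exists_injective`) for `ι = {x // x ∈ J}`,
the sets `{t ∈ T | t ∉ Z, G.Adj x t}`: there is an injective `φ : J → T \ Z`; as `|J| = |T \ Z|` it is
bijective, and the union of the sets `{x, φ x}` is `(T \ Z) ∪ J` (`FC.specMTC.pair`, `bun` or `uni` by induction).
`p1`: `mt` with `Z = {a}`, `J = I`: `X ⊆ I` nonempty: `X ≠ I`: `|N(X) \ Z| ≥ |X| + 1`; `X = I`: `N(I)` contains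
`N(I \ {i})`, which has at least `|T|` elements, so `N(I) = T`, `|T \ {a}| = |I|`.
`p2`: `Z = {a, b}`, `J = I \ {i}`: `X ⊆ J` is a proper subset of `I`: `|N(X) \ Z| ≥ |X|`.
`p3`: `Z = {a, b, t}`, `J = I \ {i, j}`: `|N(X) \ Z| ≥ |X|` if `|N(X)| ≥ |X| + 3`, or if one of `a`, `b`, `t` is not in `N(X)`;
otherwise `X` is tight, `i`, `j ∉ X` and `a`, `b`, `t ∈ N(X)`, contrary to the hypothesis. -/
structure SpecHAE : Prop where
  mt : ∀ (V : Type u) [DecidableEq V] (G : SimpleGraph V) (T Z J : Finset V) (_ : Disjoint T J)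
    (_ : (T \ Z).card = J.card) (_ : ∀ X ⊆ J, X.card ≤ (NV G T X \ Z).card), Mt G ((T \ Z) ∪ J)
  p1 : ∀ (V : Type u) [DecidableEq V] (G : SimpleGraph V) (T I : Finset V) (_ : HubE G T I)
    (a : V) (_ : a ∈ T), Mt G ((T ∪ I) \ {a})
  p2 : ∀ (V : Type u) [DecidableEq V] (G : SimpleGraph V) (T I : Finset V) (_ : HubE G T I)
    (i a b : V) (_ : i ∈ I) (_ : a ∈ T) (_ : b ∈ T) (_ : a ≠ b), Mt G ((T ∪ I) \ {i, a, b})
  p3 : ∀ (V : Type u) [DecidableEq V] (G : SimpleGraph V) (T I : Finset V) (_ : HubE G T I)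
    (i j t a b : V) (_ : i ∈ I) (_ : j ∈ I) (_ : i ≠ j) (_ : t ∈ T) (_ : a ∈ T) (_ : b ∈ T)
    (_ : [t, a, b].Nodup)
    (_ : ∀ Z, Ti G T I Z → i ∉ Z → a ∈ NV G T Z → b ∈ NV G T Z → t ∈ NV G T Z → j ∈ Z),
    Mt G ((T ∪ I) \ {i, j, t, a, b})

/-- The allowed edges `j t` of the hub without `i`, for the two pairs `a b` and `c d`. -/
def Al {V : Type u} [DecidableEq V] (G : SimpleGraph V) (T I : Finset V) (i a b c d j t : V) :
    Prop :=
  (t ≠ a ∧ t ≠ b ∧ Mt G ((T ∪ I) \ {i, j, t, a, b})) ∨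
    (t ≠ c ∧ t ≠ d ∧ Mt G ((T ∪ I) \ {i, j, t, c, d}))

/-- TWE (200 lines, from TGH, TGC, HAE).

PROOF.  Let `i`, `X`, `j₁` (adjacent to `a`), `j₂` (adjacent to `b`) be as in TGC, and let `δ` be as in the statement.
(1) `j ∈ X`, `t ∈ T` adjacent, `t ≠ a`, `b`: `δ j ≠ δ t`.  HAE `p3` for `i`, `j`, `t`, `a`, `b`: let `Z` be tight, `i ∉ Z`, `a`, `b`, `t ∈ N(Z)`,
and suppose `j ∉ Z`.  `t ∈ N(X)`, so `a`, `b`, `t ∈ N(X) ∩ N(Z)`, `i ∉ X ∪ Z`: TGH `meet`, `cap`: `X ∩ Z` is tight, `a`, `b ∈ N(X ∩ Z)`,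
so `X ∩ Z = X` by `Bot.min`: contradiction to `j ∉ Z`.
(2) `δ` is constant on `X`: otherwise `X₁ = {j ∈ X | δ j = true}`, `X₂ = {j ∈ X | δ j = false}` are nonempty.
`N(X₁) ∩ N(X₂) ⊆ {a, b}` by (1).  `|X| + 2 = |N(X)| = |N(X₁)| + |N(X₂)| - |N(X₁) ∩ N(X₂)| ≥ |X₁| + 2 + |X₂| + 2 - 2`, so
there is equality: `X₁` is tight, and `N(X₁) ∩ N(X₂)` has two elements, so `a`, `b ∈ N(X₁)`: `X₁ = X` by `Bot.min`,
contradiction.
(3) `δ j₁ ≠ δ a`: the edge `j₁ a` satisfies `Al` (second alternative): HAE `p3` for `i`, `j₁`, `t = a`, `c`, `d` by `Fr`.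
In the same way `δ j₂ ≠ δ b`.  By (2) `δ a = δ b`. -/
def SpecTWE : Prop :=
  ∀ (V : Type u) [DecidableEq V] (G : SimpleGraph V) (T I : Finset V) (_ : HubE G T I)
    (a b c d : V) (_ : a ∈ T) (_ : b ∈ T) (_ : c ∈ T) (_ : d ∈ T) (_ : [a, b, c, d].Nodup),
    ∃ i ∈ I, ∀ δ : V → Bool, (∀ j ∈ I, j ≠ i → ∀ t ∈ T, G.Adj j t → Al G T I i a b c d j t →
      δ j ≠ δ t) → δ a = δ b

/-- TWF (250 lines, from HAE, TWE; `FC.specMTC`, `FC.specPTH`).

PROOF.  As `FC.specTWO` (`FC/TWO.lean`).  Let `(a, l, b)`, `(a', l', b')` be two disjoint breaking paths.  As in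
`FC.specTWO`: `a`, `b`, `a'`, `b' ∈ T`, `Even l.length`, `Even l'.length`.  Let `P`, `P'` be the vertex sets of the two paths,
`L`, `L'` their interiors; `L`, `L'` are disjoint from `T ∪ I`.  Let `i` be as in TWE for `a`, `b`, `a'`, `b'`,
`W = ((T ∪ I) \ {i}) ∪ L ∪ L'`, and `δ` the colouring of `BAL` for `W`.
(1) The edges of `(a, l, b)` are two-coloured: for an edge `x y` of the first type in PTH `edg`: `W \ {x, y}` =
disjoint union of `P \ {x, y}`, `(T ∪ I) \ {i, a, b}` (HAE `p2`), `L'` (PTH `inn`).  Second type: `W \ {x, y}` = disjoint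
union of `L \ {x, y}`, `(T ∪ I) \ {i, a', b'}`, `P'` (PTH `full`).
(2) The edges `j t`, `j ∈ I`, `j ≠ i`, `t ∈ T` with `Al` are two-coloured: first alternative: `W \ {j, t}` = disjoint union of
`(T ∪ I) \ {i, j, t, a, b}`, `P`, `L'`.  Second alternative: `(T ∪ I) \ {i, j, t, a', b'}`, `P'`, `L`.
(3) TWE: `δ a = δ b`.  By (1) and `SG.specWKL.ok` (or induction) `sg δ a l b = false`, so `δ a ≠ δ b` as `l.length` is
even: contradiction. -/
def SpecTWF : Prop :=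
  ∀ (V : Type u) [Fintype V] [DecidableEq V] (G : SimpleGraph V) (_ : BAL G) (T I : Finset V)
    (_ : HubE G T I) (a b a' b' : V) (l l' : List V),
    ¬ BP2 G (T ∪ I) (fun x => decide (x ∈ I)) a l b a' l' b'

/-! ### part C: the extremal triple -/

/-- A good triple. -/
structure GoodE {V : Type u} [Fintype V] (G : SimpleGraph V) (T K0 : Finset V)
    (F : Finset (Finset V)) : Prop where
  con : Cn G K0
  dis : Disjoint K0 T
  nb : ∀ x ∈ K0, ∀ y, G.Adj x y → y ∈ K0 ∨ y ∈ T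
  fam : Fam G Finset.univ T F
  dk : ∀ K ∈ F, Disjoint K K0
  ne : F.Nonempty
  num : T.card ≤ F.card + 1

/-- A good triple with `|K0|` maximal and then the sum of the sizes of the sets in `F` minimal. -/
structure OptE {V : Type u} [Fintype V] (G : SimpleGraph V) (T K0 : Finset V)
    (F : Finset (Finset V)) : Prop where
  good : GoodE G T K0 F
  max : ∀ (T' K' : Finset V) (F' : Finset (Finset V)), GoodE G T' K' F' → K'.card ≤ K0.card
  min : ∀ (T' : Finset V) (F' : Finset (Finset V)), GoodE G T' K0 F' →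
    ∑ K ∈ F, K.card ≤ ∑ K ∈ F', K.card

/-- OPE (60 lines): as `FC.specOPT` (`FC/OPT.lean`). -/
def SpecOPE : Prop :=
  ∀ (V : Type u) [Fintype V] (G : SimpleGraph V)
    (_ : ∃ (T K0 : Finset V) (F : Finset (Finset V)), GoodE G T K0 F),
    ∃ (T K0 : Finset V) (F : Finset (Finset V)), OptE G T K0 F

/-- SIX (200 lines, from CM3).

PROOF.  Let `K ∈ F` (nonempty since odd), `x₀ ∈ K0` (`Cn`).  CM3 `three` with `A = K`, `x₀`: `3 ≤ |T|`.  Suppose `|T| = 3`
(otherwise `4 ≤ |T|`).  `2 ≤ |F|`, let `L ∈ F`, `L ≠ K`.  `K`, `L`, `K0` are nonempty, pairwise disjoint, disjoint from `T`, and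
closed (a neighbour of an element is in the set or in `T`).
Claim: `|K0| = 1`, `|L| = 1`, `|K| = 1` and `V = T ∪ K ∪ L ∪ K0`.  `IConn4` for `N = T`, `A = K ∪ L`, `B = univ \ (T ∪ A) ⊇ K0`: `|A| ≥ 2`, so
`|B| ≤ 1`, `B = K0` has one element; this shows `V = T ∪ K ∪ L ∪ K0`.  `A = K ∪ K0`, `B = L`: `|L| ≤ 1`.  `A = L ∪ K0`, `B = K`.
So `K = {x}`, `L = {y}`, `K0 = {z}`.  All neighbours of `x`, `y`, `z` are in `T`; by CM3 `deg` (with
`N = T.filter (G.Adj x)`, which must be `T` since `|T| = 3`) `x` is adjacent to all elements of `T`.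
If the elements `p`, `q`, `r` of `T` are pairwise adjacent: `BAL` for `W = {p, q, r, x}` gives `d`; `W \ {p, q} = {r, x}`, so
`d p ≠ d q`, and `d p ≠ d r`, `d q ≠ d r`: contradiction.  Otherwise two of them, say `q`, `r`, are not adjacent: `Apex` with
the vertex `p` and the colouring `decide (v ∈ T)` (`x`, `y`, `z` have no neighbours outside of `T`). -/
def SpecSIX : Prop :=
  ∀ (V : Type u) [Fintype V] [DecidableEq V] (G : SimpleGraph V) (_ : IConn4 G) (_ : BAL G)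
    (T K0 : Finset V) (F : Finset (Finset V)) (_ : GoodE G T K0 F), 4 ≤ T.card ∨ Apex G

/-- ENE (120 lines): as `FC.specENL` (`FC/ENL.lean`), with `FC.specCMP.cmp`; no connectivity is needed since
`GoodE` has no condition on `|T|`. -/
def SpecENE : Prop :=
  ∀ (V : Type u) [Fintype V] [DecidableEq V] (G : SimpleGraph V)
    (T K0 : Finset V) (F : Finset (Finset V)) (_ : OptE G T K0 F)
    (T' : Finset V) (F' : Finset (Finset V)) (_ : Fam G Finset.univ T' F') (_ : Disjoint K0 T')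
    (_ : ∀ K ∈ F', Disjoint K K0) (_ : F'.Nonempty) (_ : T'.card ≤ F'.card + 1),
    (∀ x ∈ K0, ∀ y, G.Adj x y → y ∈ K0 ∨ y ∈ T') ∧ ∑ K ∈ F, K.card ≤ ∑ K ∈ F', K.card

/-- FCE (200 lines, from ENE): as `FC.specFCR` (`FC/FCR.lean`): `|F'| ≥ |F| + |S| + 1 ≥ |T'| - 1`. -/
def SpecFCE : Prop :=
  ∀ (V : Type u) [Fintype V] [DecidableEq V] (G : SimpleGraph V)
    (T K0 : Finset V) (F : Finset (Finset V)) (_ : OptE G T K0 F),
    ∀ K ∈ F, ∀ x ∈ K, Mt G (K \ {x})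

/-- The surplus. -/
structure SurE {V : Type u} (G : SimpleGraph V) (T : Finset V) (F : Finset (Finset V)) : Prop where
  two : 2 ≤ F.card
  eq : T.card = F.card + 1
  sur : ∀ X ⊆ F, X.Nonempty → X ≠ F → X.card + 2 ≤ (Nb G T X).card

/-- SUE (120 lines, from ENE).

PROOF.  `sur`: suppose `|Nb X| ≤ |X| + 1`.  ENE with `T' = Nb G T X`, `F' = X`.  The sum of the sizes for `F` is at most that
for `X ⊆ F`, all elements of `F` are nonempty (odd), so `X = F`: contradiction.  `two`: `4 ≤ |T| ≤ |F| + 1`.  `eq`: let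
`K ∈ F`, `X = F.erase K`: `|F| - 1 + 2 ≤ |Nb X| ≤ |T| ≤ |F| + 1`. -/
def SpecSUE : Prop :=
  ∀ (V : Type u) [Fintype V] [DecidableEq V] (G : SimpleGraph V)
    (T K0 : Finset V) (F : Finset (Finset V)) (_ : OptE G T K0 F) (_ : 4 ≤ T.card), SurE G T F

/-- HLE (100 lines): as `FC.specHAL` (`FC/HAL.lean`).  For `Y ⊆ X`, `Y` nonempty and `≠ F`:
`|Nb Y \ Z| ≥ |Y| + 2 - |Z| ≥ |Y|`.  For `Y = F` (so `X = F`, `|Z| ≤ 1`): `Nb F ⊇ Nb (F.erase K)`, which has at least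
`|F| + 1 = |T|` elements, so `Nb F = T`, `|T \ Z| ≥ |F|`. -/
def SpecHLE : Prop :=
  ∀ (V : Type u) [DecidableEq V] (G : SimpleGraph V) (T : Finset V) (F : Finset (Finset V))
    (_ : SurE G T F) (X : Finset (Finset V)) (_ : X ⊆ F) (Z : Finset V)
    (_ : Z.card ≤ 1 ∨ (Z.card ≤ 2 ∧ X ≠ F)),
    ∃ φ : Finset V → V, Set.InjOn φ X ∧ ∀ K ∈ X, φ K ∈ T ∧ φ K ∉ Z ∧ ∃ x ∈ K, G.Adj x (φ K)

/-- EXE (150 lines, from HLE): as `FC.specEXP` (`FC/EXP.lean`): `X = F`, `Z = {a}`, or `X = F.erase K₁`,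
`Z = {s, e}`; `|T \ Z| = |X|` by `SurE.eq`. -/
def SpecEXE : Prop :=
  ∀ (V : Type u) [Fintype V] [DecidableEq V] (G : SimpleGraph V) (T : Finset V)
    (F : Finset (Finset V)) (_ : SurE G T F) (_ : Fam G Finset.univ T F)
    (_ : ∀ K ∈ F, ∀ x ∈ K, Mt G (K \ {x})),
    (∀ a ∈ T, Mt G ((T \ {a}) ∪ F.biUnion id)) ∧
    ∀ K₁ ∈ F, ∀ s ∈ T, ∀ e ∈ T, s ≠ e → Mt G ((T \ {s, e}) ∪ (F.erase K₁).biUnion id)

/-- SAE (120 lines, from EXE).

PROOF.  Let `e = a` if `s ≠ a`, otherwise `e = c`: `e ∈ T`, `e ≠ s`, `Mt G (insert e D)`.  The set is the disjoint union of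
`{x, s}`, `insert e D`, and `(T \ {s, e}) ∪ (F.erase K).biUnion id` (EXE with `K₁ = K`). -/
def SpecSAE : Prop :=
  ∀ (V : Type u) [Fintype V] [DecidableEq V] (G : SimpleGraph V) (T : Finset V)
    (F : Finset (Finset V)) (_ : SurE G T F) (_ : Fam G Finset.univ T F)
    (_ : ∀ K ∈ F, ∀ x ∈ K, Mt G (K \ {x})) (D : Finset V) (_ : Disjoint D T)
    (_ : ∀ K ∈ F, Disjoint D K) (a c : V) (_ : a ∈ T) (_ : c ∈ T) (_ : a ≠ c)
    (_ : Mt G (insert a D)) (_ : Mt G (insert c D))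
    (K : Finset V) (_ : K ∈ F) (x s : V) (_ : x ∈ K) (_ : s ∈ T) (_ : G.Adj x s),
    Mt G (insert x (((T ∪ F.biUnion id) ∪ D) \ K))

/-- SBE (250 lines, from CM3, ENE; `FC.specTUT`, `FC.specBER`): as `FC.specSNB` (`FC/SNB.lean`).

PROOF.  Let `t ∈ T` (`4 ≤ |T|`); `t ∉ K`.  Let `R = {x ∈ K | ∃ s ∈ T, G.Adj x s}`, and let `G'` be the graph with `G'.Adj x y`
iff (`G.Adj x y`, `x ≠ t`, `y ≠ t`) or (`x = t`, `y ∈ R`) or (`y = t`, `x ∈ R`).  Let `W = (insert t K) \ {u, v}`; `|W|` is even.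
(a) `Mt G' W` with `m`: `x = m t` is in `R`, `x ≠ u`, `v`, and `m` is a perfect matching of `K \ {x, u, v}` in `G`.
(b) Otherwise TUT gives `S ⊆ W`, `Fam G' W S F₁`, `|S| + 2 ≤ |F₁|`.
Case `t ∈ S`: as in `FC.specSNB`.
Case `t ∉ S`: let `F₂ = {L ∈ F₁ | t ∉ L}`, `|F₂| ≥ |S| + 1 ≥ 1`.  Let `T' = S ∪ {u, v}`, `|T'| ≤ |S| + 2 ≤ |F₂| + 1`.
`Fam G univ T' F₂`: let `x ∈ L`, `y` adjacent in `G`: `y ∈ K` or `y ∈ T`.  If `y ∈ K`: `y ∈ {u, v}` or `y ∈ W`, `G'.Adj x y` (`x`, `y ≠ t`),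
so `y ∈ L` or `y ∈ S`.  If `y ∈ T`: `x ∈ R`, so `G'.Adj x t`, `t ∈ W`, so `t ∈ L` or `t ∈ S`: contradiction.  `K0` is disjoint from `T'`
and from the sets in `F₂` (they are subsets of `K`).  ENE: the neighbours of `K0` are in `K0 ∪ T'`; they are also in
`K0 ∪ T`, and `T ∩ T' = ∅` (`T' ⊆ K`), so they are in `K0`.  CM3 `three` with `T = ∅`, `A = K0`, `x = u`: `3 ≤ 0`. -/
def SpecSBE : Prop :=
  ∀ (V : Type u) [Fintype V] [DecidableEq V] (G : SimpleGraph V) (_ : Conn3 G)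
    (T K0 : Finset V) (F : Finset (Finset V)) (_ : OptE G T K0 F) (_ : 4 ≤ T.card)
    (K : Finset V) (_ : K ∈ F) (_ : ∀ x ∈ K, Mt G (K \ {x})) (u v : V) (_ : u ∈ K) (_ : v ∈ K)
    (_ : G.Adj u v), ∃ x ∈ K, x ≠ u ∧ x ≠ v ∧ (∃ s ∈ T, G.Adj x s) ∧ Mt G (K \ {x, u, v})

/-- SGE (150 lines, from CM3, FCE, SUE, SAE, SBE; `FC.specMTC`, `FC.specEVT`, `FC.specNBP`): as `FC.specSNG`
(`FC/SNG.lean`).

PROOF.  Let `K ∈ F`, `|K| ≠ 1`, so `|K| ≥ 3` (odd).  Let `A = {y ∈ T | ∃ x ∈ K0, G.Adj x y}`: `3 ≤ |A|` by CM3 `three` with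
`T := A`, `A := K0`, `x` an element of `K`.  EVT gives `a`, `c`, `D ⊆ K0`.  Let `W = (T ∪ F.biUnion id) ∪ D`, `d` the colouring
of `BAL` for `W`.  NBP (FCE): `u`, `v ∈ K` adjacent, `d u = d v`.  SBE gives `x` (and `s`), SAE gives
`Mt G (insert x (W \ K))`, and `W \ {u, v} = insert x (W \ K) ∪ (K \ {x, u, v})` (disjoint; `K ⊆ W`), so
`Mt G (W \ {u, v})` and `d u ≠ d v`: contradiction. -/
def SpecSGE : Prop :=
  ∀ (V : Type u) [Fintype V] [DecidableEq V] (G : SimpleGraph V) (_ : Conn3 G) (_ : BAL G)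
    (T K0 : Finset V) (F : Finset (Finset V)) (_ : OptE G T K0 F) (_ : 4 ≤ T.card),
    ∀ K ∈ F, K.card = 1

/-- HBE (120 lines).  From families of single vertices to hubs.

PROOF.  `I = F.biUnion id`; `x ∈ I` iff `{x} ∈ F`; `X ↦ X.image (fun x => {x})` is a bijection between the subsets of `I` and
the subsets of `F`, it preserves the number of elements, and `NV G T X = Nb G T (X.image ..)`.  `nb`: `Fam.nb` (`y ≠ x`). -/
def SpecHBE : Prop :=
  ∀ (V : Type u) [Fintype V] [DecidableEq V] (G : SimpleGraph V) (T : Finset V)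
    (F : Finset (Finset V)) (_ : Fam G Finset.univ T F) (_ : SurE G T F)
    (_ : ∀ K ∈ F, K.card = 1), HubE G T (F.biUnion id)

/-- FNE (80 lines, from SIX, OPE, SUE, SGE, HBE, TWF, DI3).

PROOF.  OPE gives an `OptE` triple, SIX: `Apex` or `4 ≤ |T|`.  SUE, SGE, HBE: a hub `T`, `I` (`|I| = |T| - 1 ≥ 3`).
DI3 for `R = T ∪ I`, `c x = decide (x ∈ I)` (`|R| ≥ 7`; `T` has at least 4, `I` at least 3 elements): two disjoint
breaking paths: TWF. -/
def SpecFNE : Prop :=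
  ∀ (V : Type u) [Fintype V] [DecidableEq V] (G : SimpleGraph V) (_ : IConn4 G) (_ : BAL G)
    (_ : ∃ (T K0 : Finset V) (F : Finset (Finset V)), GoodE G T K0 F), Apex G ∨ TOK G

/-! ### part D: no good triple -/

/-- There is no good triple. -/
def NG {V : Type u} [Fintype V] (G : SimpleGraph V) : Prop :=
  ∀ (T K0 : Finset V) (F : Finset (Finset V)), ¬ GoodE G T K0 F

/-- NGA (200 lines; `FC.specTUT`, `FC.specCMP.cmp`).

PROOF.  `cov`: suppose `x ∉ T` and `x` is in no `K ∈ F`.  Let `K0` be the component of `x` in `G - T` (CMP `cmp`).  For `K ∈ F` the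
set `C = univ \ (K ∪ T)` is closed and contains `x`, so `K0 ⊆ C`.  So `(T, K0, F)` is good: contradiction.
`le`: suppose `|T| ≤ |F|`.  Let `K₁ ∈ F`, `F' = F.erase K₁`, nonempty, `|T| ≤ |F'| + 1`, `x ∈ K₁` contradicts `cov`.
`fc`: let `|V|` be odd and suppose `¬ Mt G (univ \ {x})`.  TUT: `S ⊆ univ \ {x}`, `F₁`, `|S| + 2 ≤ |F₁|`; `T = insert x S`:
`Fam G univ T F₁`, `|T| = |S| + 1`: contradiction to `le`.
`odd`: let `|V|` be even.  If `Mt G (univ \ {u, v})` for all adjacent `u`, `v`: `BAL` for `univ` gives a proper colouring: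
`Apex` (any vertex; `V` is not empty).  Otherwise TUT: `S`, `F₁`, `|S| + 2 ≤ |F₁|`, `T = S ∪ {u, v}`: contradiction to `le`. -/
structure SpecNGA : Prop where
  cov : ∀ (V : Type u) [Fintype V] [DecidableEq V] (G : SimpleGraph V) (_ : NG G) (T : Finset V)
    (F : Finset (Finset V)) (_ : Fam G Finset.univ T F) (_ : F.Nonempty)
    (_ : T.card ≤ F.card + 1) (x : V), x ∈ T ∨ ∃ K ∈ F, x ∈ K
  le : ∀ (V : Type u) [Fintype V] [DecidableEq V] (G : SimpleGraph V) (_ : NG G) (T : Finset V)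
    (F : Finset (Finset V)) (_ : Fam G Finset.univ T F) (_ : 2 ≤ F.card), F.card + 1 ≤ T.card
  fc : ∀ (V : Type u) [Fintype V] [DecidableEq V] (G : SimpleGraph V) (_ : NG G)
    (_ : Odd (Fintype.card V)) (x : V), Mt G (Finset.univ \ {x})
  odd : ∀ (V : Type u) [Fintype V] [DecidableEq V] [Nonempty V] (G : SimpleGraph V) (_ : NG G)
    (_ : BAL G), Apex G ∨ Odd (Fintype.card V)

/-- A line: a tight set with factor-critical components. -/
structure Ln {V : Type u} [Fintype V] [DecidableEq V] (G : SimpleGraph V) (T : Finset V)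
    (F : Finset (Finset V)) : Prop where
  fam : Fam G Finset.univ T F
  eq : T.card = F.card + 1
  two : 2 ≤ T.card
  cov : ∀ x, x ∈ T ∨ ∃ K ∈ F, x ∈ K
  fc : ∀ K ∈ F, ∀ x ∈ K, Mt G (K \ {x})

/-- LNS (100 lines, from NGA).

PROOF.  Suppose `X ⊆ F`, nonempty, `X ≠ F`, `|Nb X| ≤ |X| + 1`.  `Fam G univ (Nb G T X) X`.  Let `K ∈ F`, `K ∉ X`, `x ∈ K` (odd, so
nonempty): `x ∉ T`, and `x` is in no element of `X` (`pw`): contradiction to NGA `cov`. -/
def SpecLNS : Prop :=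
  ∀ (V : Type u) [Fintype V] [DecidableEq V] (G : SimpleGraph V) (_ : NG G) (T : Finset V)
    (F : Finset (Finset V)) (_ : Ln G T F) (_ : 3 ≤ T.card), SurE G T F

/-- LNE (250 lines, from NGA; `FC.specTUT`).

PROOF.  Among all `(T, F)` with `Fam G univ T F`, `|T| = |F| + 1`, `T₀ ⊆ T`, `𝒦 ⊆ F` choose one with `|T|` maximal (`(T₀, F₀)` is
one).  `cov`: NGA `cov` (`|F| = |T| - 1 ≥ 1`).  `fc`: let `K ∈ F`, `x ∈ K`, `¬ Mt G (K \ {x})`; then `K ∉ 𝒦`.  TUT gives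
`S ⊆ K \ {x}`, `F₁`, `|S| + 2 ≤ |F₁|`.  As in `FC.specFCR`: `T' = T ∪ insert x S`, `F' = F.erase K ∪ F₁`: `Fam G univ T' F'`,
`|T'| = |T| + |S| + 1`, `|F'| = |F| - 1 + |F₁| ≥ |F| + |S| + 1 = |T'| - 1`; NGA `le`: `|F'| + 1 ≤ |T'|`.  So `|T'| = |F'| + 1`,
`T₀ ⊆ T'`, `𝒦 ⊆ F'`, `|T'| > |T|`: contradiction. -/
def SpecLNE : Prop :=
  ∀ (V : Type u) [Fintype V] [DecidableEq V] (G : SimpleGraph V) (_ : NG G) (T₀ : Finset V)
    (F₀ 𝒦 : Finset (Finset V)) (_ : Fam G Finset.univ T₀ F₀) (_ : T₀.card = F₀.card + 1)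
    (_ : 2 ≤ T₀.card) (_ : 𝒦 ⊆ F₀) (_ : ∀ K ∈ 𝒦, ∀ x ∈ K, Mt G (K \ {x})),
    ∃ (T : Finset V) (F : Finset (Finset V)), Ln G T F ∧ T₀ ⊆ T ∧ 𝒦 ⊆ F

/-- LNM (200 lines, from LNS, LNE, EXE; `FC.specMTC`, `FC.specBER`).

PROOF.  `inn`: if `Mt G (univ \ {x, p, q})`: `Fam G (univ \ {x, p, q}) (T \ {x, p, q}) F`, BER: `|F| ≤ |T| - 3`: contradiction to
`|T| = |F| + 1`.
`out`: let `x ∈ K ∈ F` (`cov`).  If `|T| = 2`: `T = {p, q}`, `F = {K}`, `univ \ {x, p, q} = K \ {x}`.  Otherwise LNS, EXE (second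
part with `K₁ = K`, `s = p`, `e = q`), and `univ \ {x, p, q}` is the disjoint union of `K \ {x}` and
`(T \ {p, q}) ∪ (F.erase K).biUnion id`.
`sub`: let `x ∈ T₀`, `x ∉ T`.  `x ≠ p`, `q`.  `¬ Mt G (univ \ {x, p, q})` as in `inn` (for `T₀`, `F₀`), contradiction to `out`.
`uni`: `sub` twice: `T = T'`.
`ex`: LNE with `T₀ = {y, z}`, `F₀ = {univ \ {y, z}}` (`|V|` is odd), `𝒦 = ∅`. -/
structure SpecLNM : Prop where
  inn : ∀ (V : Type u) [Fintype V] [DecidableEq V] (G : SimpleGraph V) (T : Finset V)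
    (F : Finset (Finset V)) (_ : Fam G Finset.univ T F) (_ : T.card = F.card + 1) (x p q : V)
    (_ : x ∈ T) (_ : p ∈ T) (_ : q ∈ T) (_ : [x, p, q].Nodup), ¬ Mt G (Finset.univ \ {x, p, q})
  out : ∀ (V : Type u) [Fintype V] [DecidableEq V] (G : SimpleGraph V) (_ : NG G) (T : Finset V)
    (F : Finset (Finset V)) (_ : Ln G T F) (x p q : V) (_ : x ∉ T) (_ : p ∈ T) (_ : q ∈ T)
    (_ : p ≠ q), Mt G (Finset.univ \ {x, p, q})
  sub : ∀ (V : Type u) [Fintype V] [DecidableEq V] (G : SimpleGraph V) (_ : NG G) (T : Finset V)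
    (F : Finset (Finset V)) (_ : Ln G T F) (T₀ : Finset V) (F₀ : Finset (Finset V))
    (_ : Fam G Finset.univ T₀ F₀) (_ : T₀.card = F₀.card + 1) (p q : V) (_ : p ∈ T) (_ : q ∈ T)
    (_ : p ∈ T₀) (_ : q ∈ T₀) (_ : p ≠ q), T₀ ⊆ T
  uni : ∀ (V : Type u) [Fintype V] [DecidableEq V] (G : SimpleGraph V) (_ : NG G)
    (T T' : Finset V) (F F' : Finset (Finset V)) (_ : Ln G T F) (_ : Ln G T' F') (p q : V)
    (_ : p ∈ T) (_ : q ∈ T) (_ : p ∈ T') (_ : q ∈ T') (_ : p ≠ q), T = T'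
  ex : ∀ (V : Type u) [Fintype V] [DecidableEq V] (G : SimpleGraph V) (_ : NG G)
    (_ : Odd (Fintype.card V)) (y z : V) (_ : y ≠ z),
    ∃ (T : Finset V) (F : Finset (Finset V)), Ln G T F ∧ y ∈ T ∧ z ∈ T

/-- LST (250 lines, from LNS, HBE, TWF, LNM).  A line with at least 3 points all whose components are single
vertices.

PROOF.  Let `I = F.biUnion id`, `HubE G T I` by LNS, HBE; `V = T ∪ I` (`cov`).
(1) There are no pairwise adjacent `x`, `y`, `z ∈ T`: let `i ∈ I`, `d` the colouring of `BAL` for `univ \ {i}`.  LNM `out`: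
`Mt G (univ \ {i, x, y})`, so `d x ≠ d y`; the same for the other pairs: contradiction.
(2) There are no disjoint edges `a b`, `c d` in `T`: `TWF` for the breaking paths `(a, [], b)`, `(c, [], d)` (colours
`false`).
(3) So there is `w ∈ T` such that all edges inside of `T` contain `w`: if there is an edge `a b` in `T` and neither `a` nor `b`
has this property, there are an edge without `a`, which must contain `b` by (2): `b x`, and an edge without `b`,
which must contain `a`: `a y`; by (2) (`b x`, `a y` are not disjoint) `x = y`: `a`, `b`, `x` contradict (1).  If there is no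
edge let `w` be any element of `T`.
`Apex` with `w` and `decide (v ∈ T)` (`I` is independent, `HubE.nb`). -/
def SpecLST : Prop :=
  ∀ (V : Type u) [Fintype V] [DecidableEq V] (G : SimpleGraph V) (_ : NG G) (_ : BAL G)
    (T : Finset V) (F : Finset (Finset V)) (_ : Ln G T F) (_ : 3 ≤ T.card)
    (_ : ∀ K ∈ F, K.card = 1), Apex G

/-- `K` is a minimal factor-critical set with at least 3 elements in a tight family with at least 3
points. -/
structure MinK {V : Type u} [Fintype V] [DecidableEq V] (G : SimpleGraph V) (K : Finset V) :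
    Prop where
  thr : 3 ≤ K.card
  fc : ∀ x ∈ K, Mt G (K \ {x})
  min : ∀ (T : Finset V) (F : Finset (Finset V)), Fam G Finset.univ T F → T.card = F.card + 1 →
    3 ≤ T.card → ∀ M ∈ F, 3 ≤ M.card → (∀ x ∈ M, Mt G (M \ {x})) → K.card ≤ M.card

/-- The barrier `B` with the single vertices `D` for the edge `u v` of `K` and the point `t`. -/
structure BD {V : Type u} [DecidableEq V] (G : SimpleGraph V) (K : Finset V) (t u v : V)
    (B D : Finset V) : Prop where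
  hu : u ∈ B
  hv : v ∈ B
  bK : B ⊆ K
  dK : D ⊆ K
  dis : Disjoint B D
  eq : D.card + 1 = B.card
  nb : ∀ l ∈ D, ∀ y, G.Adj l y → y ∈ B ∨ y = t

/-- LBA (300 lines, from LNS, EXE; `FC.specMTC`, `FC.specTUT`, `FC.specBER`).

PROOF.  (1) Let `R = {x ∈ K | ∃ s ∈ T, s ≠ t ∧ G.Adj x s}`.  There is no `x ∈ R`, `x ≠ u`, `v` with `Mt G (K \ {x, u, v})`: let `s` be
the neighbour of `x`.  `univ \ {t, u, v}` is the disjoint union of `{x, s}`, `K \ {x, u, v}` and
`(T \ {s, t}) ∪ (F.erase K).biUnion id` (EXE second part, `K₁ = K`; `V = T ∪ ⋃ F`), so `Mt G (univ \ {t, u, v})`: contradiction.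
(2) As in `FC.specSNB` (`FC/SNB.lean`): let `G'` be the graph with `G'.Adj x y` iff (`G.Adj x y`, `x ≠ t`, `y ≠ t`) or (`x = t`,
`y ∈ R`) or (`y = t`, `x ∈ R`), `W = (insert t K) \ {u, v}`, `|W|` even.  `Mt G' W` is impossible by (1).  TUT gives
`S ⊆ W`, `Fam G' W S F₁`, `|S| + 2 ≤ |F₁|`.  `t ∈ S` is impossible (BER, as in `FC.specSNB`).  `t ∉ S`:
`F₂ = {L ∈ F₁ | t ∉ L}`, `|F₂| ≥ |S| + 1`, `B = S ∪ {u, v}`, `|B| = |S| + 2` (`u ≠ v` are not in `W`).  `Fam G univ (insert t B) F₂`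
(as in `FC.specSNB`), `B ⊆ K`, the sets in `F₂` are subsets of `K`. -/
def SpecLBA : Prop :=
  ∀ (V : Type u) [Fintype V] [DecidableEq V] (G : SimpleGraph V) (_ : NG G)
    (T : Finset V) (F : Finset (Finset V)) (_ : Ln G T F) (_ : 3 ≤ T.card) (K : Finset V)
    (_ : K ∈ F) (t : V) (_ : t ∈ T) (u v : V) (_ : u ∈ K) (_ : v ∈ K) (_ : G.Adj u v)
    (_ : ¬ Mt G (Finset.univ \ {t, u, v})),
    ∃ (B : Finset V) (𝓓 : Finset (Finset V)), u ∈ B ∧ v ∈ B ∧ B ⊆ K ∧ (∀ M ∈ 𝓓, M ⊆ K) ∧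
      Fam G Finset.univ (insert t B) 𝓓 ∧ B.card ≤ 𝓓.card + 1 ∧ 𝓓.Nonempty

/-- LBB (300 lines, from NGA, LBA; `FC.specTUT`).

PROOF.  `t ∉ K`.  Choose `(B, 𝓓)` as in LBA with `|B|` maximal.  `F' = 𝓓 ∪ {rest}`, see below.
(1) `|𝓓| = |B| - 1`: `s ∈ T`, `s ≠ t` (`3 ≤ |T|`) is not in `insert t B` and in no `M ∈ 𝓓` (`M ⊆ K`).  If `|𝓓| ≥ |B| = |insert t B| - 1`
then NGA `cov` (`x = s`) gives a contradiction.
(2) All `M ∈ 𝓓` are factor-critical: otherwise (as in `FC.specFCR`, LNE) `x ∈ M`, `S ⊆ M \ {x}`, `F₁`, `|S| + 2 ≤ |F₁|`, and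
`B' = B ∪ insert x S`, `𝓓' = 𝓓.erase M ∪ F₁` is as in LBA (`|𝓓'| ≥ |𝓓| + |S| + 1 ≥ |B'| - 1`) with `|B'| > |B|`.
(3) `|M| = 1` for all `M ∈ 𝓓`: otherwise `|M| ≥ 3`.  Let `rest = univ \ (insert t B ∪ ⋃ 𝓓)`: `|V|` is odd (`V = T ∪ ⋃ F`,
`|T| = |F| + 1`, all `K ∈ F` odd), `|insert t B| + |𝓓| = 2 |B|` is even, so `|rest|` is odd.  `Fam G univ (insert t B)
(insert rest 𝓓)`: a neighbour of an element of `rest` is in `rest`, in `insert t B`, or in some `M ∈ 𝓓`, which is impossible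
(`Fam.nb` for `M`).  `rest ∉ 𝓓` (`s ∈ rest`).  So `|insert t B| = |insert rest 𝓓| + 1`, `|insert t B| ≥ 3` (`u ≠ v`, `t ∉ K`), and
`MinK.min` gives `|K| ≤ |M|`, but `M ⊆ K` and `u ∈ K`, `u ∉ M`: contradiction.
(4) `D = 𝓓.biUnion id`: `|D| = |𝓓|`, `nb`: `Fam.nb` (the element itself is not a neighbour).
(5) `tf`: the family of (3) (also without `|M| ≥ 3`). -/
def SpecLBB : Prop :=
  ∀ (V : Type u) [Fintype V] [DecidableEq V] (G : SimpleGraph V) (_ : NG G)
    (T : Finset V) (F : Finset (Finset V)) (_ : Ln G T F) (_ : 3 ≤ T.card) (K : Finset V)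
    (_ : K ∈ F) (_ : MinK G K) (t : V) (_ : t ∈ T) (u v : V) (_ : u ∈ K) (_ : v ∈ K)
    (_ : G.Adj u v) (_ : ¬ Mt G (Finset.univ \ {t, u, v})),
    ∃ B D : Finset V, BD G K t u v B D ∧ ∃ F' : Finset (Finset V),
      Fam G Finset.univ (insert t B) F' ∧ (insert t B).card = F'.card + 1

/-- LCN (200 lines; `FC.specMTC`).  Counting.

PROOF.  Let `m` be a perfect matching of `K \ {v}`, `m'` of `K \ {u}` (`Mt`).  `D ⊆ K \ {u, v}` (disjoint from `B`).  For
`l ∈ D`: `m l ∈ B` (`BD.nb`; `m l ∈ K`, `t ∉ K`), `m l ≠ v`; `m` is injective on `D`, `|D| = |B \ {v}|`, so `m` is a bijection from `D`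
to `B \ {v}`.  In the same way `m'` is a bijection from `D` to `B \ {u}`.  Let `β = δ u`, `δ v = ! β`.  Suppose that `δ (m l) ≠ δ l`
and `δ (m' l) ≠ δ l` for all `l ∈ D`.  Then `|{x ∈ B \ {v} | δ x = β}| = |{l ∈ D | δ l ≠ β}| = |{x ∈ B \ {u} | δ x = β}|`, but
the first set is the second set together with `u` (`δ v ≠ β`): contradiction. -/
def SpecLCN : Prop :=
  ∀ (V : Type u) [DecidableEq V] (G : SimpleGraph V) (K : Finset V) (t u v : V) (_ : t ∉ K)
    (_ : u ≠ v) (B D : Finset V) (_ : BD G K t u v B D) (m m' : V → V)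
    (_ : ∀ x ∈ K \ {v}, m x ∈ K \ {v} ∧ m (m x) = x ∧ G.Adj x (m x))
    (_ : ∀ x ∈ K \ {u}, m' x ∈ K \ {u} ∧ m' (m' x) = x ∧ G.Adj x (m' x))
    (δ : V → Bool) (_ : δ u ≠ δ v),
    (∃ l ∈ D, m l ∈ B ∧ δ (m l) = δ l) ∨ ∃ l ∈ D, m' l ∈ B ∧ δ (m' l) = δ l

/-- LSP (250 lines, from LNM, LBB; `FC.specMTC`, `FC.specBER`).  One step: `l ∈ D` and its partner `m l` have
the same colour.

PROOF.  Write `b = m l`, `b ∈ B`, `b ≠ v`, `l ∉ B`.  `u`, `v ∈ B ⊆ K`; `t`, `t' ∉ K`.  Let `Ln G T₁ F₁` with `u`, `v ∈ T₁` (LNM `ex`):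
`insert t B ⊆ T₁` by LNM `sub` (`LBB` gives the tight family for `insert t B`).  `t' ∉ T₁`: otherwise `t`, `t' ∈ T ∩ T₁`, so
`T = T₁` by LNM `uni`, but `u ∉ T`.
LBB for `t'` and the edge `b l` of `K` (`¬ Mt G (univ \ {t', b, l})` is the hypothesis) gives `B'`, `D'`, and with
`Ln G T₂ F₂`, `b`, `l ∈ T₂`: `insert t' B' ⊆ T₂`.  So `T₁ ≠ T₂` (`t' ∈ T₂`).
`v ∈ D'`: `K \ {v}` has the perfect matching `m` with `m l = b`, so `m` is a perfect matching of `K \ {v, b, l}`.  If `v ∉ D'` then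
`D' ⊆ K \ {v, b, l}` (`b`, `l ∈ B'`), every `x ∈ D'` has `m x ∈ B' \ {b, l}` (`BD.nb`, `t' ∉ K`), `m` is injective, so
`|D'| ≤ |B'| - 2`: contradiction to `BD.eq`.
`v` is adjacent to `u`, so `u ∈ B'` (`BD.nb`, `u ≠ t'`), `u ∈ T₂`.  If `u ≠ b` then `u`, `b ∈ T₁ ∩ T₂` and `T₁ = T₂` by LNM `uni`:
contradiction.  So `m l = b = u`, `l = m u`. -/
def SpecLSP : Prop :=
  ∀ (V : Type u) [Fintype V] [DecidableEq V] (G : SimpleGraph V) (_ : NG G)
    (_ : Odd (Fintype.card V)) (T : Finset V) (F : Finset (Finset V)) (_ : Ln G T F)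
    (_ : 3 ≤ T.card) (K : Finset V) (_ : K ∈ F) (_ : MinK G K) (t t' : V) (_ : t ∈ T)
    (_ : t' ∈ T) (_ : t ≠ t') (u v : V) (_ : u ∈ K) (_ : v ∈ K) (_ : G.Adj u v)
    (B D : Finset V) (_ : BD G K t u v B D) (F' : Finset (Finset V))
    (_ : Fam G Finset.univ (insert t B) F') (_ : (insert t B).card = F'.card + 1) (m : V → V)
    (_ : ∀ x ∈ K \ {v}, m x ∈ K \ {v} ∧ m (m x) = x ∧ G.Adj x (m x)) (l : V) (_ : l ∈ D)
    (_ : m l ∈ B) (_ : ¬ Mt G (Finset.univ \ {t', m l, l})), m l = u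

/-- LFI (250 lines, from LNM, LBB, LCN, LSP; `FC.specMTC`, `FC.specNBP`).

PROOF.  Suppose `4 ≤ |T|`.  Let `t ∈ T`, `d` the colouring of `BAL` for `univ \ {t}`.  NBP for `K` (`|K| ≥ 3`): adjacent `u`, `v ∈ K`
with `d u = d v`, so `¬ Mt G (univ \ {t, u, v})`.  LBB: `B`, `D`, `F'`.  Let `m` be a perfect matching of `K \ {v}`, `m'` of
`K \ {u}` (`Ln.fc`).
Claim: for `t' ∈ T`, `t' ≠ t`: `¬ Mt G (univ \ {t', u, m u})` or `¬ Mt G (univ \ {t', v, m' v})`.  Let `δ` be the colouring of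
`BAL` for `univ \ {t'}`.  `δ u ≠ δ v`: `Mt G (univ \ {t', u, v})`, by LNM `out` for the line `T₁ ∋ u`, `v` (`ex`): `t' ∉ T₁`, since
`t ∈ T₁` (LNM `sub` for the tight family `insert t B`), so `t'`, `t ∈ T ∩ T₁` would give `T = T₁ ∋ u`, but `u ∉ T`.  LCN: `l ∈ D`
with `δ (m l) = δ l`, `m l ∈ B`, so `¬ Mt G (univ \ {t', m l, l})` (`BAL`), so `m l = u` by LSP, `l = m u`.  Or `l ∈ D` with
`δ (m' l) = δ l`: LSP with `u`, `v` exchanged (`BD G K t v u B D`): `m' l = v`, `l = m' v`.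
`T \ {t}` has at least `3` elements, so there are two different `t'`, `t'' ∈ T \ {t}` for which the same alternative
holds, say the first one.  Let `Ln G T₂ F₂` be the line with `u`, `m u ∈ T₂`: `t' ∈ T₂` and `t'' ∈ T₂` by LNM `out`, so `T = T₂`
by LNM `uni`, `u ∈ T`: contradiction to `u ∈ K`. -/
def SpecLFI : Prop :=
  ∀ (V : Type u) [Fintype V] [DecidableEq V] (G : SimpleGraph V) (_ : NG G) (_ : BAL G)
    (_ : Odd (Fintype.card V)) (T : Finset V) (F : Finset (Finset V)) (_ : Ln G T F)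
    (_ : 3 ≤ T.card) (K : Finset V) (_ : K ∈ F) (_ : MinK G K), T.card = 3

/-- LAS (300 lines, from CM3, LNE, LNM, LST, LFI).

PROOF.  Suppose not `Apex`.
(1) For every vertex `x` there are adjacent `u`, `v ≠ x` with `¬ Mt G (univ \ {x, u, v})`: otherwise the colouring of `BAL`
for `univ \ {x}` shows `Apex` with `x`.  So (LNM `ex`, `out`) there is a line `T` with `u`, `v`, `x ∈ T`.
(2) Let `Ln G T F`, `3 ≤ |T|`.  Not all `K ∈ F` have one element (LST).
(3) By (1), (2) there are `(T, F)`, `M ∈ F` with `Fam`, `|T| = |F| + 1`, `3 ≤ |T|`, `3 ≤ |M|`, `M` factor-critical.  Choose one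
with `|M|` minimal, `K = M`: `MinK G K`.  LNE with `𝒦 = {K}`: a line `(T₁, F₁)`, `T ⊆ T₁`, `K ∈ F₁`.  LFI: `|T₁| = 3`.  `|F₁| = 2`,
`F₁ = {K, K'}`; `IConn4` for `N = T₁`, `A = K`, `B = K'`: `|K'| ≤ 1` (`|K| ≥ 3`), so `|V| = |K| + 4`.
(4) A line `(T, F)` with `|T| ≥ 4` has only components with one element (so it does not exist by (2)): let
`M ∈ F`, `|M| ≥ 3`: `|K| ≤ |M|` by `MinK.min`; `|V| ≥ |T| + |M| + (|F| - 1) = 2 |T| - 2 + |M| ≥ 6 + |K|`: contradiction to (3).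
So all lines have at most `3` points.
(5) Let `x` be a vertex, `u`, `v` as in (1), `(T, F)` the line: `T = {x, u, v}`, `F = {K₁, K₂}`.  `IConn4` for `N = T`, `K₁`, `K₂`: one of
them has one element `l`.  All neighbours of `l` are in `T`; CM3 `deg` (`N` = the set of the neighbours of `l`
in `T`): `l` is adjacent to all of `T`.  So `l`, `u`, `v` are pairwise adjacent.
(6) Every vertex `y` different from `l`, `u`, `v` is on the line through two of `l`, `u`, `v`: the colouring `d` of `BAL` for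
`univ \ {y}` has the same value at two of them, `p`, `q`, so `¬ Mt G (univ \ {y, p, q})`, LNM `out`.  The three lines have
at most `3` points, so there are at most `3` such vertices: `|V| ≤ 6`, contradiction to `|V| = |K| + 4 ≥ 7`. -/
def SpecLAS : Prop :=
  ∀ (V : Type u) [Fintype V] [DecidableEq V] (G : SimpleGraph V) (_ : IConn4 G) (_ : BAL G)
    (_ : NG G) (_ : Odd (Fintype.card V)), Apex G

/-- The theorem. -/
def Main : Prop :=
  ∀ (V : Type u) [Fintype V] (G : SimpleGraph V) (_ : IConn4 G), IsSeymour G ↔ Apex G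

/-- FIN (80 lines, from NGA, FNE, LAS).

PROOF.  `←`: `SG.mAPX` (import `Pool.Agent.Lib.MP_ded8ec_lc.SG.Main`).  `→`: `FC.specBAS`: `BAL`.  If there is a good triple:
FNE: `Apex` or `TOK`, the second contradicts `SG.mTKN` (see `SG/Main.lean`; `SpecTKN`: a Seymour graph has no `TOK`).
Otherwise `NG`; NGA `odd`: `Apex` or `|V|` is odd, LAS. -/
def SpecFIN : Prop := Main.{u}

end Pool.Agent.Lib.MPded8ec.FI
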