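import Pool.Agent.Lib.MP_ded8ec_lc.FC.FCR
import Pool.Agent.Lib.MP_ded8ec_lc.FC.TUT
import Pool.Agent.Lib.MP_ded8ec_lc.FI.Spec

/-!
# Internally 4-connected Seymour graphs (MP_ded8ec_lc), module FCE: the sets in `F` are factor-critical
-/

set_option autoImplicit false

namespace Pool.Agent.Lib.MPded8ec.FI

open Pool.Agent.Lib.MPded8ec.SG Pool.Agent.Lib.MPded8ec.FC

universe u

open Finset in
/-- **FCE** -/
theorem specFCE (hENE : SpecENE.{u}) : SpecFCE.{u} := by
  intro V _ _ G T K0 F hO K hK x hx
  by_contra hM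
  have hg := hO.good
  have hF := hg.fam
  have hcx : (K \ {x}).card + 1 = K.card := by
    rw [sdiff_singleton_eq_erase]
    exact card_erase_add_one hx
  have hev : Even (K \ {x}).card := by
    have h1 := hF.odd K hK
    rw [← hcx] at h1
    rcases Nat.even_or_odd (K \ {x}).card with h | h
    · exact h
    · exfalso
      have h2 := h.add_one
      exact (Nat.not_even_iff_odd.2 h1) h2
  obtain ⟨S, F₁, hS, hF₁, hc⟩ := FC.specTUT V G (K \ {x}) hev hM
  have hfam := FC.FCRM.fam hF hK hS hx hF₁
  have hSK : insert x S ⊆ K := by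
    intro y hy
    rcases mem_insert.1 hy with rfl | hy
    · exact hx
    · exact (mem_sdiff.1 (hS hy)).1
  have hLK : ∀ L ∈ F₁, L ⊆ K := fun L hL y hy => (mem_sdiff.1 (hF₁.sub L hL hy)).1
  have hKK0 : Disjoint K K0 := hg.dk K hK
  have hne : F₁.Nonempty := by
    rw [← card_pos]
    omega
  have hdisF : Disjoint (F.erase K) F₁ := by
    rw [disjoint_left]
    intro L hL hL'
    have h1 : Disjoint L K := hF.pw L (mem_of_mem_erase hL) K hK (ne_of_mem_erase hL)
    have h2 : L = ∅ := by
      rw [← disjoint_self_iff_empty]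
      exact h1.mono_right (hLK L hL')
    have h3 := hF₁.odd L hL'
    rw [h2] at h3
    simp at h3
  have hcardF : (F.erase K ∪ F₁).card + 1 = F.card + F₁.card := by
    rw [card_union_of_disjoint hdisF]
    have := card_erase_add_one hK
    omega
  have hcardT : (T ∪ insert x S).card ≤ T.card + (S.card + 1) :=
    (card_union_le _ _).trans (Nat.add_le_add_left (card_insert_le _ _) _)
  have hnum := hg.num
  have h1 := (hENE V G T K0 F hO (T ∪ insert x S) (F.erase K ∪ F₁) hfam
    (by
      rw [disjoint_union_right]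
      exact ⟨hg.dis, (hKK0.mono_left hSK).symm⟩)
    (by
      intro L hL
      rcases mem_union.1 hL with hL | hL
      · exact hg.dk L (mem_of_mem_erase hL)
      · exact hKK0.mono_left (hLK L hL))
    (hne.mono subset_union_right) (by omega)).2
  rw [sum_union hdisF, ← add_sum_erase F _ hK] at h1
  have h2 : ∑ L ∈ F₁, L.card ≤ (K \ {x}).card := by
    have h3 : (F₁.biUnion id).card = ∑ L ∈ F₁, L.card := by
      rw [card_biUnion]
      · rfl
      · intro L hL M hM hLM
        exact hF₁.pw L hL M hM hLM
    rw [← h3]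
    refine card_le_card ?_
    intro y hy
    obtain ⟨L, hL, hyL⟩ := mem_biUnion.1 hy
    exact hF₁.sub L hL hyL
  omega

end Pool.Agent.Lib.MPded8ec.FI
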