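import Pool.Agent.Lib.MP_ded8ec_lc.FI.Spec
import Pool.Agent.Lib.MP_ded8ec_lc.FC.BAS
import Pool.Agent.Lib.MP_ded8ec_lc.SG.Main

/-!
# Internally 4-connected Seymour graphs (MP_ded8ec_lc), module FIN (helper86)
-/

set_option autoImplicit false

namespace Pool.Agent.Lib.MPded8ec.FI

open Pool.Agent.Lib.MPded8ec.SG Pool.Agent.Lib.MPded8ec.FC

universe u

theorem specFIN (hNGA : SpecNGA.{u}) (hFNE : SpecFNE.{u}) (hLAS : SpecLAS.{u}) :
    SpecFIN.{u} := by
  classical
  intro V _ G hG
  constructor
  · intro hs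
    have hb : BAL G := FC.specBAS V G hs
    by_cases hg : ∃ (T K0 : Finset V) (F : Finset (Finset V)), GoodE G T K0 F
    · rcases hFNE V G hG hb hg with h | h
      · exact h
      · exact absurd h (SG.mTKN V G hs)
    · have hn : NG G := fun T K0 F h => hg ⟨T, K0, F, h⟩
      have hne : Nonempty V := Fintype.card_pos_iff.1 (by have := hG.1.1; omega)
      rcases hNGA.odd V G hn hb with h | h
      · exact h
      · exact hLAS V G hG hb hn h
  · intro h
    exact SG.mAPX V G h

end Pool.Agent.Lib.MPded8ec.FI
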