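import Pool.Agent.Lib.MP_ded8ec_lc.FI.Spec

/-!
# Internally 4-connected Seymour graphs (MP_ded8ec_lc), module FNE: the case of a good triple (helper26)
-/

set_option autoImplicit false

namespace Pool.Agent.Lib.MPded8ec.FI

open Pool.Agent.Lib.MPded8ec.SG Pool.Agent.Lib.MPded8ec.FC

universe u

open Finset in
/-- **FNE** -/
theorem specFNE (hSIX : SpecSIX.{u}) (hOPE : SpecOPE.{u}) (hSUE : SpecSUE.{u})
    (hSGE : SpecSGE.{u}) (hHBE : SpecHBE.{u}) (hTWF : SpecTWF.{u}) (hDI3 : SpecDI3.{u}) :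
    SpecFNE.{u} := by
  intro V _ _ G hG hB hgood
  obtain ⟨T, K0, F, hO⟩ := hOPE V G hgood
  rcases hSIX V G hG hB T K0 F hO.good with h4 | h
  · have hS : SurE G T F := hSUE V G T K0 F hO h4
    have h1 : ∀ K ∈ F, K.card = 1 := hSGE V G hG.1 hB T K0 F hO h4
    have hH : HubE G T (F.biUnion id) := hHBE V G T F hO.good.fam hS h1
    have hI : 3 ≤ (F.biUnion id).card := by
      have := hH.eq
      omega
    have hR : 5 ≤ (T ∪ F.biUnion id).card := by
      rw [card_union_of_disjoint hH.dis]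
      omega
    have hm : ∀ (β : Bool) (z : V), ∃ m ∈ T ∪ F.biUnion id,
        (fun x => decide (x ∈ F.biUnion id)) m = β ∧ m ≠ z := by
      intro β z
      cases β
      · obtain ⟨m, hm, hmz⟩ := exists_mem_ne (s := T) (by omega) z
        refine ⟨m, mem_union_left _ hm, ?_, hmz⟩
        exact decide_eq_false (disjoint_left.1 hH.dis hm)
      · obtain ⟨m, hm, hmz⟩ := exists_mem_ne (s := F.biUnion id) (by omega) z
        exact ⟨m, mem_union_right _ hm, decide_eq_true hm, hmz⟩
    rcases hDI3 V G hG (T ∪ F.biUnion id) (fun x => decide (x ∈ F.biUnion id)) hR hm with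
      ⟨a, l, b, a', l', b', h⟩ | h | h
    · exact absurd h (hTWF V G hB T (F.biUnion id) hH a b a' b' l l')
    · exact Or.inl h
    · exact Or.inr h
  · exact Or.inl h

end Pool.Agent.Lib.MPded8ec.FI
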