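import Pool.Agent.Lib.MP_ded8ec_lc.FI.Spec
import Pool.Agent.Lib.MP_ded8ec_lc.FC.MTC
import Mathlib.Combinatorics.Hall.Basic

/-!
# Internally 4-connected Seymour graphs: module HAE (helper58)

Matchings in a hub, from Hall's theorem.
-/

set_option autoImplicit false

namespace Pool.Agent.Lib.MPded8ec.FI

open Pool.Agent.Lib.MPded8ec.FC

universe u

namespace HAEM

theorem mem_NV {V : Type u} {G : SimpleGraph V} {T X : Finset V} {t : V} :
    t ∈ NV G T X ↔ t ∈ T ∧ ∃ x ∈ X, G.Adj x t := by
  unfold NV
  simp only [Finset.mem_filter]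

theorem mt {V : Type u} [DecidableEq V] {G : SimpleGraph V} {T Z J : Finset V} (hd : Disjoint T J)
    (hc : (T \ Z).card = J.card) (hX : ∀ X ⊆ J, X.card ≤ (NV G T X \ Z).card) :
    Mt G ((T \ Z) ∪ J) := by
  let N : {x : V // x ∈ J} → Finset V := fun x =>
    (T \ Z).filter (fun t => t ∈ NV G T {x.1})
  have hall : ∀ s : Finset {x : V // x ∈ J}, s.card ≤ (s.biUnion N).card := by
    intro s
    have h1 : (s.image Subtype.val).card = s.card :=
      Finset.card_image_of_injective s Subtype.val_injective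
    have h2 : s.image Subtype.val ⊆ J := by
      intro x hx
      obtain ⟨x', -, rfl⟩ := Finset.mem_image.1 hx
      exact x'.2
    have h3 : NV G T (s.image Subtype.val) \ Z ⊆ s.biUnion N := by
      intro t ht
      rw [Finset.mem_sdiff, mem_NV] at ht
      obtain ⟨⟨h4, x, hx, h5⟩, h6⟩ := ht
      obtain ⟨x', hx', rfl⟩ := Finset.mem_image.1 hx
      exact Finset.mem_biUnion.2 ⟨x', hx', Finset.mem_filter.2 ⟨Finset.mem_sdiff.2 ⟨h4, h6⟩,
        mem_NV.2 ⟨h4, x'.1, Finset.mem_singleton_self _, h5⟩⟩⟩
    rw [← h1]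
    exact (hX _ h2).trans (Finset.card_le_card h3)
  obtain ⟨f, hf, hfN⟩ := (Finset.all_card_le_biUnion_card_iff_exists_injective N).1 hall
  have hN : ∀ x : {x : V // x ∈ J}, f x ∈ T ∧ f x ∉ Z ∧ G.Adj x.1 (f x) := by
    intro x
    have h := hfN x
    rw [Finset.mem_filter, Finset.mem_sdiff, mem_NV] at h
    obtain ⟨⟨h1, h2⟩, -, y, hy, h3⟩ := h
    rw [Finset.mem_singleton] at hy
    exact ⟨h1, h2, hy ▸ h3⟩
  have himg : J.attach.image f = T \ Z := by
    apply Finset.eq_of_subset_of_card_le
    · intro t ht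
      obtain ⟨x, -, rfl⟩ := Finset.mem_image.1 ht
      exact Finset.mem_sdiff.2 ⟨(hN x).1, (hN x).2.1⟩
    · rw [Finset.card_image_of_injective _ hf, Finset.card_attach, hc]
  have hdj : ∀ x ∈ J, ∀ t ∈ T, x ≠ t := by
    intro x hx t ht h
    exact Finset.disjoint_left.1 hd ht (h ▸ hx)
  have hb := specMTC.bun V {x : V // x ∈ J} G J.attach (fun x => {x.1, f x})
    (fun x _ => specMTC.pair V G x.1 (f x) (hN x).2.2)
    (by
      intro x _ y _ hxy
      rw [Finset.disjoint_left]
      intro z hz hz'
      simp only [Finset.mem_insert, Finset.mem_singleton] at hz hz'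
      rcases hz with h | h <;> rcases hz' with h' | h'
      · exact hxy (Subtype.ext (h.symm.trans h'))
      · exact hdj x.1 x.2 (f y) (hN y).1 (h.symm.trans h')
      · exact hdj y.1 y.2 (f x) (hN x).1 (h'.symm.trans h)
      · exact hxy (hf (h.symm.trans h')))
  have heq : J.attach.biUnion (fun x => ({x.1, f x} : Finset V)) = (T \ Z) ∪ J := by
    ext z
    rw [Finset.mem_biUnion, Finset.mem_union, ← himg, Finset.mem_image]
    constructor
    · rintro ⟨x, hx, hz⟩
      rcases Finset.mem_insert.1 hz with h | h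
      · right
        rw [h]
        exact x.2
      · left
        exact ⟨x, hx, (Finset.mem_singleton.1 h).symm⟩
    · rintro (⟨x, hx, h⟩ | h)
      · exact ⟨x, hx, by rw [← h]; simp⟩
      · exact ⟨⟨z, h⟩, Finset.mem_attach _ _, by simp⟩
  rw [← heq]
  exact hb

theorem NV_sub {V : Type u} {G : SimpleGraph V} {T X : Finset V} : NV G T X ⊆ T := by
  intro t ht
  exact (mem_NV.1 ht).1

theorem NV_mono {V : Type u} {G : SimpleGraph V} {T X Y : Finset V} (h : X ⊆ Y) :
    NV G T X ⊆ NV G T Y := by
  intro t ht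
  obtain ⟨h1, x, hx, h2⟩ := mem_NV.1 ht
  exact mem_NV.2 ⟨h1, x, h hx, h2⟩

/-- All of `T` is the neighbourhood of `I`. -/
theorem all {V : Type u} [DecidableEq V] {G : SimpleGraph V} {T I : Finset V} (h : HubE G T I) :
    T.card ≤ (NV G T I).card := by
  have h2 := h.two
  have hne : I.Nonempty := by
    rw [← Finset.card_pos]
    omega
  obtain ⟨i, hi⟩ := hne
  have h3 : (I.erase i).card = I.card - 1 := Finset.card_erase_of_mem hi
  have h4 : (I.erase i).Nonempty := by
    rw [← Finset.card_pos]
    omega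
  have h5 : I.erase i ≠ I := by
    intro h6
    have := Finset.notMem_erase i I
    rw [h6] at this
    exact this hi
  have h6 := h.sur _ (Finset.erase_subset i I) h4 h5
  have h7 := Finset.card_le_card (NV_mono (G := G) (T := T) (Finset.erase_subset i I))
  have h8 := h.eq
  omega

theorem p1 {V : Type u} [DecidableEq V] {G : SimpleGraph V} {T I : Finset V} (h : HubE G T I)
    {a : V} (ha : a ∈ T) : Mt G ((T ∪ I) \ {a}) := by
  have hZ : (T \ {a}).card = I.card := by
    rw [Finset.card_sdiff_of_subset (Finset.singleton_subset_iff.2 ha), Finset.card_singleton, h.eq]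
    omega
  have hm := mt (G := G) (Z := {a}) h.dis hZ (by
    intro X hX
    have h1 : (NV G T X).card - ({a} : Finset V).card ≤ (NV G T X \ {a}).card :=
      Finset.le_card_sdiff _ _
    rw [Finset.card_singleton] at h1
    rcases Finset.eq_empty_or_nonempty X with h0 | h0
    · rw [h0]
      exact Nat.zero_le _
    · by_cases hXI : X = I
      · subst hXI
        have h2 := all h
        have h3 := h.eq
        omega
      · have h2 := h.sur X hX h0 hXI
        omega)
  have heq : (T \ {a}) ∪ I = (T ∪ I) \ {a} := by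
    have h1 : a ∉ I := Finset.disjoint_left.1 h.dis ha
    ext z
    simp only [Finset.mem_union, Finset.mem_sdiff, Finset.mem_singleton]
    constructor
    · rintro (⟨h2, h3⟩ | h2)
      · exact ⟨Or.inl h2, h3⟩
      · exact ⟨Or.inr h2, fun h3 => h1 (h3 ▸ h2)⟩
    · rintro ⟨h2 | h2, h3⟩
      · exact Or.inl ⟨h2, h3⟩
      · exact Or.inr h2
  rw [← heq]
  exact hm

theorem p2 {V : Type u} [DecidableEq V] {G : SimpleGraph V} {T I : Finset V} (h : HubE G T I)
    {i a b : V} (hi : i ∈ I) (ha : a ∈ T) (hb : b ∈ T) (hab : a ≠ b) :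
    Mt G ((T ∪ I) \ {i, a, b}) := by
  have hiT : i ∉ T := Finset.disjoint_right.1 h.dis hi
  have haI : a ∉ I := Finset.disjoint_left.1 h.dis ha
  have hbI : b ∉ I := Finset.disjoint_left.1 h.dis hb
  have hc2 : ({a, b} : Finset V).card = 2 := Finset.card_pair hab
  have hsub : ({a, b} : Finset V) ⊆ T := by
    intro z hz
    rcases Finset.mem_insert.1 hz with h1 | h1
    · rw [h1]
      exact ha
    · rw [Finset.mem_singleton.1 h1]
      exact hb
  have hcI : (I.erase i).card = I.card - 1 := Finset.card_erase_of_mem hi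
  have hZ : (T \ {a, b}).card = (I.erase i).card := by
    rw [Finset.card_sdiff_of_subset hsub, hc2, hcI, h.eq]
    omega
  have hd : Disjoint T (I.erase i) := h.dis.mono_right (Finset.erase_subset i I)
  have hm := mt (G := G) (Z := {a, b}) hd hZ (by
    intro X hX
    have h1 : (NV G T X).card - ({a, b} : Finset V).card ≤ (NV G T X \ {a, b}).card :=
      Finset.le_card_sdiff _ _
    rw [hc2] at h1
    rcases Finset.eq_empty_or_nonempty X with h0 | h0
    · rw [h0]
      exact Nat.zero_le _
    · have hXI : X ≠ I := by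
        intro h2
        rw [h2] at hX
        exact Finset.notMem_erase i I (hX hi)
      have h2 := h.sur X (hX.trans (Finset.erase_subset i I)) h0 hXI
      omega)
  have heq : (T \ {a, b}) ∪ I.erase i = (T ∪ I) \ {i, a, b} := by
    ext z
    simp only [Finset.mem_union, Finset.mem_sdiff, Finset.mem_insert, Finset.mem_singleton,
      Finset.mem_erase, not_or]
    constructor
    · rintro (⟨h2, h3⟩ | ⟨h2, h3⟩)
      · exact ⟨Or.inl h2, fun h4 => hiT (h4 ▸ h2), h3⟩
      · exact ⟨Or.inr h3, h2, fun h4 => haI (h4 ▸ h3), fun h4 => hbI (h4 ▸ h3)⟩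
    · rintro ⟨h2 | h2, h3, h4⟩
      · exact Or.inl ⟨h2, h4⟩
      · exact Or.inr ⟨h3, h2⟩
  rw [← heq]
  exact hm

theorem p3 {V : Type u} [DecidableEq V] {G : SimpleGraph V} {T I : Finset V} (h : HubE G T I)
    {i j t a b : V} (hi : i ∈ I) (hj : j ∈ I) (hij : i ≠ j) (ht : t ∈ T) (ha : a ∈ T) (hb : b ∈ T)
    (hn : [t, a, b].Nodup)
    (hf : ∀ Z, Ti G T I Z → i ∉ Z → a ∈ NV G T Z → b ∈ NV G T Z → t ∈ NV G T Z → j ∈ Z) :
    Mt G ((T ∪ I) \ {i, j, t, a, b}) := by
  have hiT : i ∉ T := Finset.disjoint_right.1 h.dis hi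
  have hjT : j ∉ T := Finset.disjoint_right.1 h.dis hj
  have htI : t ∉ I := Finset.disjoint_left.1 h.dis ht
  have haI : a ∉ I := Finset.disjoint_left.1 h.dis ha
  have hbI : b ∉ I := Finset.disjoint_left.1 h.dis hb
  have hta : t ≠ a := by
    intro h1
    simp [h1] at hn
  have htb : t ≠ b := by
    intro h1
    simp [h1] at hn
  have hab : a ≠ b := by
    intro h1
    simp [h1] at hn
  have hc3 : ({t, a, b} : Finset V).card = 3 := by
    rw [Finset.card_insert_of_notMem, Finset.card_pair hab]
    simp only [Finset.mem_insert, Finset.mem_singleton, not_or]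
    exact ⟨hta, htb⟩
  have hsub : ({t, a, b} : Finset V) ⊆ T := by
    intro z hz
    simp only [Finset.mem_insert, Finset.mem_singleton] at hz
    rcases hz with h1 | h1 | h1
    · rw [h1]
      exact ht
    · rw [h1]
      exact ha
    · rw [h1]
      exact hb
  have hji : j ∈ I.erase i := Finset.mem_erase.2 ⟨hij.symm, hj⟩
  have hcI : (I.erase i).card = I.card - 1 := Finset.card_erase_of_mem hi
  have hcJ : ((I.erase i).erase j).card = (I.erase i).card - 1 := Finset.card_erase_of_mem hji
  have h2I := h.two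
  have hZ : (T \ {t, a, b}).card = ((I.erase i).erase j).card := by
    rw [Finset.card_sdiff_of_subset hsub, hc3, hcJ, hcI, h.eq]
    omega
  have hJI : (I.erase i).erase j ⊆ I := (Finset.erase_subset j _).trans (Finset.erase_subset i I)
  have hd : Disjoint T ((I.erase i).erase j) := h.dis.mono_right hJI
  have hm := mt (G := G) (Z := {t, a, b}) hd hZ (by
    intro X hX
    have h1 : (NV G T X).card - ({t, a, b} : Finset V).card ≤ (NV G T X \ {t, a, b}).card :=
      Finset.le_card_sdiff _ _
    rw [hc3] at h1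
    rcases Finset.eq_empty_or_nonempty X with h0 | h0
    · rw [h0]
      exact Nat.zero_le _
    · have hjX : j ∉ X := fun h2 => Finset.notMem_erase j (I.erase i) (hX h2)
      have hiX : i ∉ X := by
        intro h2
        have h3 := hX h2
        rw [Finset.mem_erase, Finset.mem_erase] at h3
        exact h3.2.1 rfl
      have hXI : X ≠ I := by
        intro h2
        rw [h2] at hjX
        exact hjX hj
      have h2 := h.sur X (hX.trans hJI) h0 hXI
      by_cases h3 : X.card + 3 ≤ (NV G T X).card
      · omega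
      · have h4 : (NV G T X).card = X.card + 2 := by omega
        have hti : Ti G T I X := ⟨hX.trans hJI, h0, hXI, h4⟩
        have key : ∀ u v : V, (NV G T X \ {t, a, b}) = NV G T X \ {u, v} →
            X.card ≤ (NV G T X \ {t, a, b}).card := by
          intro u v huv
          rw [huv]
          have h5 : (NV G T X).card - ({u, v} : Finset V).card ≤ (NV G T X \ {u, v}).card :=
            Finset.le_card_sdiff _ _
          have h6 : ({u, v} : Finset V).card ≤ 2 := Finset.card_le_two
          omega
        by_cases hta' : t ∈ NV G T X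
        · by_cases haa' : a ∈ NV G T X
          · by_cases hbb' : b ∈ NV G T X
            · exact absurd (hf X hti hiX haa' hbb' hta') hjX
            · refine key t a ?_
              ext z
              simp only [Finset.mem_sdiff, Finset.mem_insert, Finset.mem_singleton, not_or]
              constructor
              · rintro ⟨h5, h6, h7, -⟩
                exact ⟨h5, h6, h7⟩
              · rintro ⟨h5, h6, h7⟩
                exact ⟨h5, h6, h7, fun h8 => hbb' (h8 ▸ h5)⟩
          · refine key t b ?_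
            ext z
            simp only [Finset.mem_sdiff, Finset.mem_insert, Finset.mem_singleton, not_or]
            constructor
            · rintro ⟨h5, h6, -, h7⟩
              exact ⟨h5, h6, h7⟩
            · rintro ⟨h5, h6, h7⟩
              exact ⟨h5, h6, fun h8 => haa' (h8 ▸ h5), h7⟩
        · refine key a b ?_
          ext z
          simp only [Finset.mem_sdiff, Finset.mem_insert, Finset.mem_singleton, not_or]
          constructor
          · rintro ⟨h5, -, h6, h7⟩
            exact ⟨h5, h6, h7⟩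
          · rintro ⟨h5, h6, h7⟩
            exact ⟨h5, fun h8 => hta' (h8 ▸ h5), h6, h7⟩)
  have heq : (T \ {t, a, b}) ∪ (I.erase i).erase j = (T ∪ I) \ {i, j, t, a, b} := by
    ext z
    simp only [Finset.mem_union, Finset.mem_sdiff, Finset.mem_insert, Finset.mem_singleton,
      Finset.mem_erase, not_or]
    constructor
    · rintro (⟨h2, h3⟩ | ⟨h2, h3, h4⟩)
      · exact ⟨Or.inl h2, fun h5 => hiT (h5 ▸ h2), fun h5 => hjT (h5 ▸ h2), h3⟩
      · exact ⟨Or.inr h4, h3, h2, fun h5 => htI (h5 ▸ h4), fun h5 => haI (h5 ▸ h4),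
          fun h5 => hbI (h5 ▸ h4)⟩
    · rintro ⟨h2 | h2, h3, h4, h5⟩
      · exact Or.inl ⟨h2, h5⟩
      · exact Or.inr ⟨h4, h3, h2⟩
  rw [← heq]
  exact hm

end HAEM

theorem specHAE : SpecHAE.{u} where
  mt _ _ _ _ _ _ hd hc hX := HAEM.mt hd hc hX
  p1 _ _ _ _ _ h _ ha := HAEM.p1 h ha
  p2 _ _ _ _ _ h _ _ _ hi ha hb hab := HAEM.p2 h hi ha hb hab
  p3 _ _ _ _ _ h _ _ _ _ _ hi hj hij ht ha hb hn hf := HAEM.p3 h hi hj hij ht ha hb hn hf

end Pool.Agent.Lib.MPded8ec.FI
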