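import Pool.Agent.Lib.MP_ded8ec_lc.FI.Spec

/-!
# Internally 4-connected Seymour graphs (MP_ded8ec_lc), module HBE: families of single vertices are hubs
-/

set_option autoImplicit false

namespace Pool.Agent.Lib.MPded8ec.FI

open Pool.Agent.Lib.MPded8ec.SG Pool.Agent.Lib.MPded8ec.FC

universe u

open Finset in
/-- **HBE** -/
theorem specHBE : SpecHBE.{u} := by
  intro V _ _ G T F hF hS h1
  have hsing : ∀ x, x ∈ F.biUnion id ↔ ({x} : Finset V) ∈ F := by
    intro x
    rw [mem_biUnion]
    constructor
    · rintro ⟨K, hK, hx⟩
      obtain ⟨y, rfl⟩ := card_eq_one.1 (h1 K hK)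
      have : x = y := by simpa using hx
      subst this
      exact hK
    · intro hx
      exact ⟨{x}, hx, by simp⟩
  have hinj : Function.Injective (fun x : V => ({x} : Finset V)) := fun x y h =>
    singleton_injective h
  have himg : F = (F.biUnion id).image (fun x => ({x} : Finset V)) := by
    ext K
    rw [mem_image]
    constructor
    · intro hK
      obtain ⟨y, rfl⟩ := card_eq_one.1 (h1 K hK)
      exact ⟨y, (hsing y).2 hK, rfl⟩
    · rintro ⟨x, hx, rfl⟩
      exact (hsing x).1 hx
  have hcard : (F.biUnion id).card = F.card := by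
    conv_rhs => rw [himg]
    rw [card_image_of_injective _ hinj]
  have hnv : ∀ X : Finset V, NV G T X = Nb G T (X.image (fun x => ({x} : Finset V))) := by
    intro X
    ext t
    unfold NV Nb
    simp only [mem_filter]
    refine and_congr_right fun _ => ?_
    constructor
    · rintro ⟨x, hx, h⟩
      exact ⟨{x}, mem_image_of_mem _ hx, x, mem_singleton_self x, h⟩
    · rintro ⟨K, hK, x, hx, h⟩
      obtain ⟨y, hy, rfl⟩ := mem_image.1 hK
      have : x = y := by simpa using hx
      subst this
      exact ⟨x, hy, h⟩
  refine ⟨?_, ?_, ?_, ?_, ?_⟩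
  · rw [disjoint_biUnion_right]
    intro K hK
    exact (hF.dis K hK).symm
  · intro x hx y hxy
    have hxF := (hsing x).1 hx
    rcases hF.nb {x} hxF x (mem_singleton_self x) y (mem_univ _) hxy with h | h
    · exfalso
      rw [mem_singleton] at h
      subst h
      exact G.loopless.irrefl _ hxy
    · exact h
  · rw [hcard]
    exact hS.eq
  · rw [hcard]
    exact hS.two
  · intro X hX hne hXI
    rw [hnv, ← card_image_of_injective X hinj]
    refine hS.sur _ ?_ (hne.image _) ?_
    · intro K hK
      obtain ⟨x, hx, rfl⟩ := mem_image.1 hK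
      exact (hsing x).1 (hX hx)
    · intro h
      apply hXI
      apply image_injective hinj
      rw [h]
      exact himg

end Pool.Agent.Lib.MPded8ec.FI
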