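import Pool.Agent.Lib.MP_ded8ec_lc.FI.Spec
import Mathlib.Combinatorics.Hall.Basic

/-!
# Internally 4-connected Seymour graphs: module HLE (helper77)
-/

set_option autoImplicit false

namespace Pool.Agent.Lib.MPded8ec.FI

open Pool.Agent.Lib.MPded8ec.SG Pool.Agent.Lib.MPded8ec.FC

universe u

/-- The neighbourhood of the whole family has at least `|F| + 1` elements. -/
theorem HLEM.all {V : Type u} {G : SimpleGraph V} {T : Finset V} {F : Finset (Finset V)}
    (hS : SurE G T F) : F.card + 1 ≤ (Nb G T F).card := by
  classical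
  have h2 := hS.two
  obtain ⟨K, hK⟩ : F.Nonempty := by
    rw [← Finset.card_pos]
    omega
  have hsub : F.erase K ⊆ F := Finset.erase_subset K F
  have hc : (F.erase K).card = F.card - 1 := Finset.card_erase_of_mem hK
  have hne : (F.erase K).Nonempty := by
    rw [← Finset.card_pos, hc]
    omega
  have hneF : F.erase K ≠ F := by
    intro h
    rw [h] at hc
    omega
  have h3 := hS.sur _ hsub hne hneF
  have h4 : Nb G T (F.erase K) ⊆ Nb G T F := by
    intro t ht
    unfold Nb at ht ⊢
    rw [Finset.mem_filter] at ht ⊢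
    obtain ⟨h5, L, hL, x, hx, hadj⟩ := ht
    exact ⟨h5, L, hsub hL, x, hx, hadj⟩
  have h5 := Finset.card_le_card h4
  rw [hc] at h3
  omega

theorem specHLE : SpecHLE.{u} := by
  intro V _ G T F hS X hX Z hZ
  classical
  have hne : Nonempty V := by
    have h1 := hS.eq
    have h2 : T.Nonempty := by
      rw [← Finset.card_pos]
      omega
    exact ⟨h2.choose⟩
  let N : {K : Finset V // K ∈ X} → Finset V := fun K =>
    T.filter (fun t => t ∉ Z ∧ ∃ x ∈ K.1, G.Adj x t)
  have hall : ∀ s : Finset {K : Finset V // K ∈ X}, s.card ≤ (s.biUnion N).card := by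
    intro s
    have hYc : (s.image Subtype.val).card = s.card :=
      Finset.card_image_of_injective s Subtype.val_injective
    have hYX : s.image Subtype.val ⊆ X := by
      intro K hK
      obtain ⟨K', -, rfl⟩ := Finset.mem_image.1 hK
      exact K'.2
    have hsub : Nb G T (s.image Subtype.val) \ Z ⊆ s.biUnion N := by
      intro t ht
      rw [Finset.mem_sdiff] at ht
      obtain ⟨ht1, ht2⟩ := ht
      unfold Nb at ht1
      rw [Finset.mem_filter] at ht1
      obtain ⟨h3, K, hK, x, hx, hadj⟩ := ht1
      obtain ⟨K', hK', rfl⟩ := Finset.mem_image.1 hK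
      exact Finset.mem_biUnion.2 ⟨K', hK', Finset.mem_filter.2 ⟨h3, ht2, x, hx, hadj⟩⟩
    have h1 := Finset.card_le_card hsub
    have h2 : (Nb G T (s.image Subtype.val)).card - Z.card ≤
        (Nb G T (s.image Subtype.val) \ Z).card := Finset.le_card_sdiff Z _
    rcases Finset.eq_empty_or_nonempty (s.image Subtype.val) with h0 | h0
    · rw [← hYc, h0]
      exact Nat.zero_le _
    · by_cases hF : s.image Subtype.val = F
      · have hXF : X = F := Finset.Subset.antisymm hX (hF ▸ hYX)
        have hZ2 : Z.card ≤ 1 := by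
          rcases hZ with h | h
          · exact h
          · exact absurd hXF h.2
        have h6 := HLEM.all hS
        rw [hF] at h1 h2 hYc
        omega
      · have h3 := hS.sur _ (hYX.trans hX) h0 hF
        have hZ3 : Z.card ≤ 2 := by
          rcases hZ with h | h
          · omega
          · exact h.1
        omega
  obtain ⟨f, hf, hfN⟩ := (Finset.all_card_le_biUnion_card_iff_exists_injective N).1 hall
  refine ⟨fun K => if h : K ∈ X then f ⟨K, h⟩ else Classical.arbitrary V, ?_, ?_⟩
  · intro K hK L hL h
    have hK' : K ∈ X := hK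
    have hL' : L ∈ X := hL
    simp only [hK', hL', dif_pos] at h
    have := hf h
    exact congrArg Subtype.val this
  · intro K hK
    simp only [hK, dif_pos]
    have h := hfN ⟨K, hK⟩
    rw [Finset.mem_filter] at h
    exact ⟨h.1, h.2.1, h.2.2⟩

end Pool.Agent.Lib.MPded8ec.FI
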