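import Pool.Agent.Lib.MP_ded8ec_lc.FI.Spec

/-!
# Internally 4-connected Seymour graphs (MP_ded8ec_lc), module LAS: without good triples
-/

set_option autoImplicit false

namespace Pool.Agent.Lib.MPded8ec.FI

open Pool.Agent.Lib.MPded8ec.SG Pool.Agent.Lib.MPded8ec.FC

universe u

open Finset

namespace LASM

variable {V : Type u} [Fintype V] [DecidableEq V] {G : SimpleGraph V}

/-- The number of the vertices. -/
theorem cardV {T : Finset V} {F : Finset (Finset V)} (h : Ln G T F) :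
    Fintype.card V = T.card + ∑ K ∈ F, K.card := by
  have h1 : (univ : Finset V) = T ∪ F.biUnion id := by
    ext x
    simp only [mem_univ, true_iff, mem_union, mem_biUnion, id]
    rcases h.cov x with hx | ⟨K, hK, hx⟩
    · exact Or.inl hx
    · exact Or.inr ⟨K, hK, hx⟩
  have h2 : Disjoint T (F.biUnion id) := by
    rw [disjoint_biUnion_right]
    exact fun K hK => (h.fam.dis K hK).symm
  rw [← card_univ, h1, card_union_of_disjoint h2, card_biUnion]
  · rfl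
  · exact fun K hK L hL hne => h.fam.pw K hK L hL hne

/-- A line with three points has two components, one of them is a single vertex. -/
theorem two (hI : IConn4 G) {T : Finset V} {F : Finset (Finset V)} (h : Ln G T F)
    (h3 : T.card = 3) (K : Finset V) (hK : K ∈ F) :
    ∃ K' ∈ F, K' ≠ K ∧ F = {K, K'} ∧ (K.card ≤ 1 ∨ K'.card ≤ 1) := by
  have hc : (F.erase K).card = 1 := by
    have h1 := card_erase_add_one hK
    have h2 := h.eq
    omega
  obtain ⟨K', hK'⟩ := card_eq_one.1 hc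
  have hK'F : K' ∈ F.erase K := by
    rw [hK']
    exact mem_singleton_self _
  have hne : K' ≠ K := ne_of_mem_erase hK'F
  have hK'm : K' ∈ F := mem_of_mem_erase hK'F
  have hF : F = {K, K'} := by
    rw [← insert_erase hK, hK']
  refine ⟨K', hK'm, hne, hF, ?_⟩
  refine hI.2 T K K' h3 (h.fam.dis K hK) (h.fam.dis K' hK'm) (h.fam.pw K hK K' hK'm hne.symm) ?_ ?_
  · intro x
    rcases h.cov x with hx | ⟨L, hL, hx⟩
    · exact Or.inr (Or.inr hx)
    · rw [hF, mem_insert, mem_singleton] at hL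
      rcases hL with rfl | rfl
      · exact Or.inl hx
      · exact Or.inr (Or.inl hx)
  · intro x hx y hy hadj
    rcases h.fam.nb K hK x hx y (mem_univ _) hadj with h1 | h1
    · exact disjoint_left.1 (h.fam.pw K hK K' hK'm hne.symm) h1 hy
    · exact disjoint_left.1 (h.fam.dis K' hK'm) hy h1

omit [Fintype V] in
/-- A line with at most three points through `p`, `q`: one more point. -/
theorem rest {T : Finset V} (h : T.card ≤ 3) {p q : V} (hp : p ∈ T) (hq : q ∈ T) (hpq : p ≠ q) :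
    (T \ {p, q}).card ≤ 1 := by
  have h1 : ({p, q} : Finset V) ⊆ T := by
    intro x hx
    rw [mem_insert, mem_singleton] at hx
    rcases hx with rfl | rfl
    · exact hp
    · exact hq
  have h2 := card_sdiff_add_card_eq_card h1
  rw [card_pair hpq] at h2
  omega

end LASM

/-- **LAS** -/
theorem specLAS (hCM3 : SpecCM3.{u}) (hLNE : SpecLNE.{u}) (hLNM : SpecLNM.{u})
    (hLST : SpecLST.{u}) (hLFI : SpecLFI.{u}) : SpecLAS.{u} := by
  intro V _ _ G hI hB hN hodd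
  classical
  by_contra hA
  -- a point not on the line is matched
  have hon : ∀ (T : Finset V) (F : Finset (Finset V)), Ln G T F → ∀ p ∈ T, ∀ q ∈ T, p ≠ q →
      ∀ y, ¬ Mt G (univ \ {y, p, q}) → y ∈ T := by
    intro T F hT p hp q hq hpq y hy
    by_contra hyT
    exact hy (hLNM.out V G hN T F hT y p q hyT hp hq hpq)
  -- (1)
  have h1 : ∀ x : V, ∃ u v, u ≠ x ∧ v ≠ x ∧ G.Adj u v ∧ ¬ Mt G (univ \ {x, u, v}) := by
    intro x
    by_contra hcon
    push Not at hcon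
    obtain ⟨d, hd⟩ := hB (univ \ {x})
    refine hA ⟨x, d, fun u v hu hv huv => ?_⟩
    refine hd u (by simp [hu]) v (by simp [hv]) huv ?_
    have h2 : (univ \ {x}) \ {u, v} = (univ \ {x, u, v} : Finset V) := by
      ext y
      simp only [mem_sdiff, mem_univ, true_and, mem_singleton, mem_insert, not_or]
    rw [h2]
    exact hcon u v hu hv huv
  have hline : ∀ x : V, ∃ (u v : V) (T : Finset V) (F : Finset (Finset V)), u ≠ x ∧ v ≠ x ∧
      G.Adj u v ∧ Ln G T F ∧ x ∈ T ∧ u ∈ T ∧ v ∈ T := by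
    intro x
    obtain ⟨u, v, hu, hv, huv, hM⟩ := h1 x
    obtain ⟨T, F, hT, huT, hvT⟩ := hLNM.ex V G hN hodd u v huv.ne
    exact ⟨u, v, T, F, hu, hv, huv, hT, hon T F hT u huT v hvT huv.ne x hM, huT, hvT⟩
  have hthree : ∀ (T : Finset V) (x u v : V), x ∈ T → u ∈ T → v ∈ T → u ≠ x → v ≠ x → u ≠ v →
      3 ≤ T.card := by
    intro T x u v hx hu hv h1 h2 h3
    have h4 : ({x, u, v} : Finset V) ⊆ T := by
      intro y hy
      rw [mem_insert, mem_insert, mem_singleton] at hy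
      rcases hy with rfl | rfl | rfl
      · exact hx
      · exact hu
      · exact hv
    have h5 := card_le_card h4
    rwa [card_eq_three.2 ⟨x, u, v, h1.symm, h2.symm, h3, rfl⟩] at h5
  -- (2)
  have hbig : ∀ (T : Finset V) (F : Finset (Finset V)), Ln G T F → 3 ≤ T.card →
      ∃ M ∈ F, 3 ≤ M.card := by
    intro T F hT h3
    by_contra hcon
    push Not at hcon
    refine hA (hLST V G hN hB T F hT h3 fun K hK => ?_)
    have h4 := hcon K hK
    obtain ⟨k, hk⟩ := hT.fam.odd K hK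
    omega
  -- (3)
  obtain ⟨x₀⟩ : Nonempty V := Fintype.card_pos_iff.1 (by have := hI.1.1; omega)
  obtain ⟨u₀, v₀, T₀, F₀, hu₀, hv₀, huv₀, hT₀, hx₀T, hu₀T, hv₀T⟩ := hline x₀
  have hex : ∃ n : ℕ, ∃ (T : Finset V) (F : Finset (Finset V)) (M : Finset V),
      Fam G univ T F ∧ T.card = F.card + 1 ∧ 3 ≤ T.card ∧ M ∈ F ∧ 3 ≤ M.card ∧
        (∀ x ∈ M, Mt G (M \ {x})) ∧ M.card = n := by
    have h3 := hthree T₀ x₀ u₀ v₀ hx₀T hu₀T hv₀T hu₀ hv₀ huv₀.ne
    obtain ⟨M, hM, hM3⟩ := hbig T₀ F₀ hT₀ h3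
    exact ⟨M.card, T₀, F₀, M, hT₀.fam, hT₀.eq, h3, hM, hM3, hT₀.fc M hM, rfl⟩
  obtain ⟨T, F, K, hfam, hcard, h3T, hKF, hK3, hKfc, hKn⟩ := Nat.find_spec hex
  have hmin : MinK G K := by
    refine ⟨hK3, hKfc, fun T' F' hfam' hcard' h3' M hM hM3 hMfc => ?_⟩
    rw [hKn]
    exact Nat.find_min' hex ⟨T', F', M, hfam', hcard', h3', hM, hM3, hMfc, rfl⟩
  obtain ⟨T₁, F₁, hT₁, hTT₁, hKF₁⟩ := hLNE V G hN T F {K} hfam hcard (by omega)
    (by rw [singleton_subset_iff]; exact hKF)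
    (by
      intro L hL
      rw [mem_singleton] at hL
      rw [hL]
      exact hKfc)
  rw [singleton_subset_iff] at hKF₁
  have hT₁3 : T₁.card = 3 := hLFI V G hN hB hodd T₁ F₁ hT₁ (h3T.trans (card_le_card hTT₁)) K hKF₁ hmin
  obtain ⟨K', hK'F, hK'ne, hF₁, hsm⟩ := LASM.two hI hT₁ hT₁3 K hKF₁
  have hV : Fintype.card V = K.card + 4 := by
    have h4 := LASM.cardV hT₁
    rw [hF₁, sum_pair hK'ne.symm, hT₁3] at h4
    obtain ⟨k, hk⟩ := hT₁.fam.odd K' hK'F
    omega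
  -- (4)
  have hle : ∀ (T : Finset V) (F : Finset (Finset V)), Ln G T F → T.card ≤ 3 := by
    intro T F hT
    by_contra hcon
    obtain ⟨M, hM, hM3⟩ := hbig T F hT (by omega)
    have h4 := hmin.min T F hT.fam hT.eq (by omega) M hM hM3 (hT.fc M hM)
    have h5 := LASM.cardV hT
    rw [← add_sum_erase F (fun L : Finset V => L.card) hM] at h5
    have h6 : (F.erase M).card ≤ ∑ L ∈ F.erase M, L.card := by
      rw [card_eq_sum_ones]
      refine sum_le_sum fun L hL => ?_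
      obtain ⟨k, hk⟩ := hT.fam.odd L (mem_of_mem_erase hL)
      omega
    have h7 := card_erase_add_one hM
    have h8 := hT.eq
    have h9 : Fintype.card V = T.card + (M.card + ∑ L ∈ F.erase M, L.card) := h5
    omega
  -- (5)
  have hT₀3 : T₀.card = 3 :=
    le_antisymm (hle T₀ F₀ hT₀) (hthree T₀ x₀ u₀ v₀ hx₀T hu₀T hv₀T hu₀ hv₀ huv₀.ne)
  have hsing : ∃ L ∈ F₀, L.card = 1 := by
    have h4 : F₀.Nonempty := card_pos.1 (by have := hT₀.eq; omega)
    obtain ⟨A, hAF⟩ := h4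
    obtain ⟨B, hBF, -, -, h5⟩ := LASM.two hI hT₀ hT₀3 A hAF
    rcases h5 with h5 | h5
    · refine ⟨A, hAF, ?_⟩
      obtain ⟨k, hk⟩ := hT₀.fam.odd A hAF
      omega
    · refine ⟨B, hBF, ?_⟩
      obtain ⟨k, hk⟩ := hT₀.fam.odd B hBF
      omega
  obtain ⟨L, hLF, hL1⟩ := hsing
  obtain ⟨l, rfl⟩ := card_eq_one.1 hL1
  have hlT : ∀ y, G.Adj l y → y ∈ T₀ := by
    intro y hy
    rcases hT₀.fam.nb {l} hLF l (mem_singleton_self l) y (mem_univ _) hy with h4 | h4
    · rw [mem_singleton] at h4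
      exact absurd h4.symm hy.ne
    · exact h4
  have hladj : ∀ t ∈ T₀, G.Adj l t := by
    have h4 := hCM3.deg V G hI.1 l (T₀.filter fun t => G.Adj l t)
      (fun y hy => mem_filter.2 ⟨hlT y hy, hy⟩)
    have h5 : T₀.filter (fun t => G.Adj l t) = T₀ :=
      eq_of_subset_of_card_le (filter_subset _ _) (by omega)
    intro t ht
    rw [← h5] at ht
    exact (mem_filter.1 ht).2
  have hlu : G.Adj l u₀ := hladj u₀ hu₀T
  have hlv : G.Adj l v₀ := hladj v₀ hv₀T
  -- (6)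
  obtain ⟨T₂, F₂, hT₂, hl2, hu2⟩ := hLNM.ex V G hN hodd l u₀ hlu.ne
  obtain ⟨T₃, F₃, hT₃, hl3, hv3⟩ := hLNM.ex V G hN hodd l v₀ hlv.ne
  obtain ⟨T₄, F₄, hT₄, hu4, hv4⟩ := hLNM.ex V G hN hodd u₀ v₀ huv₀.ne
  have hcov : (univ : Finset V) ⊆
      {l, u₀, v₀} ∪ (T₂ \ {l, u₀}) ∪ (T₃ \ {l, v₀}) ∪ (T₄ \ {u₀, v₀}) := by
    intro y _
    by_cases hyl : y = l
    · simp [hyl]
    by_cases hyu : y = u₀
    · simp [hyu]
    by_cases hyv : y = v₀
    · simp [hyv]
    obtain ⟨d, hd⟩ := hB (univ \ {y})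
    have hpq : ∀ p q : V, p ≠ y → q ≠ y → G.Adj p q → d p = d q → ¬ Mt G (univ \ {y, p, q}) := by
      intro p q hp hq hadj hdpq hM
      refine hd p (by simp [hp]) q (by simp [hq]) hadj ?_ hdpq
      have h2 : (univ \ {y}) \ {p, q} = (univ \ {y, p, q} : Finset V) := by
        ext z
        simp only [mem_sdiff, mem_univ, true_and, mem_singleton, mem_insert, not_or]
      rw [h2]
      exact hM
    have hyl' : l ≠ y := fun h => hyl h.symm
    have hyu' : u₀ ≠ y := fun h => hyu h.symm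
    have hyv' : v₀ ≠ y := fun h => hyv h.symm
    by_cases h4 : d l = d u₀
    · have h5 := hon T₂ F₂ hT₂ l hl2 u₀ hu2 hlu.ne y (hpq l u₀ hyl' hyu' hlu h4)
      simp [h5, hyl, hyu]
    by_cases h5 : d l = d v₀
    · have h6 := hon T₃ F₃ hT₃ l hl3 v₀ hv3 hlv.ne y (hpq l v₀ hyl' hyv' hlv h5)
      simp [h6, hyl, hyv]
    have h6 : d u₀ = d v₀ := by
      revert h4 h5
      cases d l <;> cases d u₀ <;> cases d v₀ <;> simp
    have h7 := hon T₄ F₄ hT₄ u₀ hu4 v₀ hv4 huv₀.ne y (hpq u₀ v₀ hyu' hyv' huv₀ h6)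
    simp [h7, hyu, hyv]
  have h4 := card_le_card hcov
  have h5 := LASM.rest (hle T₂ F₂ hT₂) hl2 hu2 hlu.ne
  have h6 := LASM.rest (hle T₃ F₃ hT₃) hl3 hv3 hlv.ne
  have h7 := LASM.rest (hle T₄ F₄ hT₄) hu4 hv4 huv₀.ne
  have h8 : ({l, u₀, v₀} : Finset V).card ≤ 3 := card_le_three
  have h9 := card_union_le ({l, u₀, v₀} ∪ (T₂ \ {l, u₀}) ∪ (T₃ \ {l, v₀})) (T₄ \ {u₀, v₀})
  have h10 := card_union_le ({l, u₀, v₀} ∪ (T₂ \ {l, u₀})) (T₃ \ {l, v₀})
  have h11 := card_union_le ({l, u₀, v₀} : Finset V) (T₂ \ {l, u₀})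
  rw [card_univ] at h4
  omega

end Pool.Agent.Lib.MPded8ec.FI
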