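import Pool.Agent.Lib.MP_ded8ec_lc.FI.Spec
import Pool.Agent.Lib.MP_ded8ec_lc.FC.MTC
import Pool.Agent.Lib.MP_ded8ec_lc.FC.TUT
import Pool.Agent.Lib.MP_ded8ec_lc.FC.BER
import Pool.Agent.Lib.MP_ded8ec_lc.FC.SNB

/-!
# MP_ded8ec_lc, FI, module LBA (helper92): the barrier of a component of a line
-/

set_option autoImplicit false

namespace Pool.Agent.Lib.MPded8ec.FI

open Pool.Agent.Lib.MPded8ec.SG Pool.Agent.Lib.MPded8ec.FC

universe u

namespace LBAM

/-- the union of three matchings is the complement of `{t, u, v}` -/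
theorem glue {V : Type u} [Fintype V] [DecidableEq V] {G : SimpleGraph V} {T : Finset V}
    {F : Finset (Finset V)} (hL : Ln G T F) {K : Finset V} (hK : K ∈ F) {t u v x s : V}
    (ht : t ∈ T) (hu : u ∈ K) (hv : v ∈ K) (hx : x ∈ K) (hxu : x ≠ u) (hxv : x ≠ v) (hs : s ∈ T)
    (hst : s ≠ t) (hxs : G.Adj x s) (hm : Mt G (K \ {x, u, v}))
    (hm2 : Mt G ((T \ {s, t}) ∪ (F.erase K).biUnion id)) : Mt G (Finset.univ \ {t, u, v}) := by
  have hKT : ∀ w ∈ K, w ∉ T := fun w hw => (Finset.disjoint_left.1 (hL.fam.dis K hK)) hw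
  have hFT : ∀ L ∈ F, ∀ w ∈ L, w ∉ T := fun L hL' w hw =>
    (Finset.disjoint_left.1 (hL.fam.dis L hL')) hw
  have hKL : ∀ L ∈ F, L ≠ K → ∀ w ∈ L, w ∉ K := fun L hL' hne w hw =>
    (Finset.disjoint_left.1 (hL.fam.pw L hL' K hK hne)) hw
  have e1 : Mt G (K \ {x, u, v} ∪ ((T \ {s, t}) ∪ (F.erase K).biUnion id)) := by
    refine (specMTC.{u}).uni V G _ _ ?_ hm hm2
    rw [Finset.disjoint_left]
    intro w hw hw2
    have hwK := (Finset.mem_sdiff.1 hw).1
    rw [Finset.mem_union] at hw2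
    rcases hw2 with hw2 | hw2
    · exact hKT w hwK (Finset.mem_sdiff.1 hw2).1
    · obtain ⟨L, hL', hwL⟩ := Finset.mem_biUnion.1 hw2
      rw [Finset.mem_erase] at hL'
      exact hKL L hL'.2 hL'.1 w hwL hwK
  have e2 : Mt G ({x, s} ∪ (K \ {x, u, v} ∪ ((T \ {s, t}) ∪ (F.erase K).biUnion id))) := by
    refine (specMTC.{u}).uni V G _ _ ?_ ((specMTC.{u}).pair V G x s hxs) e1
    rw [Finset.disjoint_left]
    intro w hw hw2
    rw [Finset.mem_insert, Finset.mem_singleton] at hw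
    rw [Finset.mem_union, Finset.mem_union] at hw2
    simp only [Finset.mem_sdiff, Finset.mem_insert, Finset.mem_singleton, not_or,
      Finset.mem_biUnion, Finset.mem_erase, id] at hw2
    rcases hw with rfl | rfl
    · rcases hw2 with hw2 | hw2 | ⟨L, hL', hwL⟩
      · exact hw2.2.1 rfl
      · exact hKT w hx hw2.1
      · exact hKL L hL'.2 hL'.1 w hwL hx
    · rcases hw2 with hw2 | hw2 | ⟨L, hL', hwL⟩
      · exact hKT w hw2.1 hs
      · exact hw2.2.1 rfl
      · exact hFT L hL'.2 w hwL hs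
  have e3 : ({x, s} ∪ (K \ {x, u, v} ∪ ((T \ {s, t}) ∪ (F.erase K).biUnion id)) : Finset V) =
      Finset.univ \ {t, u, v} := by
    ext w
    simp only [Finset.mem_union, Finset.mem_sdiff, Finset.mem_insert, Finset.mem_singleton, not_or,
      Finset.mem_biUnion, Finset.mem_erase, id, Finset.mem_univ, true_and]
    constructor
    · rintro ((rfl | rfl) | ⟨hwK, -, h2, h3⟩ | ⟨hwT, -, h2⟩ | ⟨L, hL', hwL⟩)
      · exact ⟨fun h => hKT w hx (h ▸ ht), hxu, hxv⟩
      · exact ⟨hst, fun h => hKT u hu (h ▸ hs), fun h => hKT v hv (h ▸ hs)⟩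
      · exact ⟨fun h => hKT w hwK (h ▸ ht), h2, h3⟩
      · exact ⟨h2, fun h => hKT u hu (h ▸ hwT), fun h => hKT v hv (h ▸ hwT)⟩
      · exact ⟨fun h => hFT L hL'.2 w hwL (h ▸ ht), fun h => hKL L hL'.2 hL'.1 w hwL (h ▸ hu),
          fun h => hKL L hL'.2 hL'.1 w hwL (h ▸ hv)⟩
    · rintro ⟨h1, h2, h3⟩
      by_cases hws : w = s
      · exact Or.inl (Or.inr hws)
      by_cases hwx : w = x
      · exact Or.inl (Or.inl hwx)
      rcases hL.cov w with h | ⟨L, hL', hwL⟩
      · exact Or.inr (Or.inr (Or.inl ⟨h, hws, h1⟩))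
      · by_cases hLK : L = K
        · exact Or.inr (Or.inl ⟨hLK ▸ hwL, hwx, h2, h3⟩)
        · exact Or.inr (Or.inr (Or.inr ⟨L, ⟨hLK, hL'⟩, hwL⟩))
  rw [← e3]
  exact e2

end LBAM

open SNBM

/-- **LBA**. -/
theorem specLBA (hLNS : SpecLNS.{u}) (hEXE : SpecEXE.{u}) : SpecLBA.{u} := by
  intro V _ _ G hG T F hL hT3 K hK t ht u v hu hv huv hno
  have hsur := hLNS V G hG T F hL hT3
  have hexe := (hEXE V G T F hsur hL.fam hL.fc).2
  have hne : u ≠ v := huv.ne
  have htK : t ∉ K := fun h => (Finset.disjoint_left.1 (hL.fam.dis K hK)) h ht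
  obtain ⟨R, hR⟩ : ∃ R : V → Prop, R = fun x => x ∈ K ∧ ∃ s ∈ T, s ≠ t ∧ G.Adj x s := ⟨_, rfl⟩
  have hRx : ∀ x, R x ↔ (x ∈ K ∧ ∃ s ∈ T, s ≠ t ∧ G.Adj x s) := fun x => by rw [hR]
  have hRt : ¬ R t := fun h => htK ((hRx t).1 h).1
  obtain ⟨W, hWd⟩ : ∃ W : Finset V, W = (insert t K) \ {u, v} := ⟨_, rfl⟩
  have hW : ∀ w, w ∈ W ↔ (w = t ∨ w ∈ K) ∧ w ≠ u ∧ w ≠ v := by
    intro w
    simp only [hWd, Finset.mem_sdiff, Finset.mem_insert, Finset.mem_singleton, not_or]
  have hut : u ≠ t := fun h => htK (h ▸ hu)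
  have hvt : v ≠ t := fun h => htK (h ▸ hv)
  have htW : t ∈ W := (hW t).2 ⟨Or.inl rfl, hut.symm, hvt.symm⟩
  have hWc : Even W.card := by
    have h1 : ({u, v} : Finset V) ⊆ insert t K := by
      intro w
      simp only [Finset.mem_insert, Finset.mem_singleton]
      rintro (rfl | rfl)
      · exact Or.inr hu
      · exact Or.inr hv
    have h2 := Finset.card_sdiff_add_card_eq_card h1
    rw [← hWd, Finset.card_pair hne, Finset.card_insert_of_notMem htK] at h2
    obtain ⟨k, hk⟩ := hL.fam.odd K hK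
    exact ⟨k, by omega⟩
  by_cases hm : Mt (Gx G R t hRt) W
  · exfalso
    apply hno
    obtain ⟨m, hm⟩ := hm
    obtain ⟨a1, a2, a3⟩ := hm t htW
    obtain ⟨a4, s, hs, hst, hxs⟩ := (hRx _).1 (adj4 a3)
    refine LBAM.glue hL hK ht hu hv a4 ((hW _).1 a1).2.1 ((hW _).1 a1).2.2 hs hst hxs ⟨m, ?_⟩
      (hexe K hK s hs t ht hst)
    intro y hy
    simp only [Finset.mem_sdiff, Finset.mem_insert, Finset.mem_singleton, not_or] at hy
    obtain ⟨hyK, hyx, hyu, hyv⟩ := hy
    have hyt : y ≠ t := fun h => htK (h ▸ hyK)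
    obtain ⟨b1, b2, b3⟩ := hm y ((hW _).2 ⟨Or.inr hyK, hyu, hyv⟩)
    have c1 : m y ≠ t := by
      intro h
      apply hyx
      rw [← h, b2]
    have c2 : m y ≠ m t := by
      intro h
      apply hyt
      rw [← b2, h, a2]
    have c3 := (hW _).1 b1
    refine ⟨?_, b2, adj3 b3 hyt c1⟩
    simp only [Finset.mem_sdiff, Finset.mem_insert, Finset.mem_singleton, not_or]
    exact ⟨c3.1.resolve_left c1, c2, c3.2.1, c3.2.2⟩
  obtain ⟨S, F₁, hS, hF, hc⟩ := specTUT.{u} V (Gx G R t hRt) W hWc hm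
  have hLW : ∀ L ∈ F₁, ∀ w ∈ L, (w = t ∨ w ∈ K) ∧ w ≠ u ∧ w ≠ v := fun L hL w hw =>
    (hW w).1 (hF.sub L hL hw)
  have hLS : ∀ L ∈ F₁, ∀ w ∈ L, w ∉ S := fun L hL w hw => (Finset.disjoint_left.1 (hF.dis L hL)) hw
  have hSW : ∀ w ∈ S, (w = t ∨ w ∈ K) ∧ w ≠ u ∧ w ≠ v := fun w hw => (hW w).1 (hS hw)
  by_cases hts : t ∈ S
  · exfalso
    have hLt : ∀ L ∈ F₁, ∀ w ∈ L, w ≠ t := fun L hL w hw h => hLS L hL w hw (h ▸ hts)
    have fB : Fam G (K \ {u}) (insert v (S.erase t)) F₁ := by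
      refine ⟨?_, hF.odd, ?_, hF.pw, ?_⟩
      · intro L hL w hw
        rw [Finset.mem_sdiff, Finset.mem_singleton]
        exact ⟨(hLW L hL w hw).1.resolve_left (hLt L hL w hw), (hLW L hL w hw).2.1⟩
      · intro L hL
        rw [Finset.disjoint_left]
        intro w hw
        rw [Finset.mem_insert, Finset.mem_erase]
        rintro (h | h)
        · exact (hLW L hL w hw).2.2 h
        · exact hLS L hL w hw h.2
      · intro L hL x hx y hy hxy
        rw [Finset.mem_sdiff, Finset.mem_singleton] at hy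
        rw [Finset.mem_insert, Finset.mem_erase]
        have hyt : y ≠ t := fun h => htK (h ▸ hy.1)
        by_cases hyv : y = v
        · exact Or.inr (Or.inl hyv)
        · rcases hF.nb L hL x hx y ((hW y).2 ⟨Or.inr hy.1, hy.2, hyv⟩)
            (adj1 hxy (hLt L hL x hx) hyt) with h | h
          · exact Or.inl h
          · exact Or.inr (Or.inr ⟨hyt, h⟩)
    have h1 := specBER (specMTC.{u}) V G (K \ {u}) (insert v (S.erase t)) F₁ fB (hL.fc K hK u hu)
    have h2 := Finset.card_insert_le v (S.erase t)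
    have h3 := Finset.card_erase_of_mem hts
    have h4 : 0 < S.card := Finset.card_pos.2 ⟨t, hts⟩
    omega
  · have h1 := fcard hF t
    have hL2 : ∀ L ∈ F₁.filter (fun L => t ∉ L), L ∈ F₁ ∧ t ∉ L := fun L hL => Finset.mem_filter.1 hL
    have hLK : ∀ L ∈ F₁.filter (fun L => t ∉ L), ∀ w ∈ L, w ∈ K := by
      intro L hL w hw
      refine ((hLW L (hL2 L hL).1 w hw).1).resolve_left ?_
      intro h
      exact (hL2 L hL).2 (h ▸ hw)
    have hnon : (F₁.filter fun L => t ∉ L).Nonempty := by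
      rw [← Finset.card_pos]
      omega
    refine ⟨insert u (insert v S), F₁.filter fun L => t ∉ L, Finset.mem_insert_self _ _,
      Finset.mem_insert_of_mem (Finset.mem_insert_self _ _), ?_, fun L hL w hw => hLK L hL w hw, ?_, ?_,
      hnon⟩
    · intro w hw
      rw [Finset.mem_insert, Finset.mem_insert] at hw
      rcases hw with rfl | rfl | hw
      · exact hu
      · exact hv
      · rcases (hSW w hw).1 with h | h
        · exact absurd (h ▸ hw) hts
        · exact h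
    · refine ⟨fun _ _ => Finset.subset_univ _, fun L hL => hF.odd L (hL2 L hL).1, ?_,
        fun A hA B hB => hF.pw A (hL2 A hA).1 B (hL2 B hB).1, ?_⟩
      · intro L hL
        rw [Finset.disjoint_left]
        intro w hw
        simp only [Finset.mem_insert, not_or]
        exact ⟨fun h => (hL2 L hL).2 (h ▸ hw), (hLW L (hL2 L hL).1 w hw).2.1,
          (hLW L (hL2 L hL).1 w hw).2.2, hLS L (hL2 L hL).1 w hw⟩
      · intro L hLm x hx y _ hxy
        simp only [Finset.mem_insert]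
        have hxK := hLK L hLm x hx
        have hxt : x ≠ t := fun h => htK (h ▸ hxK)
        rcases hL.fam.nb K hK x hxK y (Finset.mem_univ _) hxy with h | h
        · have hyt : y ≠ t := fun h' => htK (h' ▸ h)
          by_cases h5 : y = u
          · exact Or.inr (Or.inr (Or.inl h5))
          by_cases h6 : y = v
          · exact Or.inr (Or.inr (Or.inr (Or.inl h6)))
          rcases hF.nb L (hL2 L hLm).1 x hx y ((hW y).2 ⟨Or.inr h, h5, h6⟩) (adj1 hxy hxt hyt) with h7 | h7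
          · exact Or.inl h7
          · exact Or.inr (Or.inr (Or.inr (Or.inr h7)))
        · by_cases hyt : y = t
          · exact Or.inr (Or.inl hyt)
          · exfalso
            have hx' : R x := (hRx x).2 ⟨hxK, y, h, hyt, hxy⟩
            rcases hF.nb L (hL2 L hLm).1 x hx t htW (adj2 hx') with h7 | h7
            · exact (hL2 L hLm).2 h7
            · exact hts h7
    · have e1 := Finset.card_insert_le u (insert v S)
      have e2 := Finset.card_insert_le v S
      omega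

end Pool.Agent.Lib.MPded8ec.FI
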