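import Pool.Agent.Lib.MP_ded8ec_lc.FI.Spec
import Pool.Agent.Lib.MP_ded8ec_lc.FC.FCR
import Pool.Agent.Lib.MP_ded8ec_lc.FC.TUT

/-!
# Internally 4-connected Seymour graphs (MP_ded8ec_lc), module LBB: the barrier with single vertices
-/

set_option autoImplicit false

namespace Pool.Agent.Lib.MPded8ec.FI

open Pool.Agent.Lib.MPded8ec.SG Pool.Agent.Lib.MPded8ec.FC

universe u

namespace LBBM

open Finset

/-- the property of LBA -/
structure PB {V : Type u} [Fintype V] [DecidableEq V] (G : SimpleGraph V) (K : Finset V)
    (t u v : V) (B : Finset V) (D : Finset (Finset V)) : Prop where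
  hu : u ∈ B
  hv : v ∈ B
  bK : B ⊆ K
  mK : ∀ M ∈ D, M ⊆ K
  fam : Fam G univ (insert t B) D
  le : B.card ≤ D.card + 1
  ne : D.Nonempty

lemma exists_max {V : Type u} [Fintype V] [DecidableEq V] {G : SimpleGraph V} {K : Finset V}
    {t u v : V} (h : ∃ (B : Finset V) (D : Finset (Finset V)), PB G K t u v B D) :
    ∃ (B : Finset V) (D : Finset (Finset V)), PB G K t u v B D ∧
      ∀ (B' : Finset V) (D' : Finset (Finset V)), PB G K t u v B' D' → B'.card ≤ B.card := by
  classical
  obtain ⟨B₀, D₀, h₀⟩ := h
  obtain ⟨p, hp, hmax⟩ := exists_max_image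
    ((univ : Finset (Finset V × Finset (Finset V))).filter fun p => PB G K t u v p.1 p.2)
    (fun p => p.1.card) ⟨(B₀, D₀), by simpa using h₀⟩
  refine ⟨p.1, p.2, by simpa using hp, ?_⟩
  intro B' D' h'
  exact hmax (B', D') (by simpa using h')

/-- A sum of odd numbers. -/
lemma sum_odd {V : Type u} [DecidableEq V] (F : Finset (Finset V)) (h : ∀ K ∈ F, Odd K.card) :
    Even (F.card + ∑ K ∈ F, K.card) := by
  induction F using Finset.induction_on with
  | empty => simp
  | insert K F hK ih =>
    rw [card_insert_of_notMem hK, sum_insert hK]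
    have h1 := ih fun L hL => h L (mem_insert_of_mem hL)
    have h2 := h K (mem_insert_self _ _)
    have e : F.card + 1 + (K.card + ∑ L ∈ F, L.card) =
      (F.card + ∑ L ∈ F, L.card) + (K.card + 1) := by ring
    rw [e]
    exact h1.add h2.add_one

lemma card_bi {V : Type u} [DecidableEq V] {G : SimpleGraph V} {U T : Finset V}
    {F : Finset (Finset V)} (hF : Fam G U T F) : (F.biUnion id).card = ∑ K ∈ F, K.card := by
  rw [card_biUnion]
  · rfl
  · intro L hL M hM hLM
    exact hF.pw L hL M hM hLM

lemma dis_bi {V : Type u} [DecidableEq V] {G : SimpleGraph V} {U T : Finset V}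
    {F : Finset (Finset V)} (hF : Fam G U T F) : Disjoint T (F.biUnion id) := by
  rw [disjoint_right]
  intro x hx hxT
  obtain ⟨K, hK, hxK⟩ := mem_biUnion.1 hx
  exact (disjoint_left.1 (hF.dis K hK)) hxK hxT

end LBBM

open Finset LBBM in
/-- **LBB** -/
theorem specLBB (hNGA : SpecNGA.{u}) (hLBA : SpecLBA.{u}) : SpecLBB.{u} := by
  intro V _ _ G hG T F hL h3 K hK hMin t ht u v hu hv huv hM
  classical
  have hKT : Disjoint K T := hL.fam.dis K hK
  have htK : t ∉ K := fun h => (disjoint_left.1 hKT) h ht
  have huv' : u ≠ v := huv.ne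
  obtain ⟨B, D, hP, hmax⟩ := exists_max (G := G) (K := K) (t := t) (u := u) (v := v) (by
    obtain ⟨B, D, h1, h2, h3, h4, h5, h6, h7⟩ := hLBA V G hG T F hL h3 K hK t ht u v hu hv huv hM
    exact ⟨B, D, ⟨h1, h2, h3, h4, h5, h6, h7⟩⟩)
  have htB : t ∉ B := fun h => htK (hP.bK h)
  have hcT : (insert t B).card = B.card + 1 := card_insert_of_notMem htB
  -- a second point of `T`
  obtain ⟨s, hs, hst⟩ : ∃ s ∈ T, s ≠ t := by
    obtain ⟨s, hs, hst⟩ := exists_mem_ne (show 1 < T.card by omega) t
    exact ⟨s, hs, hst⟩
  have hsK : s ∉ K := fun h => (disjoint_left.1 hKT) h hs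
  have hsB : s ∉ insert t B := by
    rw [mem_insert]
    rintro (h | h)
    · exact hst h
    · exact hsK (hP.bK h)
  -- (1)
  have hcD : D.card + 1 = B.card := by
    by_contra hne
    have hlt : B.card ≤ D.card := by
      have := hP.le
      omega
    rcases hNGA.cov V G hG (insert t B) D hP.fam hP.ne (by omega) s with h | ⟨M, hMD, hsM⟩
    · exact hsB h
    · exact hsK (hP.mK M hMD hsM)
  -- (2)
  have hfc : ∀ M ∈ D, ∀ x ∈ M, Mt G (M \ {x}) := by
    intro M hMD x hx
    by_contra hMx
    have hcx : (M \ {x}).card + 1 = M.card := by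
      rw [sdiff_singleton_eq_erase]
      exact card_erase_add_one hx
    have hev : Even (M \ {x}).card := by
      have h1 := hP.fam.odd M hMD
      rw [← hcx] at h1
      rcases Nat.even_or_odd (M \ {x}).card with h | h
      · exact h
      · exact absurd h.add_one (Nat.not_even_iff_odd.2 h1)
    obtain ⟨S, F₁, hS, hF₁, hc⟩ := specTUT V G (M \ {x}) hev hMx
    have hfam := FCRM.fam hP.fam hMD hS hx hF₁
    have hSM : insert x S ⊆ M := by
      intro y hy
      rcases mem_insert.1 hy with rfl | hy
      · exact hx
      · exact (mem_sdiff.1 (hS hy)).1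
    have hLM : ∀ L ∈ F₁, L ⊆ M := fun L hL y hy => (mem_sdiff.1 (hF₁.sub L hL hy)).1
    have hxB : x ∉ B := fun h => (disjoint_left.1 (hP.fam.dis M hMD)) hx (mem_insert_of_mem h)
    have hdisF : Disjoint (D.erase M) F₁ := by
      rw [disjoint_left]
      intro L hL hL'
      have h1 : Disjoint L M := hP.fam.pw L (mem_of_mem_erase hL) M hMD (ne_of_mem_erase hL)
      have h2 : L = ∅ := by
        rw [← disjoint_self_iff_empty]
        exact h1.mono_right (hLM L hL')
      have h3 := hF₁.odd L hL'
      rw [h2] at h3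
      simp at h3
    have hcardF : (D.erase M ∪ F₁).card + 1 = D.card + F₁.card := by
      rw [card_union_of_disjoint hdisF]
      have := card_erase_add_one hMD
      omega
    have hcardB : (B ∪ insert x S).card ≤ B.card + (S.card + 1) :=
      (card_union_le _ _).trans (Nat.add_le_add_left (card_insert_le _ _) _)
    have hle := hP.le
    have hP' : PB G K t u v (B ∪ insert x S) (D.erase M ∪ F₁) := by
      refine ⟨mem_union_left _ hP.hu, mem_union_left _ hP.hv,
        union_subset hP.bK (hSM.trans (hP.mK M hMD)), ?_, ?_, by omega, ?_⟩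
      · intro L hL
        rcases mem_union.1 hL with hL | hL
        · exact hP.mK L (mem_of_mem_erase hL)
        · exact (hLM L hL).trans (hP.mK M hMD)
      · rw [← insert_union]
        exact hfam
      · have : F₁.Nonempty := by
          rw [← card_pos]
          omega
        exact this.mono subset_union_right
    have h1 := hmax _ _ hP'
    have h2 : B.card < (B ∪ insert x S).card := by
      refine card_lt_card ⟨subset_union_left, fun h => hxB (h ?_)⟩
      exact mem_union_right _ (mem_insert_self _ _)
    omega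
  -- (3) the family with the rest
  set R : Finset V := univ \ (insert t B ∪ D.biUnion id) with hR
  have hsR : s ∈ R := by
    rw [hR, mem_sdiff, mem_union, mem_biUnion]
    refine ⟨mem_univ _, ?_⟩
    rintro (h | ⟨M, hMD, h⟩)
    · exact hsB h
    · exact hsK (hP.mK M hMD h)
  have hRD : R ∉ D := fun h => hsK (hP.mK R h hsR)
  have hRB : Disjoint R (insert t B) := by
    rw [disjoint_left]
    intro x hx hx'
    rw [hR, mem_sdiff] at hx
    exact hx.2 (mem_union_left _ hx')
  have hRM : ∀ M ∈ D, Disjoint R M := by
    intro M hMD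
    rw [disjoint_left]
    intro x hx hx'
    rw [hR, mem_sdiff] at hx
    exact hx.2 (mem_union_right _ (mem_biUnion.2 ⟨M, hMD, hx'⟩))
  have hRodd : Odd R.card := by
    have e1 : (univ : Finset V) = T ∪ F.biUnion id := by
      ext x
      simp only [mem_univ, mem_union, mem_biUnion, id, true_iff]
      exact hL.cov x
    have c1 : (univ : Finset V).card = T.card + ∑ L ∈ F, L.card := by
      rw [e1, card_union_of_disjoint (dis_bi hL.fam), card_bi hL.fam]
    have c2 : (insert t B ∪ D.biUnion id).card = (insert t B).card + ∑ L ∈ D, L.card := by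
      rw [card_union_of_disjoint (dis_bi hP.fam), card_bi hP.fam]
    have c3 : R.card + (insert t B ∪ D.biUnion id).card = (univ : Finset V).card := by
      rw [hR]
      exact card_sdiff_add_card_eq_card (subset_univ _)
    obtain ⟨a, ha⟩ := sum_odd F hL.fam.odd
    obtain ⟨b, hb⟩ := sum_odd D hP.fam.odd
    have h4 := hL.eq
    rw [← Nat.not_even_iff_odd]
    rintro ⟨c, hc⟩
    omega
  have hfam' : Fam G univ (insert t B) (insert R D) := by
    refine ⟨fun L _ => subset_univ _, ?_, ?_, ?_, ?_⟩
    · intro L hL'
      rcases mem_insert.1 hL' with rfl | h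
      · exact hRodd
      · exact hP.fam.odd L h
    · intro L hL'
      rcases mem_insert.1 hL' with rfl | h
      · exact hRB
      · exact hP.fam.dis L h
    · intro L hL' M hM' hne
      rcases mem_insert.1 hL' with rfl | h
      · rcases mem_insert.1 hM' with rfl | h'
        · exact absurd rfl hne
        · exact hRM M h'
      · rcases mem_insert.1 hM' with rfl | h'
        · exact (hRM L h).symm
        · exact hP.fam.pw L h M h' hne
    · intro L hL' x hx y _ hxy
      rcases mem_insert.1 hL' with rfl | h
      · by_cases hyB : y ∈ insert t B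
        · exact Or.inr hyB
        left
        rw [hR, mem_sdiff, mem_union, mem_biUnion]
        refine ⟨mem_univ _, ?_⟩
        rintro (h | ⟨M, hMD, h⟩)
        · exact hyB h
        · rcases hP.fam.nb M hMD y h x (mem_univ _) hxy.symm with h' | h'
          · exact (disjoint_left.1 (hRM M hMD)) hx h'
          · exact (disjoint_left.1 hRB) hx h'
      · exact hP.fam.nb L h x hx y (mem_univ _) hxy
  have hcF' : (insert t B).card = (insert R D).card + 1 := by
    rw [card_insert_of_notMem hRD, hcT]
    omega
  -- (3') the sets are single vertices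
  have hB2 : 2 ≤ B.card := by
    have h1 : ({u, v} : Finset V) ⊆ B := by
      intro x hx
      rcases mem_insert.1 hx with rfl | hx
      · exact hP.hu
      · rw [mem_singleton.1 hx]
        exact hP.hv
    have h2 := card_le_card h1
    rwa [card_pair huv'] at h2
  have hone : ∀ M ∈ D, M.card = 1 := by
    intro M hMD
    by_contra hne
    have hodd := hP.fam.odd M hMD
    have h3' : 3 ≤ M.card := by
      obtain ⟨a, ha⟩ := hodd
      omega
    have h1 := hMin.min (insert t B) (insert R D) hfam' hcF' (by omega) M
      (mem_insert_of_mem hMD) h3' (hfc M hMD)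
    have h2 : M.card < K.card := by
      refine card_lt_card ⟨hP.mK M hMD, fun h => ?_⟩
      exact (disjoint_left.1 (hP.fam.dis M hMD)) (h hu) (mem_insert_of_mem hP.hu)
    omega
  refine ⟨B, D.biUnion id, ⟨hP.hu, hP.hv, hP.bK, ?_, ?_, ?_, ?_⟩, insert R D, hfam', hcF'⟩
  · intro x hx
    obtain ⟨M, hMD, h⟩ := mem_biUnion.1 hx
    exact hP.mK M hMD h
  · exact (dis_bi hP.fam).mono_left (subset_insert _ _)
  · rw [card_bi hP.fam, sum_congr rfl hone, sum_const, smul_eq_mul, mul_one]
    exact hcD
  · intro l hl y hly
    obtain ⟨M, hMD, h⟩ := mem_biUnion.1 hl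
    rcases hP.fam.nb M hMD l h y (mem_univ _) hly with h' | h'
    · obtain ⟨z, hz⟩ := card_eq_one.1 (hone M hMD)
      have h1 : l ∈ M := h
      rw [hz, mem_singleton] at h1 h'
      rw [h1, h'] at hly
      exact absurd hly (G.loopless.irrefl z)
    · rcases mem_insert.1 h' with h'' | h''
      · exact Or.inr h''
      · exact Or.inl h''

end Pool.Agent.Lib.MPded8ec.FI

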