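import Pool.Agent.Lib.MP_ded8ec_lc.FI.Spec

/-!
# Internally 4-connected Seymour graphs (MP_ded8ec_lc), module LCN: counting
-/

set_option autoImplicit false

namespace Pool.Agent.Lib.MPded8ec.FI

open Pool.Agent.Lib.MPded8ec.SG Pool.Agent.Lib.MPded8ec.FC

universe u

namespace LCNM

/-- The image of `D` under the perfect matching `m` of `K` without `w` is `B` without `w`. -/
theorem img {V : Type u} [DecidableEq V] (G : SimpleGraph V) (K : Finset V) (t u v w : V)
    (ht : t ∉ K) (B D : Finset V) (h : BD G K t u v B D) (hw : w ∈ B) (m : V → V)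
    (hm : ∀ x ∈ K \ {w}, m x ∈ K \ {w} ∧ m (m x) = x ∧ G.Adj x (m x)) :
    (∀ l ∈ D, m l ∈ B) ∧ Set.InjOn m D ∧ D.image m = B.erase w := by
  have hD : ∀ l ∈ D, l ∈ K \ {w} := by
    intro l hl
    rw [Finset.mem_sdiff, Finset.mem_singleton]
    refine ⟨h.dK hl, ?_⟩
    rintro rfl
    exact Finset.disjoint_left.1 h.dis hw hl
  have hB : ∀ l ∈ D, m l ∈ B := by
    intro l hl
    obtain ⟨h1, h2, h3⟩ := hm l (hD l hl)
    rcases h.nb l hl (m l) h3 with h4 | h4
    · exact h4
    · exfalso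
      rw [h4] at h1
      exact ht (Finset.mem_sdiff.1 h1).1
  have hI : Set.InjOn m D := by
    intro x hx y hy hxy
    have e1 := (hm x (hD x hx)).2.1
    have e2 := (hm y (hD y hy)).2.1
    rw [← e1, ← e2, hxy]
  refine ⟨hB, hI, ?_⟩
  apply Finset.eq_of_subset_of_card_le
  · intro y hy
    obtain ⟨l, hl, rfl⟩ := Finset.mem_image.1 hy
    rw [Finset.mem_erase]
    refine ⟨?_, hB l hl⟩
    have := (hm l (hD l hl)).1
    rw [Finset.mem_sdiff, Finset.mem_singleton] at this
    exact this.2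
  · rw [Finset.card_image_of_injOn hI, Finset.card_erase_of_mem hw]
    have := h.eq
    omega

/-- The count. -/
theorem cnt {V : Type u} [DecidableEq V] (D E : Finset V) (m : V → V) (hI : Set.InjOn m D)
    (hE : D.image m = E) (δ : V → Bool) (β : Bool) (hd : ∀ l ∈ D, δ (m l) ≠ δ l) :
    (E.filter fun x => δ x = β).card = (D.filter fun x => δ x ≠ β).card := by
  have e : (E.filter fun x => δ x = β) = (D.filter fun x => δ x ≠ β).image m := by
    ext y
    simp only [Finset.mem_filter, Finset.mem_image, ← hE]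
    constructor
    · rintro ⟨⟨l, hl, rfl⟩, h2⟩
      refine ⟨l, ⟨hl, ?_⟩, rfl⟩
      intro h3
      exact hd l hl (h2.trans h3.symm)
    · rintro ⟨l, ⟨hl, h2⟩, rfl⟩
      refine ⟨⟨l, hl, rfl⟩, ?_⟩
      have h3 := hd l hl
      revert h2 h3
      cases δ (m l) <;> cases δ l <;> cases β <;> simp
  rw [e, Finset.card_image_of_injOn]
  intro x hx y hy hxy
  exact hI (Finset.mem_of_mem_filter x hx) (Finset.mem_of_mem_filter y hy) hxy

end LCNM

/-- Counting. -/
theorem specLCN : SpecLCN.{u} := by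
  intro V _ G K t u v ht huv B D h m m' hm hm' δ hδ
  by_contra hcon
  push Not at hcon
  obtain ⟨c1, c2⟩ := hcon
  obtain ⟨a1, a2, a3⟩ := LCNM.img G K t u v v ht B D h h.hv m hm
  obtain ⟨b1, b2, b3⟩ := LCNM.img G K t u v u ht B D h h.hu m' hm'
  have e1 := LCNM.cnt D _ m a2 a3 δ (δ u) (fun l hl => c1 l hl (a1 l hl))
  have e2 := LCNM.cnt D _ m' b2 b3 δ (δ u) (fun l hl => c2 l hl (b1 l hl))
  have e3 : ((B.erase v).filter fun x => δ x = δ u) = B.filter fun x => δ x = δ u := by
    ext x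
    simp only [Finset.mem_filter, Finset.mem_erase]
    constructor
    · rintro ⟨⟨_, h2⟩, h3⟩
      exact ⟨h2, h3⟩
    · rintro ⟨h2, h3⟩
      refine ⟨⟨?_, h2⟩, h3⟩
      rintro rfl
      exact hδ h3.symm
  have e4 : ((B.erase u).filter fun x => δ x = δ u) = (B.filter fun x => δ x = δ u).erase u := by
    ext x
    simp only [Finset.mem_filter, Finset.mem_erase]
    tauto
  have hu : u ∈ B.filter fun x => δ x = δ u := Finset.mem_filter.2 ⟨h.hu, rfl⟩
  have e5 := Finset.card_erase_of_mem hu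
  have e6 : 0 < (B.filter fun x => δ x = δ u).card := Finset.card_pos.2 ⟨u, hu⟩
  rw [e3] at e1
  rw [e4] at e2
  omega

end Pool.Agent.Lib.MPded8ec.FI
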