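import Pool.Agent.Lib.MP_ded8ec_lc.FI.Spec
import Pool.Agent.Lib.MP_ded8ec_lc.FC.NBP

/-!
# MP_ded8ec_lc, internally 4-connected Seymour graphs: module LFI

A line with at least 3 points which has a minimal factor-critical component with at least 3 elements has
exactly 3 points.
-/

set_option autoImplicit false

namespace Pool.Agent.Lib.MPded8ec.FI

open Pool.Agent.Lib.MPded8ec.SG Pool.Agent.Lib.MPded8ec.FC

universe u

theorem specLFI (hLNM : SpecLNM.{u}) (hLBB : SpecLBB.{u}) (hLCN : SpecLCN.{u})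
    (hLSP : SpecLSP.{u}) : SpecLFI.{u} := by
  intro V _ _ G hNG hBAL hodd T F hL h3 K hK hM
  by_contra hne
  have h4 : 4 ≤ T.card := by omega
  have hdis : ∀ x ∈ K, x ∉ T := fun x hx hxT =>
    (Finset.disjoint_left.1 (hL.fam.dis K hK)) hx hxT
  -- the colouring for the removal of one vertex
  have hbal : ∀ s : V, ∃ δ : V → Bool, ∀ x y : V, x ≠ s → y ≠ s → G.Adj x y →
      Mt G (Finset.univ \ {s, x, y}) → δ x ≠ δ y := by
    intro s
    obtain ⟨δ, hδ⟩ := hBAL (Finset.univ \ {s})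
    refine ⟨δ, fun x y hx hy hxy hmt => hδ x (by simp [hx]) y (by simp [hy]) hxy ?_⟩
    have he : (Finset.univ \ {s}) \ {x, y} = (Finset.univ \ {s, x, y} : Finset V) := by
      ext z
      simp only [Finset.mem_sdiff, Finset.mem_univ, true_and, Finset.mem_insert,
        Finset.mem_singleton]
      tauto
    rw [he]
    exact hmt
  -- two points of the line see every pair from outside
  have key : ∀ p ∈ T, ∀ q ∈ T, p ≠ q → ∀ x ∈ K, ∀ y, x ≠ y →
      ¬ Mt G (Finset.univ \ {p, x, y}) → ¬ Mt G (Finset.univ \ {q, x, y}) → False := by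
    intro p hp q hq hpq x hx y hxy h1 h2
    obtain ⟨T₂, F₂, hL2, hx2, hy2⟩ := hLNM.ex V G hNG hodd x y hxy
    have hp2 : p ∈ T₂ := by
      by_contra hc
      exact h1 (hLNM.out V G hNG T₂ F₂ hL2 p x y hc hx2 hy2 hxy)
    have hq2 : q ∈ T₂ := by
      by_contra hc
      exact h2 (hLNM.out V G hNG T₂ F₂ hL2 q x y hc hx2 hy2 hxy)
    have hTT := hLNM.uni V G hNG T T₂ F F₂ hL hL2 p q hp hq hp2 hq2 hpq
    exact hdis x hx (hTT ▸ hx2)
  obtain ⟨t, ht⟩ : ∃ t, t ∈ T := Finset.card_pos.1 (by omega)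
  have htK : t ∉ K := fun h => hdis t h ht
  obtain ⟨d, hd⟩ := hbal t
  obtain ⟨u, hu, v, hv, hadj, hduv⟩ := specNBP V G K hM.thr hM.fc d
  have huv : u ≠ v := hadj.ne
  have hneK : ∀ s ∈ T, ∀ x ∈ K, x ≠ s := by
    intro s hs x hx he
    exact hdis x hx (he ▸ hs)
  have hn : ¬ Mt G (Finset.univ \ {t, u, v}) := fun hmt =>
    hd u v (hneK t ht u hu) (hneK t ht v hv) hadj hmt hduv
  obtain ⟨B, D, hBD, F', hF', hF'c⟩ :=
    hLBB V G hNG T F hL h3 K hK hM t ht u v hu hv hadj hn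
  obtain ⟨m, hm⟩ := hM.fc v hv
  obtain ⟨m', hm'⟩ := hM.fc u hu
  have hBD' : BD G K t v u B D :=
    ⟨hBD.hv, hBD.hu, hBD.bK, hBD.dK, hBD.dis, hBD.eq, hBD.nb⟩
  obtain ⟨T₁, F₁, hL1, hu1, hv1⟩ := hLNM.ex V G hNG hodd u v huv
  have hsub1 : insert t B ⊆ T₁ := hLNM.sub V G hNG T₁ F₁ hL1 (insert t B) F' hF' hF'c u v hu1 hv1
    (Finset.mem_insert_of_mem hBD.hu) (Finset.mem_insert_of_mem hBD.hv) huv
  have ht1 : t ∈ T₁ := hsub1 (Finset.mem_insert_self t B)
  have claim : ∀ s ∈ T, s ≠ t → ¬ Mt G (Finset.univ \ {s, u, m u}) ∨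
      ¬ Mt G (Finset.univ \ {s, v, m' v}) := by
    intro s hs hst
    obtain ⟨δ, hδ⟩ := hbal s
    have hs1 : s ∉ T₁ := by
      intro hc
      have hTT := hLNM.uni V G hNG T T₁ F F₁ hL hL1 s t hs ht hc ht1 hst
      exact hdis u hu (hTT ▸ hu1)
    have hmt := hLNM.out V G hNG T₁ F₁ hL1 s u v hs1 hu1 hv1 huv
    have hδuv := hδ u v (hneK s hs u hu) (hneK s hs v hv) hadj hmt
    rcases hLCN V G K t u v htK huv B D hBD m m' hm hm' δ hδuv with
      ⟨l, hl, hmB, hmδ⟩ | ⟨l, hl, hmB, hmδ⟩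
    · left
      have hlK : l ∈ K := hBD.dK hl
      have hlv : l ≠ v := fun he =>
        (Finset.disjoint_left.1 hBD.dis) hBD.hv (he ▸ hl)
      have hl' : l ∈ K \ {v} := by simp [hlK, hlv]
      obtain ⟨h1, h2, h3'⟩ := hm l hl'
      have hmlK : m l ∈ K := (Finset.mem_sdiff.1 h1).1
      have hnl : ¬ Mt G (Finset.univ \ {s, m l, l}) := fun hmt' =>
        hδ (m l) l (hneK s hs _ hmlK) (hneK s hs l hlK) h3'.symm hmt' hmδ
      have hmlu := hLSP V G hNG hodd T F hL h3 K hK hM t s ht hs hst.symm u v hu hv hadj B D hBD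
        F' hF' hF'c m hm l hl hmB hnl
      have hlu : m u = l := by rw [← hmlu]; exact h2
      rw [hmlu] at hnl
      rw [hlu]
      exact hnl
    · right
      have hlK : l ∈ K := hBD.dK hl
      have hlu : l ≠ u := fun he =>
        (Finset.disjoint_left.1 hBD.dis) hBD.hu (he ▸ hl)
      have hl' : l ∈ K \ {u} := by simp [hlK, hlu]
      obtain ⟨h1, h2, h3'⟩ := hm' l hl'
      have hmlK : m' l ∈ K := (Finset.mem_sdiff.1 h1).1
      have hnl : ¬ Mt G (Finset.univ \ {s, m' l, l}) := fun hmt' =>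
        hδ (m' l) l (hneK s hs _ hmlK) (hneK s hs l hlK) h3'.symm hmt' hmδ
      have hmlv := hLSP V G hNG hodd T F hL h3 K hK hM t s ht hs hst.symm v u hv hu hadj.symm B D
        hBD' F' hF' hF'c m' hm' l hl hmB hnl
      have hlv : m' v = l := by rw [← hmlv]; exact h2
      rw [hmlv] at hnl
      rw [hlv]
      exact hnl
  -- two points with the same alternative
  have hum : u ≠ m u := (hm u (by simp [hu, huv])).2.2.ne
  have hvm : v ≠ m' v := (hm' v (by simp [hv, huv.symm])).2.2.ne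
  have hcard : 2 < (T.erase t).card := by rw [Finset.card_erase_of_mem ht]; omega
  obtain ⟨a, ha, b, hb, c, hc, hab, hac, hbc⟩ := Finset.two_lt_card.1 hcard
  have haT := Finset.mem_of_mem_erase ha
  have hbT := Finset.mem_of_mem_erase hb
  have hcT := Finset.mem_of_mem_erase hc
  have hat := Finset.ne_of_mem_erase ha
  have hbt := Finset.ne_of_mem_erase hb
  have hct := Finset.ne_of_mem_erase hc
  rcases claim a haT hat with h1 | h1
  · rcases claim b hbT hbt with h2 | h2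
    · exact key a haT b hbT hab u hu _ hum h1 h2
    · rcases claim c hcT hct with h5 | h5
      · exact key a haT c hcT hac u hu _ hum h1 h5
      · exact key b hbT c hcT hbc v hv _ hvm h2 h5
  · rcases claim b hbT hbt with h2 | h2
    · rcases claim c hcT hct with h5 | h5
      · exact key b hbT c hcT hbc u hu _ hum h2 h5
      · exact key a haT c hcT hac v hv _ hvm h1 h5
    · exact key a haT b hbT hab v hv _ hvm h1 h2

end Pool.Agent.Lib.MPded8ec.FI
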