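import Pool.Agent.Lib.MP_ded8ec_lc.FI.Spec
import Pool.Agent.Lib.MP_ded8ec_lc.FC.FCR
import Pool.Agent.Lib.MP_ded8ec_lc.FC.TUT

/-!
# Internally 4-connected Seymour graphs (MP_ded8ec_lc), module LNE: lines exist
-/

set_option autoImplicit false

namespace Pool.Agent.Lib.MPded8ec.FI

open Pool.Agent.Lib.MPded8ec.SG Pool.Agent.Lib.MPded8ec.FC

universe u

open Finset in
/-- **LNE** -/
theorem specLNE (hNGA : SpecNGA.{u}) : SpecLNE.{u} := by
  intro V _ _ G hNG T₀ F₀ 𝒦 hfam₀ hcard₀ htwo hK₀ hfc₀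
  classical
  obtain ⟨⟨T, F⟩, hmem, hmax⟩ := Finset.exists_max_image
    ((univ : Finset (Finset V × Finset (Finset V))).filter fun p =>
      Fam G univ p.1 p.2 ∧ p.1.card = p.2.card + 1 ∧ T₀ ⊆ p.1 ∧ 𝒦 ⊆ p.2)
    (fun p => p.1.card)
    ⟨(T₀, F₀), mem_filter.2 ⟨mem_univ _, hfam₀, hcard₀, Subset.refl _, hK₀⟩⟩
  obtain ⟨-, hF, hc, hT, hKF⟩ := mem_filter.1 hmem
  dsimp only at hF hc hT hKF hmax
  have h2 : 2 ≤ T.card := htwo.trans (card_le_card hT)
  have hne : F.Nonempty := card_pos.1 (by omega)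
  refine ⟨T, F, ⟨hF, hc, h2, fun x => hNGA.cov V G hNG T F hF hne hc.le x, ?_⟩, hT, hKF⟩
  intro K hK x hx
  by_contra hM
  have hK𝒦 : K ∉ 𝒦 := fun h => hM (hfc₀ K h x hx)
  have hcx : (K \ {x}).card + 1 = K.card := by
    rw [sdiff_singleton_eq_erase]
    exact card_erase_add_one hx
  have hev : Even (K \ {x}).card := by
    have h1 := hF.odd K hK
    rw [← hcx] at h1
    rcases Nat.even_or_odd (K \ {x}).card with h | h
    · exact h
    · exact absurd h.add_one (Nat.not_even_iff_odd.2 h1)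
  obtain ⟨S, F₁, hS, hF₁, hc₁⟩ := FC.specTUT V G (K \ {x}) hev hM
  have hfam := FCRM.fam hF hK hS hx hF₁
  have hSK : insert x S ⊆ K := by
    intro y hy
    rcases mem_insert.1 hy with rfl | hy
    · exact hx
    · exact (mem_sdiff.1 (hS hy)).1
  have hLK : ∀ L ∈ F₁, L ⊆ K := fun L hL y hy => (mem_sdiff.1 (hF₁.sub L hL hy)).1
  have hdisF : Disjoint (F.erase K) F₁ := by
    rw [disjoint_left]
    intro L hL hL'
    have h1 : Disjoint L K := hF.pw L (mem_of_mem_erase hL) K hK (ne_of_mem_erase hL)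
    have h2 : L = ∅ := by
      rw [← disjoint_self_iff_empty]
      exact h1.mono_right (hLK L hL')
    have h3 := hF₁.odd L hL'
    rw [h2] at h3
    simp at h3
  have hcardF : (F.erase K ∪ F₁).card + 1 = F.card + F₁.card := by
    rw [card_union_of_disjoint hdisF]
    have := card_erase_add_one hK
    omega
  have hxS : x ∉ S := fun h => (mem_sdiff.1 (hS h)).2 (mem_singleton_self x)
  have hcardT : (T ∪ insert x S).card = T.card + (S.card + 1) := by
    rw [card_union_of_disjoint ((hF.dis K hK).mono_left hSK).symm, card_insert_of_notMem hxS]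
  have hFc : 1 ≤ F.card := hne.card_pos
  have hle := hNGA.le V G hNG (T ∪ insert x S) (F.erase K ∪ F₁) hfam (by omega)
  have hm := hmax (T ∪ insert x S, F.erase K ∪ F₁) (mem_filter.2 ⟨mem_univ _, hfam, by
    show (T ∪ insert x S).card = (F.erase K ∪ F₁).card + 1
    omega, hT.trans subset_union_left, fun L hL => mem_union_left _ (mem_erase.2
      ⟨fun h => hK𝒦 (h ▸ hL), hKF hL⟩)⟩)
  have hm' : (T ∪ insert x S).card ≤ T.card := hm
  omega

end Pool.Agent.Lib.MPded8ec.FI
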