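import Pool.Agent.Lib.MP_ded8ec_lc.FI.Spec
import Pool.Agent.Lib.MP_ded8ec_lc.FC.MTC
import Pool.Agent.Lib.MP_ded8ec_lc.FC.BER

/-!
# MP_ded8ec_lc, FI, module LNM (helper49): the linear space of the tight sets
-/

set_option autoImplicit false

namespace Pool.Agent.Lib.MPded8ec.FI

open Pool.Agent.Lib.MPded8ec.SG Pool.Agent.Lib.MPded8ec.FC

universe u

namespace LNMM

theorem inn {V : Type u} [Fintype V] [DecidableEq V] (G : SimpleGraph V) (T : Finset V)
    (F : Finset (Finset V)) (hF : Fam G Finset.univ T F) (hT : T.card = F.card + 1) (x p q : V)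
    (hx : x ∈ T) (hp : p ∈ T) (hq : q ∈ T) (hn : [x, p, q].Nodup) :
    ¬ Mt G (Finset.univ \ {x, p, q}) := by
  intro hm
  have hsub : ({x, p, q} : Finset V) ⊆ T := by
    intro y hy
    simp only [Finset.mem_insert, Finset.mem_singleton] at hy
    rcases hy with rfl | rfl | rfl <;> assumption
  have hcard : ({x, p, q} : Finset V).card = 3 := by
    simp only [List.nodup_cons, List.mem_cons, List.not_mem_nil, or_false, not_or] at hn
    rw [Finset.card_insert_of_notMem, Finset.card_insert_of_notMem, Finset.card_singleton]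
    · simpa using hn.2.1
    · simpa using hn.1
  have hfam : Fam G (Finset.univ \ {x, p, q}) (T \ {x, p, q}) F := by
    refine ⟨?_, hF.odd, ?_, hF.pw, ?_⟩
    · intro K hK y hy
      rw [Finset.mem_sdiff]
      exact ⟨Finset.mem_univ _, fun h => (Finset.disjoint_left.1 (hF.dis K hK)) hy (hsub h)⟩
    · intro K hK
      exact (hF.dis K hK).mono_right Finset.sdiff_subset
    · intro K hK y hy z hz hyz
      rcases hF.nb K hK y hy z (Finset.mem_univ _) hyz with h | h
      · exact Or.inl h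
      · exact Or.inr (Finset.mem_sdiff.2 ⟨h, (Finset.mem_sdiff.1 hz).2⟩)
  have h1 := specBER specMTC V G _ _ F hfam hm
  have h2 : (T \ {x, p, q}).card + ({x, p, q} : Finset V).card = T.card :=
    Finset.card_sdiff_add_card_eq_card hsub
  omega

theorem out (hLNS : SpecLNS.{u}) (hEXE : SpecEXE.{u}) {V : Type u} [Fintype V] [DecidableEq V]
    (G : SimpleGraph V) (hG : NG G) (T : Finset V) (F : Finset (Finset V)) (hL : Ln G T F)
    (x p q : V) (hx : x ∉ T) (hp : p ∈ T) (hq : q ∈ T) (hpq : p ≠ q) :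
    Mt G (Finset.univ \ {x, p, q}) := by
  obtain ⟨K, hK, hxK⟩ : ∃ K ∈ F, x ∈ K := by
    rcases hL.cov x with h | h
    · exact absurd h hx
    · exact h
  have hrest : Mt G ((T \ {p, q}) ∪ (F.erase K).biUnion id) := by
    by_cases h3 : 3 ≤ T.card
    · exact (hEXE V G T F (hLNS V G hG T F hL h3) hL.fam hL.fc).2 K hK p hp q hq hpq
    · have h2 := hL.two
      have h1 := hL.eq
      have hT2 : T.card = 2 := by omega
      have hF1 : F.card = 1 := by omega
      have hFe : F.erase K = ∅ := by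
        apply Finset.card_eq_zero.1
        rw [Finset.card_erase_of_mem hK, hF1]
      have hsub : ({p, q} : Finset V) ⊆ T := by
        intro y hy
        simp only [Finset.mem_insert, Finset.mem_singleton] at hy
        rcases hy with rfl | rfl <;> assumption
      have hTe : T \ {p, q} = ∅ := by
        rw [Finset.sdiff_eq_empty_iff_subset]
        refine (Finset.eq_of_subset_of_card_le hsub ?_).symm.subset
        rw [Finset.card_pair hpq, hT2]
      rw [hFe, hTe, Finset.biUnion_empty, Finset.union_empty]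
      exact specMTC.emp V G
  have hdis : Disjoint (K \ {x}) ((T \ {p, q}) ∪ (F.erase K).biUnion id) := by
    rw [Finset.disjoint_left]
    intro y hy hy2
    have hyK := (Finset.mem_sdiff.1 hy).1
    rcases Finset.mem_union.1 hy2 with h | h
    · exact (Finset.disjoint_left.1 (hL.fam.dis K hK)) hyK (Finset.mem_sdiff.1 h).1
    · obtain ⟨L, hL', hyL⟩ := Finset.mem_biUnion.1 h
      exact (Finset.disjoint_left.1 (hL.fam.pw K hK L (Finset.mem_of_mem_erase hL')
        (Finset.ne_of_mem_erase hL').symm)) hyK hyL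
  have hset : Finset.univ \ {x, p, q} = (K \ {x}) ∪ ((T \ {p, q}) ∪ (F.erase K).biUnion id) := by
    ext y
    simp only [Finset.mem_sdiff, Finset.mem_univ, true_and, Finset.mem_insert,
      Finset.mem_singleton, Finset.mem_union, Finset.mem_biUnion, Finset.mem_erase, id, not_or]
    constructor
    · rintro ⟨h1, h2, h3⟩
      rcases hL.cov y with h | ⟨L, hL', hyL⟩
      · exact Or.inr (Or.inl ⟨h, h2, h3⟩)
      · by_cases hLK : L = K
        · subst hLK
          exact Or.inl ⟨hyL, h1⟩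
        · exact Or.inr (Or.inr ⟨L, ⟨hLK, hL'⟩, hyL⟩)
    · have hd : ∀ L ∈ F, ∀ z ∈ L, z ∉ T := fun L hL' z hz h =>
        (Finset.disjoint_left.1 (hL.fam.dis L hL')) hz h
      rintro (⟨h1, h2⟩ | ⟨h1, h2, h3⟩ | ⟨L, ⟨hLK, hL'⟩, hyL⟩)
      · exact ⟨h2, fun h => hd K hK y h1 (h ▸ hp), fun h => hd K hK y h1 (h ▸ hq)⟩
      · exact ⟨fun h => hx (h ▸ h1), h2, h3⟩
      · refine ⟨fun h => ?_, fun h => hd L hL' y hyL (h ▸ hp), fun h => hd L hL' y hyL (h ▸ hq)⟩
        exact (Finset.disjoint_left.1 (hL.fam.pw L hL' K hK hLK)) hyL (h ▸ hxK)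
  rw [hset]
  exact specMTC.uni V G _ _ hdis (hL.fc K hK x hxK) hrest

theorem sub (hLNS : SpecLNS.{u}) (hEXE : SpecEXE.{u}) {V : Type u} [Fintype V] [DecidableEq V]
    (G : SimpleGraph V) (hG : NG G) (T : Finset V) (F : Finset (Finset V)) (hL : Ln G T F)
    (T₀ : Finset V) (F₀ : Finset (Finset V)) (hF₀ : Fam G Finset.univ T₀ F₀)
    (hT₀ : T₀.card = F₀.card + 1) (p q : V) (hp : p ∈ T) (hq : q ∈ T) (hp₀ : p ∈ T₀)
    (hq₀ : q ∈ T₀) (hpq : p ≠ q) : T₀ ⊆ T := by
  intro x hx₀
  by_contra hx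
  refine inn G T₀ F₀ hF₀ hT₀ x p q hx₀ hp₀ hq₀ ?_ (out hLNS hEXE G hG T F hL x p q hx hp hq hpq)
  have h1 : x ≠ p := fun h => hx (h ▸ hp)
  have h2 : x ≠ q := fun h => hx (h ▸ hq)
  simp [h1, h2, hpq]

theorem ex (hLNE : SpecLNE.{u}) {V : Type u} [Fintype V] [DecidableEq V]
    (G : SimpleGraph V) (hG : NG G) (hodd : Odd (Fintype.card V)) (y z : V) (hyz : y ≠ z) :
    ∃ (T : Finset V) (F : Finset (Finset V)), Ln G T F ∧ y ∈ T ∧ z ∈ T := by
  have hc2 : ({y, z} : Finset V).card = 2 := Finset.card_pair hyz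
  have hcard : (Finset.univ \ {y, z} : Finset V).card + 2 = Fintype.card V := by
    rw [← hc2, Finset.card_sdiff_add_card_eq_card (Finset.subset_univ _), Finset.card_univ]
  have hfam : Fam G Finset.univ {y, z} {Finset.univ \ {y, z}} := by
    refine ⟨fun K _ => Finset.subset_univ _, ?_, ?_, ?_, ?_⟩
    · intro K hK
      rw [Finset.mem_singleton.1 hK]
      obtain ⟨k, hk⟩ := hodd
      exact ⟨k - 1, by omega⟩
    · intro K hK
      rw [Finset.mem_singleton.1 hK]
      exact Finset.sdiff_disjoint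
    · intro K hK L hL hKL
      exact absurd ((Finset.mem_singleton.1 hK).trans (Finset.mem_singleton.1 hL).symm) hKL
    · intro K hK a _ b _ _
      rw [Finset.mem_singleton.1 hK]
      by_cases h : b ∈ ({y, z} : Finset V)
      · exact Or.inr h
      · exact Or.inl (Finset.mem_sdiff.2 ⟨Finset.mem_univ _, h⟩)
  obtain ⟨T, F, hL, hT, -⟩ := hLNE V G hG {y, z} {Finset.univ \ {y, z}} ∅ hfam
    (by rw [hc2, Finset.card_singleton]) (by rw [hc2]) (Finset.empty_subset _)
    (fun K hK => absurd hK (Finset.notMem_empty _))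
  exact ⟨T, F, hL, hT (by simp), hT (by simp)⟩

end LNMM

theorem specLNM (hLNS : SpecLNS.{u}) (hLNE : SpecLNE.{u}) (hEXE : SpecEXE.{u}) : SpecLNM.{u} where
  inn := fun _ _ _ G T F hF hT x p q hx hp hq hn => LNMM.inn G T F hF hT x p q hx hp hq hn
  out := fun _ _ _ G hG T F hL x p q hx hp hq hpq =>
    LNMM.out hLNS hEXE G hG T F hL x p q hx hp hq hpq
  sub := fun _ _ _ G hG T F hL T₀ F₀ h1 h2 p q hp hq hp₀ hq₀ hpq =>
    LNMM.sub hLNS hEXE G hG T F hL T₀ F₀ h1 h2 p q hp hq hp₀ hq₀ hpq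
  uni := fun _ _ _ G hG T T' F F' hL hL' p q hp hq hp' hq' hpq =>
    Finset.Subset.antisymm
      (LNMM.sub hLNS hEXE G hG T' F' hL' T F hL.fam hL.eq p q hp' hq' hp hq hpq)
      (LNMM.sub hLNS hEXE G hG T F hL T' F' hL'.fam hL'.eq p q hp hq hp' hq' hpq)
  ex := fun _ _ _ G hG hodd y z hyz => LNMM.ex hLNE G hG hodd y z hyz

end Pool.Agent.Lib.MPded8ec.FI
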