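import Pool.Agent.Lib.MP_ded8ec_lc.FI.Spec
import Pool.Agent.Lib.MP_ded8ec_lc.FC.SUR

/-!
# LNS: the surplus of a line (MP_ded8ec_lc, FI)
-/

set_option autoImplicit false

namespace Pool.Agent.Lib.MPded8ec.FI

open Pool.Agent.Lib.MPded8ec.SG Pool.Agent.Lib.MPded8ec.FC

universe u

theorem specLNS (h : SpecNGA.{u}) : SpecLNS.{u} := by
  intro V _ _ G hG T F hL hT
  have hfam := hL.fam
  have heq := hL.eq
  refine { two := by omega, eq := heq, sur := ?_ }
  intro X hX hne hXF
  by_contra hlt
  have hle : (Nb G T X).card ≤ X.card + 1 := by omega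
  have hF' : Fam G Finset.univ (Nb G T X) X :=
    { sub := fun K _ => Finset.subset_univ K
      odd := fun K hK => hfam.odd K (hX hK)
      dis := fun K hK => Finset.disjoint_of_subset_right (nb_subset G T X) (hfam.dis K (hX hK))
      pw := fun K hK L hL hKL => hfam.pw K (hX hK) L (hX hL) hKL
      nb := fun K hK x hx y hy hxy => by
        rcases hfam.nb K (hX hK) x hx y hy hxy with h1 | h1
        · exact Or.inl h1
        · exact Or.inr ((mem_nb G T X y).mpr ⟨h1, K, hK, x, hx, hxy⟩) }
  have hex : ∃ K ∈ F, K ∉ X := by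
    by_contra hcon
    push Not at hcon
    exact hXF (Finset.Subset.antisymm hX hcon)
  obtain ⟨K, hK, hKX⟩ := hex
  obtain ⟨x, hx⟩ : K.Nonempty := Finset.card_pos.mp (hfam.odd K hK).pos
  rcases h.cov V G hG (Nb G T X) X hF' hne hle x with h1 | ⟨L, hLX, hxL⟩
  · exact Finset.disjoint_left.mp (hfam.dis K hK) hx (nb_subset G T X h1)
  · have hKL : K ≠ L := by
      intro he
      exact hKX (he ▸ hLX)
    exact Finset.disjoint_left.mp (hfam.pw K hK L (hX hLX) hKL) hx hxL

end Pool.Agent.Lib.MPded8ec.FI
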