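import Pool.Agent.Lib.MP_ded8ec_lc.FI.Spec

set_option autoImplicit false

namespace Pool.Agent.Lib.MPded8ec.FI

open Pool.Agent.Lib.MPded8ec.SG Pool.Agent.Lib.MPded8ec.FC

universe u

/-- LSP: one step, `l ∈ D` and its partner `m l` have the same colour. -/
theorem specLSP (hLNM : SpecLNM.{u}) (hLBB : SpecLBB.{u}) : SpecLSP.{u} := by
  intro V _ _ G hNG hodd T F hL h3 K hK hMin t t' ht ht' htt u v hu hv huv B D hBD F' hF' hF'c m hm
    l hl hlB hno
  have hKT : ∀ x ∈ K, x ∉ T := fun x hx hxT => Finset.disjoint_left.mp (hL.fam.dis K hK) hx hxT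
  have hlK : l ∈ K := hBD.dK hl
  have hlB' : l ∉ B := fun h => Finset.disjoint_left.mp hBD.dis h hl
  have hlv : l ≠ v := fun h => hlB' (h ▸ hBD.hv)
  obtain ⟨hm1, hm2, hm3⟩ := hm l (by simp [hlK, hlv])
  have hbK : m l ∈ K := (Finset.mem_sdiff.mp hm1).1
  have hbl : m l ≠ l := hm3.ne'
  have huv' : u ≠ v := huv.ne
  obtain ⟨T₁, F₁, hL₁, hu₁, hv₁⟩ := hLNM.ex V G hNG hodd u v huv'
  have hs₁ : insert t B ⊆ T₁ := hLNM.sub V G hNG T₁ F₁ hL₁ (insert t B) F' hF' hF'c u v hu₁ hv₁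
    (Finset.mem_insert_of_mem hBD.hu) (Finset.mem_insert_of_mem hBD.hv) huv'
  have ht'₁ : t' ∉ T₁ := by
    intro h
    have h1 := hLNM.uni V G hNG T T₁ F F₁ hL hL₁ t t' ht ht' (hs₁ (Finset.mem_insert_self t B)) h htt
    exact hKT u hu (h1 ▸ hu₁)
  obtain ⟨B', D', hBD', F'', hF'', hF''c⟩ := hLBB V G hNG T F hL h3 K hK hMin t' ht' (m l) l hbK hlK
    hm3.symm hno
  obtain ⟨T₂, F₂, hL₂, hb₂, hl₂⟩ := hLNM.ex V G hNG hodd (m l) l hbl
  have hs₂ : insert t' B' ⊆ T₂ := hLNM.sub V G hNG T₂ F₂ hL₂ (insert t' B') F'' hF'' hF''c (m l) l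
    hb₂ hl₂ (Finset.mem_insert_of_mem hBD'.hu) (Finset.mem_insert_of_mem hBD'.hv) hbl
  have ht'₂ : t' ∈ T₂ := hs₂ (Finset.mem_insert_self t' B')
  have hD'B' : ∀ x ∈ D', x ∉ B' := fun x hx hxB => Finset.disjoint_left.mp hBD'.dis hxB hx
  have hvD' : v ∈ D' := by
    by_contra hvD
    have hmD : ∀ x ∈ D', m x ∈ B' \ {m l, l} ∧ m (m x) = x := by
      intro x hx
      have hxv : x ≠ v := fun h => hvD (h ▸ hx)
      obtain ⟨h1, h2, h3⟩ := hm x (by simp [hBD'.dK hx, hxv])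
      have hmxK : m x ∈ K := (Finset.mem_sdiff.mp h1).1
      have hmxB : m x ∈ B' := by
        rcases hBD'.nb x hx (m x) h3 with h | h
        · exact h
        · exact absurd (h ▸ ht') (hKT (m x) hmxK)
      have hxl : x ≠ l := fun h => hD'B' x hx (h ▸ hBD'.hv)
      have hxb : x ≠ m l := fun h => hD'B' x hx (h ▸ hBD'.hu)
      refine ⟨?_, h2⟩
      simp only [Finset.mem_sdiff, Finset.mem_insert, Finset.mem_singleton, not_or]
      refine ⟨hmxB, fun h => hxl ?_, fun h => hxb ?_⟩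
      · rw [← h2, h, hm2]
      · rw [← h2, h]
    have hc1 : D'.card ≤ (B' \ {m l, l}).card := by
      apply Finset.card_le_card_of_injOn m
      · intro x hx
        exact (hmD x hx).1
      · intro x hx y hy hxy
        rw [← (hmD x hx).2, hxy, (hmD y hy).2]
    have hsub : ({m l, l} : Finset V) ⊆ B' := by
      intro x hx
      rcases Finset.mem_insert.mp hx with h | h
      · exact h ▸ hBD'.hu
      · exact (Finset.mem_singleton.mp h) ▸ hBD'.hv
    have hc2 : (B' \ {m l, l}).card = B'.card - 2 := by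
      rw [Finset.card_sdiff_of_subset hsub, Finset.card_pair hbl]
    have hc3 := Finset.card_le_card hsub
    rw [Finset.card_pair hbl] at hc3
    have hc4 := hBD'.eq
    omega
  have huB' : u ∈ B' := by
    rcases hBD'.nb v hvD' u huv.symm with h | h
    · exact h
    · exact absurd (h ▸ ht') (hKT u hu)
  by_contra hub
  have h1 := hLNM.uni V G hNG T₁ T₂ F₁ F₂ hL₁ hL₂ u (m l) hu₁ (hs₁ (Finset.mem_insert_of_mem hlB))
    (hs₂ (Finset.mem_insert_of_mem huB')) hb₂ (fun h => hub h.symm)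
  exact ht'₁ (h1 ▸ ht'₂)

end Pool.Agent.Lib.MPded8ec.FI
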