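import Pool.Agent.Lib.MP_ded8ec_lc.FI.Spec

/-!
# Internally 4-connected Seymour graphs (MP_ded8ec_lc): lines whose components are single vertices
-/

set_option autoImplicit false

namespace Pool.Agent.Lib.MPded8ec.FI

open Pool.Agent.Lib.MPded8ec.SG Pool.Agent.Lib.MPded8ec.FC

universe u

/-- A set of edges without triangles and without two disjoint edges is a star. -/
theorem LSTM.star {V : Type u} (G : SimpleGraph V) (T : Finset V) (hne : T.Nonempty)
    (htri : ∀ x ∈ T, ∀ y ∈ T, ∀ z ∈ T, G.Adj x y → G.Adj x z → G.Adj y z → False)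
    (hdis : ∀ a ∈ T, ∀ b ∈ T, ∀ c ∈ T, ∀ d ∈ T, G.Adj a b → G.Adj c d → a ≠ c → a ≠ d → b ≠ c →
      b ≠ d → False) :
    ∃ w ∈ T, ∀ x ∈ T, ∀ y ∈ T, G.Adj x y → x = w ∨ y = w := by
  by_contra hcon
  push Not at hcon
  obtain ⟨w, hw⟩ := hne
  obtain ⟨a, ha, b, hb, hab, -, -⟩ := hcon w hw
  obtain ⟨x, hx, hbx, hxa⟩ : ∃ x ∈ T, G.Adj b x ∧ x ≠ a := by
    obtain ⟨p, hp, q, hq, hpq, hpa, hqa⟩ := hcon a ha
    by_cases h1 : b = p
    · exact ⟨q, hq, h1 ▸ hpq, hqa⟩
    · by_cases h2 : b = q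
      · exact ⟨p, hp, h2 ▸ hpq.symm, hpa⟩
      · exact (hdis a ha b hb p hp q hq hab hpq (Ne.symm hpa) (Ne.symm hqa) h1 h2).elim
  obtain ⟨y, hy, hay, hyb⟩ : ∃ y ∈ T, G.Adj a y ∧ y ≠ b := by
    obtain ⟨p, hp, q, hq, hpq, hpb, hqb⟩ := hcon b hb
    by_cases h1 : a = p
    · exact ⟨q, hq, h1 ▸ hpq, hqb⟩
    · by_cases h2 : a = q
      · exact ⟨p, hp, h2 ▸ hpq.symm, hpb⟩
      · exact (hdis a ha b hb p hp q hq hab hpq h1 h2 (Ne.symm hpb) (Ne.symm hqb)).elim
  by_cases h : x = y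
  · subst h
    exact htri a ha b hb x hx hab hay hbx
  · exact hdis b hb x hx a ha y hy hbx hay hab.ne' (Ne.symm hyb) hxa h

theorem specLST (hLNS : SpecLNS.{u}) (hHBE : SpecHBE.{u}) (hTWF : SpecTWF.{u})
    (hLNM : SpecLNM.{u}) : SpecLST.{u} := by
  intro V _ _ G hNG hBAL T F hL h3 h1
  have hub : HubE G T (F.biUnion id) := hHBE V G T F hL.fam (hLNS V G hNG T F hL h3) h1
  have hcov : ∀ x, x ∈ T ∨ x ∈ F.biUnion id := by
    intro x
    rcases hL.cov x with h | ⟨K, hK, hx⟩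
    · exact Or.inl h
    · exact Or.inr (Finset.mem_biUnion.2 ⟨K, hK, hx⟩)
  have hne : T.Nonempty := by
    rw [← Finset.card_pos]; omega
  have hI : (F.biUnion id).Nonempty := by
    rw [← Finset.card_pos]
    have := hub.two
    omega
  have hTI : ∀ x ∈ T, x ∉ F.biUnion id := fun x hx hx' =>
    (Finset.disjoint_left.1 hub.dis) hx hx'
  have htri : ∀ x ∈ T, ∀ y ∈ T, ∀ z ∈ T, G.Adj x y → G.Adj x z → G.Adj y z → False := by
    intro x hx y hy z hz hxy hxz hyz
    obtain ⟨i, hi⟩ := hI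
    have hiT : i ∉ T := fun h => hTI i h hi
    obtain ⟨d, hd⟩ := hBAL (Finset.univ \ {i})
    have key : ∀ p ∈ T, ∀ q ∈ T, G.Adj p q → d p ≠ d q := by
      intro p hp q hq hpq
      have hpi : p ≠ i := fun h => hiT (h ▸ hp)
      have hqi : q ≠ i := fun h => hiT (h ▸ hq)
      refine hd p (by simp [hpi]) q (by simp [hqi]) hpq ?_
      have e : (Finset.univ \ {i}) \ {p, q} = Finset.univ \ ({i, p, q} : Finset V) := by
        ext v
        simp only [Finset.mem_sdiff, Finset.mem_univ, true_and, Finset.mem_singleton,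
          Finset.mem_insert]
        tauto
      rw [e]
      exact hLNM.out V G hNG T F hL i p q hiT hp hq hpq.ne
    have k1 := key x hx y hy hxy
    have k2 := key x hx z hz hxz
    have k3 := key y hy z hz hyz
    revert k1 k2 k3
    cases d x <;> cases d y <;> cases d z <;> simp
  have hdis : ∀ a ∈ T, ∀ b ∈ T, ∀ c ∈ T, ∀ d ∈ T, G.Adj a b → G.Adj c d → a ≠ c → a ≠ d →
      b ≠ c → b ≠ d → False := by
    intro a ha b hb c hc d hd hab hcd h11 h12 h21 h22
    have hbp : ∀ p ∈ T, ∀ q ∈ T, G.Adj p q →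
        BP G (T ∪ F.biUnion id) (fun x => decide (x ∈ F.biUnion id)) p [] q := by
      intro p hp q hq hpq
      refine ⟨Finset.mem_union_left _ hp, Finset.mem_union_left _ hq, hpq, ?_, ?_, ?_⟩
      · simp [hpq.ne]
      · intro x hx
        exact absurd hx (List.not_mem_nil)
      · have e1 : decide (p ∈ F.biUnion id) = false := decide_eq_false (hTI p hp)
        have e2 : decide (q ∈ F.biUnion id) = false := decide_eq_false (hTI q hq)
        simp only [sg, e1, e2]
        rfl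
    refine hTWF V G hBAL T (F.biUnion id) hub a b c d [] [] ⟨hbp a ha b hb hab,
      hbp c hc d hd hcd, ?_⟩
    intro x hx hx'
    simp only [List.nil_append, List.mem_cons, List.not_mem_nil, or_false] at hx hx'
    rcases hx with rfl | rfl <;> rcases hx' with h | h
    · exact h11 h
    · exact h12 h
    · exact h21 h
    · exact h22 h
  obtain ⟨w, hw, hstar⟩ := LSTM.star G T hne htri hdis
  refine ⟨w, fun v => decide (v ∈ T), fun x y hxw hyw hxy => ?_⟩
  by_cases hx : x ∈ T <;> by_cases hy : y ∈ T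
  · rcases hstar x hx y hy hxy with h | h
    · exact absurd h hxw
    · exact absurd h hyw
  · simp [hx, hy]
  · simp [hx, hy]
  · have hx' : x ∈ F.biUnion id := (hcov x).resolve_left hx
    exact absurd (hub.nb x hx' y hxy) hy

end Pool.Agent.Lib.MPded8ec.FI
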