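import Pool.Agent.Lib.MP_ded8ec_lc.FI.Spec
import Pool.Agent.Lib.MP_ded8ec_lc.FC.CMP
import Pool.Agent.Lib.MP_ded8ec_lc.FC.TUT

/-!
# Internally 4-connected Seymour graphs (MP_ded8ec_lc), module NGA: no good triple (helper26)
-/

set_option autoImplicit false

namespace Pool.Agent.Lib.MPded8ec.FI

open Pool.Agent.Lib.MPded8ec.SG Pool.Agent.Lib.MPded8ec.FC

universe u

namespace NGAM

open Finset

/-- a subfamily -/
lemma famSub {V : Type u} {G : SimpleGraph V} {U T : Finset V} {F F' : Finset (Finset V)}
    (h : Fam G U T F) (hs : F' ⊆ F) : Fam G U T F' where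
  sub K hK := h.sub K (hs hK)
  odd K hK := h.odd K (hs hK)
  dis K hK := h.dis K (hs hK)
  pw K hK L hL hn := h.pw K (hs hK) L (hs hL) hn
  nb K hK x hx y hy ha := h.nb K (hs hK) x hx y hy ha

/-- a family for `univ \ R` -/
lemma famExt {V : Type u} [Fintype V] [DecidableEq V] {G : SimpleGraph V} {R S : Finset V}
    {F : Finset (Finset V)} (h : Fam G (univ \ R) S F) : Fam G univ (S ∪ R) F where
  sub K _ := subset_univ K
  odd K hK := h.odd K hK
  dis K hK := by
    rw [disjoint_union_right]
    refine ⟨h.dis K hK, ?_⟩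
    rw [disjoint_left]
    intro x hx hR
    exact (mem_sdiff.1 (h.sub K hK hx)).2 hR
  pw K hK L hL hn := h.pw K hK L hL hn
  nb K hK x hx y _ ha := by
    by_cases hy : y ∈ R
    · exact Or.inr (mem_union_right _ hy)
    · rcases h.nb K hK x hx y (mem_sdiff.2 ⟨mem_univ y, hy⟩) ha with h1 | h1
      · exact Or.inl h1
      · exact Or.inr (mem_union_left _ h1)

lemma cov {V : Type u} [Fintype V] [DecidableEq V] (G : SimpleGraph V) (hN : NG G)
    (T : Finset V) (F : Finset (Finset V)) (hF : Fam G univ T F) (hne : F.Nonempty)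
    (hc : T.card ≤ F.card + 1) (x : V) : x ∈ T ∨ ∃ K ∈ F, x ∈ K := by
  by_contra hcon
  rw [not_or] at hcon
  obtain ⟨hxT, hxF⟩ := hcon
  obtain ⟨K0, hxK, hcn, hdT, hnb, hmin⟩ := FC.specCMP.{u}.cmp V G T x hxT
  refine hN T K0 F ⟨hcn, hdT, hnb, hF, ?_, hne, hc⟩
  intro K hK
  have hC : K0 ⊆ univ \ (K ∪ T) := by
    apply hmin
    · simp only [mem_sdiff, mem_univ, true_and, mem_union, not_or]
      exact ⟨fun h => hxF ⟨K, hK, h⟩, hxT⟩
    · intro y hy z hyz
      simp only [mem_sdiff, mem_univ, true_and, mem_union, not_or] at hy ⊢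
      by_cases hzT : z ∈ T
      · exact Or.inr hzT
      · left
        refine ⟨fun hzK => ?_, hzT⟩
        rcases hF.nb K hK z hzK y (mem_univ _) hyz.symm with h1 | h1
        · exact hy.1 h1
        · exact hy.2 h1
  rw [disjoint_left]
  intro y hy hy'
  have := hC hy'
  simp only [mem_sdiff, mem_univ, true_and, mem_union, not_or] at this
  exact this.1 hy

lemma le {V : Type u} [Fintype V] [DecidableEq V] (G : SimpleGraph V) (hN : NG G)
    (T : Finset V) (F : Finset (Finset V)) (hF : Fam G univ T F) (h2 : 2 ≤ F.card) :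
    F.card + 1 ≤ T.card := by
  by_contra hlt
  obtain ⟨K₁, hK₁⟩ : F.Nonempty := by
    rw [← card_pos]
    omega
  have hcE : (F.erase K₁).card + 1 = F.card := card_erase_add_one hK₁
  obtain ⟨x, hx⟩ : K₁.Nonempty := by
    rw [← card_pos]
    exact (hF.odd K₁ hK₁).pos
  rcases cov G hN T (F.erase K₁) (famSub hF (erase_subset _ _)) (by rw [← card_pos]; omega)
    (by omega) x with h | ⟨K, hK, hxK⟩
  · exact disjoint_left.1 (hF.dis K₁ hK₁) hx h
  · exact disjoint_left.1 (hF.pw K (mem_of_mem_erase hK) K₁ hK₁ (ne_of_mem_erase hK)) hxK hx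

end NGAM

open Finset in
/-- **NGA** -/
theorem specNGA : SpecNGA.{u} where
  cov _ _ _ G hN T F hF hne hc x := NGAM.cov G hN T F hF hne hc x
  le _ _ _ G hN T F hF h2 := NGAM.le G hN T F hF h2
  fc V _ _ G hN ho x := by
    by_contra hM
    have hcard : (univ \ {x} : Finset V).card + 1 = Fintype.card V := by
      rw [sdiff_singleton_eq_erase, card_erase_add_one (mem_univ x), card_univ]
    have hev : Even (univ \ {x} : Finset V).card := by
      rcases Nat.even_or_odd (univ \ {x} : Finset V).card with h | h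
      · exact h
      · exfalso
        rw [← hcard] at ho
        exact (Nat.not_even_iff_odd.2 ho) h.add_one
    obtain ⟨S, F₁, -, hF, hc⟩ := FC.specTUT V G (univ \ {x}) hev hM
    have h1 := NGAM.le G hN (S ∪ {x}) F₁ (NGAM.famExt hF) (by omega)
    have h2 : (S ∪ {x}).card ≤ S.card + 1 := by
      refine (card_union_le _ _).trans ?_
      rw [card_singleton]
    omega
  odd V _ _ _ G hN hB := by
    rcases Nat.even_or_odd (Fintype.card V) with he | ho
    · left
      by_cases ha : ∀ u v, G.Adj u v → Mt G (univ \ {u, v})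
      · obtain ⟨d, hd⟩ := hB univ
        obtain ⟨v₀⟩ := ‹Nonempty V›
        exact ⟨v₀, d, fun x y _ _ hxy => hd x (mem_univ x) y (mem_univ y) hxy (ha x y hxy)⟩
      · exfalso
        push Not at ha
        obtain ⟨p, q, hpq, hM⟩ := ha
        have hcp : ({p, q} : Finset V).card = 2 := card_pair hpq.ne
        have hcard : (univ \ {p, q} : Finset V).card + 2 = Fintype.card V := by
          have h1 := card_sdiff_add_card_eq_card (subset_univ ({p, q} : Finset V))
          rw [hcp, card_univ] at h1
          exact h1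
        have hev : Even (univ \ {p, q} : Finset V).card := by
          rw [← hcard] at he
          exact (Nat.even_add.1 he).2 even_two
        obtain ⟨S, F₁, -, hF, hc⟩ := FC.specTUT V G (univ \ {p, q}) hev hM
        have h1 := NGAM.le G hN (S ∪ {p, q}) F₁ (NGAM.famExt hF) (by omega)
        have h2 : (S ∪ {p, q}).card ≤ S.card + 2 := by
          refine (card_union_le _ _).trans ?_
          rw [hcp]
        omega
    · exact Or.inr ho

end Pool.Agent.Lib.MPded8ec.FI
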