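import Pool.Agent.Lib.MP_ded8ec_lc.FI.Spec
import Pool.Agent.Lib.MP_ded8ec_lc.FC.MTC

/-!
# Internally 4-connected Seymour graphs (MP_ded8ec_lc), module SAE (copy of helper9's `FC/SNA.lean`)
-/

set_option autoImplicit false

namespace Pool.Agent.Lib.MPded8ec.FI

open Pool.Agent.Lib.MPded8ec.SG Pool.Agent.Lib.MPded8ec.FC

universe u

theorem specSAE (hEXE : SpecEXE.{u}) : SpecSAE.{u} := by
  intro V _ _ G T F hS hF hfc D hDT hDF a c ha hc hac hma hmc K hK x s hx hs hadj
  obtain ⟨e, heT, hes, hme⟩ : ∃ e ∈ T, e ≠ s ∧ Mt G (insert e D) := by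
    by_cases h : s = a
    · exact ⟨c, hc, fun h' => hac (h.symm.trans h'.symm), hmc⟩
    · exact ⟨a, ha, fun h' => h h'.symm, hma⟩
  have h1 := (hEXE V G T F hS hF hfc).2 K hK s hs e heT (fun h' => hes h'.symm)
  have h2 := FC.specMTC.pair V G x s hadj
  have hT : ∀ L ∈ F, ∀ z ∈ L, z ∉ T := fun L hL z hz => Finset.disjoint_left.1 (hF.dis L hL) hz
  have hD : ∀ L ∈ F, ∀ z ∈ L, z ∉ D := fun L hL z hz => Finset.disjoint_right.1 (hDF L hL) hz
  have hDt : ∀ z ∈ T, z ∉ D := fun z hz => Finset.disjoint_right.1 hDT hz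
  have hP : ∀ L ∈ F, L ≠ K → ∀ z ∈ L, z ∉ K := fun L hL hLK z hz =>
    Finset.disjoint_left.1 (hF.pw L hL K hK hLK) hz
  have hd1 : Disjoint ({x, s} : Finset V) (insert e D) := by
    rw [Finset.disjoint_left]
    intro z hz hz'
    rw [Finset.mem_insert, Finset.mem_singleton] at hz
    rw [Finset.mem_insert] at hz'
    rcases hz with rfl | rfl
    · rcases hz' with rfl | hz'
      · exact hT K hK _ hx heT
      · exact hD K hK _ hx hz'
    · rcases hz' with h | hz'
      · exact hes h.symm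
      · exact hDt _ hs hz'
  have h3 := FC.specMTC.uni V G {x, s} (insert e D) hd1 h2 hme
  have hd2 : Disjoint ({x, s} ∪ insert e D) ((T \ {s, e}) ∪ (F.erase K).biUnion id) := by
    rw [Finset.disjoint_left]
    intro z hz hz'
    simp only [Finset.mem_union, Finset.mem_insert, Finset.mem_singleton, Finset.mem_sdiff,
      Finset.mem_biUnion, Finset.mem_erase, id] at hz hz'
    rcases hz' with ⟨k1, k2⟩ | ⟨L, ⟨k1, k2⟩, k3⟩
    · rcases hz with (rfl | rfl) | rfl | k4
      · exact hT K hK _ hx k1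
      · exact k2 (Or.inl rfl)
      · exact k2 (Or.inr rfl)
      · exact hDt _ k1 k4
    · rcases hz with (rfl | rfl) | rfl | k4
      · exact hP L k2 k1 _ k3 hx
      · exact hT L k2 _ k3 hs
      · exact hT L k2 _ k3 heT
      · exact hD L k2 _ k3 k4
  have h4 := FC.specMTC.uni V G _ _ hd2 h3 h1
  have h5 : ({x, s} ∪ insert e D) ∪ ((T \ {s, e}) ∪ (F.erase K).biUnion id) =
      insert x (((T ∪ F.biUnion id) ∪ D) \ K) := by
    ext z
    simp only [Finset.mem_union, Finset.mem_insert, Finset.mem_singleton, Finset.mem_sdiff,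
      Finset.mem_biUnion, Finset.mem_erase, id]
    constructor
    · rintro (((rfl | rfl) | rfl | k4) | ⟨k1, k2⟩ | ⟨L, ⟨k1, k2⟩, k3⟩)
      · exact Or.inl rfl
      · exact Or.inr ⟨Or.inl (Or.inl hs), fun h => hT K hK _ h hs⟩
      · exact Or.inr ⟨Or.inl (Or.inl heT), fun h => hT K hK _ h heT⟩
      · exact Or.inr ⟨Or.inr k4, fun h => hD K hK _ h k4⟩
      · exact Or.inr ⟨Or.inl (Or.inl k1), fun h => hT K hK _ h k1⟩
      · exact Or.inr ⟨Or.inl (Or.inr ⟨L, k2, k3⟩), hP L k2 k1 _ k3⟩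
    · rintro (rfl | ⟨(k1 | ⟨L, k1, k2⟩) | k4, k5⟩)
      · exact Or.inl (Or.inl (Or.inl rfl))
      · by_cases hzs : z = s
        · exact Or.inl (Or.inl (Or.inr hzs))
        · by_cases hze : z = e
          · exact Or.inl (Or.inr (Or.inl hze))
          · refine Or.inr (Or.inl ⟨k1, ?_⟩)
            rintro (h | h)
            · exact hzs h
            · exact hze h
      · refine Or.inr (Or.inr ⟨L, ⟨?_, k1⟩, k2⟩)
        rintro rfl
        exact k5 k2
      · exact Or.inl (Or.inr (Or.inr k4))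
  rw [← h5]
  exact h4

end Pool.Agent.Lib.MPded8ec.FI
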