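import Pool.Agent.Lib.MP_ded8ec_lc.FI.Spec

/-! # Internally 4-connected Seymour graphs (MP_ded8ec_lc), module SE3 -/

set_option autoImplicit false

namespace Pool.Agent.Lib.MPded8ec.FI

open Pool.Agent.Lib.MPded8ec.SG Pool.Agent.Lib.MPded8ec.FC

universe u v

theorem specSE3 (hC : SpecCM3.{u}) : SpecSE3.{u, v} := by
  intro V Q _ _ _ _ G hG R c hR X Z κ g hE
  by_cases hZe : Z = ∅
  · exact Or.inl hZe
  right
  obtain ⟨v, hv⟩ := Finset.nonempty_iff_ne_empty.2 hZe
  let F : Q → Finset V := fun q => Finset.univ.filter fun w => w ∉ X ∧ w ∉ Z ∧ g w = q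
  have hF : ∀ q w, w ∈ F q ↔ (w ∉ X ∧ w ∉ Z ∧ g w = q) := by
    intro q w
    show w ∈ Finset.univ.filter _ ↔ _
    simp
  have hnum : X.card + ∑ q : Q, (F q).card / 2 ≤ 1 := hE.num
  have hone : ∀ q : Q, X.card + (F q).card / 2 ≤ 1 := by
    intro q
    have h : (F q).card / 2 ≤ ∑ q : Q, (F q).card / 2 :=
      Finset.single_le_sum (f := fun q : Q => (F q).card / 2)
        (fun _ _ => Nat.zero_le _) (Finset.mem_univ q)
    omega
  have htwo : ∀ q q' : Q, q ≠ q' → (F q).card / 2 + (F q').card / 2 ≤ 1 := by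
    intro q q' hq
    have h1 : ∑ r ∈ ({q, q'} : Finset Q), (F r).card / 2 ≤ ∑ r : Q, (F r).card / 2 :=
      Finset.sum_le_sum_of_subset (Finset.subset_univ _)
    rw [Finset.sum_pair hq] at h1
    omega
  -- the class of an element of `Z`
  have hmain : ∀ v ∈ Z, X.card = 0 ∧ (F (g v)).card = 3 := by
    intro v hv
    have h1 := hone (g v)
    have hNle : (X ∪ F (g v)).card ≤ X.card + (F (g v)).card := Finset.card_union_le _ _
    have hN3 : (X ∪ F (g v)).card ≤ 3 := by omega
    have hmem : ∀ w, w ∈ X ∪ F (g v) ↔ w ∈ X ∨ (w ∉ X ∧ w ∉ Z ∧ g w = g v) := by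
      intro w
      rw [Finset.mem_union, hF]
    have hRN : ∃ x ∈ R, x ∉ X ∪ F (g v) := by
      by_contra hcon
      push Not at hcon
      have := Finset.card_le_card (show R ⊆ X ∪ F (g v) from hcon)
      omega
    obtain ⟨x, hxR, hxN⟩ := hRN
    have h3 := hC.three V G hG.1 (X ∪ F (g v)) (Z.filter fun w => g w = g v)
      ⟨v, Finset.mem_filter.2 ⟨hv, rfl⟩⟩
      (by
        rw [Finset.disjoint_left]
        intro w hw hwN
        obtain ⟨hwZ, -⟩ := Finset.mem_filter.1 hw
        rcases (hmem w).1 hwN with h | h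
        · exact Finset.disjoint_left.1 hE.ZX hwZ h
        · exact h.2.1 hwZ)
      (by
        intro y hy z hyz
        obtain ⟨hyZ, hyg⟩ := Finset.mem_filter.1 hy
        by_cases hzN : z ∈ X ∪ F (g v)
        · exact Or.inr hzN
        · left
          rw [hmem] at hzN
          push Not at hzN
          have hb := hE.both y z hyZ hzN.1 hyz
          have hzg : g z = g v := by rw [← hb, hyg]
          refine Finset.mem_filter.2 ⟨?_, hzg⟩
          by_contra hzZ
          exact hzN.2 hzN.1 hzZ hzg)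
      x
      (by
        intro hx
        exact Finset.disjoint_left.1 hE.ZR (Finset.mem_filter.1 hx).1 hxR)
      hxN
    omega
  obtain ⟨hX0, hF3⟩ := hmain v hv
  have hXe : X = ∅ := Finset.card_eq_zero.1 hX0
  subst hXe
  have hZg : ∀ w ∈ Z, g w = g v := by
    intro w hw
    by_contra hne
    have h1 := htwo (g w) (g v) hne
    have h2 := (hmain w hw).2
    omega
  have hvN : v ∉ F (g v) := by
    rw [hF]
    exact fun h => h.2.1 hv
  have hclosed : ∀ y ∈ Z, ∀ z, G.Adj y z → z ∈ Z ∨ z ∈ F (g v) := by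
    intro y hy z hyz
    by_cases hz : z ∈ Z
    · exact Or.inl hz
    · right
      rw [hF]
      refine ⟨Finset.notMem_empty _, hz, ?_⟩
      rw [← hE.both y z hy (Finset.notMem_empty _) hyz, hZg y hy]
  have hZN : Disjoint Z (F (g v)) := by
    rw [Finset.disjoint_left]
    intro w hw hwF
    exact ((hF _ _).1 hwF).2.1 hw
  have hB2 : 2 ≤ (Finset.univ \ (F (g v) ∪ Z)).card := by
    have h1 : R \ F (g v) ⊆ Finset.univ \ (F (g v) ∪ Z) := by
      intro r hr
      obtain ⟨hrR, hrF⟩ := Finset.mem_sdiff.1 hr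
      refine Finset.mem_sdiff.2 ⟨Finset.mem_univ _, ?_⟩
      rw [Finset.mem_union]
      rintro (h | h)
      · exact hrF h
      · exact Finset.disjoint_left.1 hE.ZR h hrR
    have h2 := Finset.card_le_card h1
    have h3 := Finset.le_card_sdiff (F (g v)) R
    omega
  have hZ1 : Z.card ≤ 1 := by
    rcases hG.2 (F (g v)) Z (Finset.univ \ (F (g v) ∪ Z)) hF3 hZN
      (by
        rw [Finset.disjoint_left]
        intro w hw hwF
        exact (Finset.mem_sdiff.1 hw).2 (Finset.mem_union_left _ hwF))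
      (by
        rw [Finset.disjoint_left]
        intro w hw hwB
        exact (Finset.mem_sdiff.1 hwB).2 (Finset.mem_union_right _ hw))
      (by
        intro x
        by_cases hxZ : x ∈ Z
        · exact Or.inl hxZ
        · by_cases hxF : x ∈ F (g v)
          · exact Or.inr (Or.inr hxF)
          · refine Or.inr (Or.inl (Finset.mem_sdiff.2 ⟨Finset.mem_univ _, ?_⟩))
            rw [Finset.mem_union]
            rintro (h | h)
            · exact hxF h
            · exact hxZ h)
      (by
        intro x hx y hy hxy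
        rcases hclosed x hx y hxy with h | h
        · exact (Finset.mem_sdiff.1 hy).2 (Finset.mem_union_right _ h)
        · exact (Finset.mem_sdiff.1 hy).2 (Finset.mem_union_left _ h)) with h | h
    · exact h
    · omega
  have hZv : ∀ w ∈ Z, w = v := by
    intro w hw
    exact Finset.card_le_one.1 hZ1 w hw v hv
  have hnb1 : ∀ w, G.Adj v w → w ∈ F (g v) := by
    intro w hw
    rcases hclosed v hv w hw with h | h
    · exact absurd (hZv w h).symm hw.ne
    · exact h
  classical
  have hnbeq : (Finset.univ.filter fun w => G.Adj v w) = F (g v) := by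
    refine Finset.eq_of_subset_of_card_le ?_ ?_
    · intro w hw
      exact hnb1 w (Finset.mem_filter.1 hw).2
    · have := hC.deg V G hG.1 v (Finset.univ.filter fun w => G.Adj v w)
        (fun y hy => Finset.mem_filter.2 ⟨Finset.mem_univ _, hy⟩)
      omega
  refine ⟨v, F (g v), hF3, hvN, ?_, ?_, ?_, ?_⟩
  · exact fun h => Finset.disjoint_left.1 hE.ZR hv h
  · intro w
    refine ⟨hnb1 w, fun hw => ?_⟩
    rw [← hnbeq] at hw
    exact (Finset.mem_filter.1 hw).2
  · intro r hr
    exact hE.col r hr (Finset.notMem_empty _)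
  · intro x y hxv hyv hxy hκ
    have hxZ : x ∉ Z := fun h => hxv (hZv x h)
    have hyZ : y ∉ Z := fun h => hyv (hZv y h)
    have hg := hE.mono x y (Finset.notMem_empty _) hxZ (Finset.notMem_empty _) hyZ hxy hκ
    have hxF : x ∈ F (g x) := (hF _ _).2 ⟨Finset.notMem_empty _, hxZ, rfl⟩
    have hyF : y ∈ F (g x) := (hF _ _).2 ⟨Finset.notMem_empty _, hyZ, hg.symm⟩
    have hc2 : 2 ≤ (F (g x)).card := by
      have := Finset.one_lt_card.2 ⟨x, hxF, y, hyF, hxy.ne⟩
      omega
    have hgx : g x = g v := by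
      by_contra hne
      have := htwo (g x) (g v) hne
      omega
    rw [hgx] at hxF hyF
    exact ⟨hxF, hyF⟩

end Pool.Agent.Lib.MPded8ec.FI
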