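import Pool.Agent.Lib.MP_ded8ec_lc.FI.Spec
import Pool.Agent.Lib.MP_ded8ec_lc.FC.MTC

/-!
# MP_ded8ec_lc, internally 4-connected graphs, module SIX: a good triple with `|T| = 3`
-/

set_option autoImplicit false

namespace Pool.Agent.Lib.MPded8ec.FI

open Pool.Agent.Lib.MPded8ec.SG Pool.Agent.Lib.MPded8ec.FC

universe u

namespace SIXM

variable {V : Type u} [Fintype V] [DecidableEq V]

/-- Three nonempty closed sets: the third one has one element, and together with `T` they are
everything. -/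
theorem key (G : SimpleGraph V) (hI : IConn4 G) (T A₁ A₂ A₃ : Finset V) (hT : T.card = 3)
    (n₁ : A₁.Nonempty) (n₂ : A₂.Nonempty) (n₃ : A₃.Nonempty) (d₁₂ : Disjoint A₁ A₂)
    (d₁₃ : Disjoint A₁ A₃) (d₂₃ : Disjoint A₂ A₃) (t₁ : Disjoint A₁ T) (t₂ : Disjoint A₂ T)
    (t₃ : Disjoint A₃ T) (c₁ : ∀ x ∈ A₁, ∀ y, G.Adj x y → y ∈ A₁ ∨ y ∈ T)
    (c₂ : ∀ x ∈ A₂, ∀ y, G.Adj x y → y ∈ A₂ ∨ y ∈ T) :
    (∃ z, A₃ = {z}) ∧ ∀ v, v ∈ T ∨ v ∈ A₁ ∨ v ∈ A₂ ∨ v ∈ A₃ := by
  have hA : 2 ≤ (A₁ ∪ A₂).card := by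
    rw [Finset.card_union_of_disjoint d₁₂]
    have := Finset.card_pos.2 n₁
    have := Finset.card_pos.2 n₂
    omega
  have hsub : A₃ ⊆ Finset.univ \ (T ∪ (A₁ ∪ A₂)) := by
    intro v hv
    rw [Finset.mem_sdiff]
    refine ⟨Finset.mem_univ v, fun h => ?_⟩
    rcases Finset.mem_union.1 h with h | h
    · exact Finset.disjoint_left.1 t₃ hv h
    · rcases Finset.mem_union.1 h with h | h
      · exact Finset.disjoint_left.1 d₁₃ h hv
      · exact Finset.disjoint_left.1 d₂₃ h hv
  have hcase := hI.2 T (A₁ ∪ A₂) (Finset.univ \ (T ∪ (A₁ ∪ A₂))) hT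
    (Finset.disjoint_union_left.2 ⟨t₁, t₂⟩)
    (Finset.disjoint_left.2 fun v hv hv2 =>
      (Finset.mem_sdiff.1 hv).2 (Finset.mem_union_left _ hv2))
    (Finset.disjoint_left.2 fun v hv hv2 =>
      (Finset.mem_sdiff.1 hv2).2 (Finset.mem_union_right _ hv))
    (fun v => by
      by_cases h1 : v ∈ A₁ ∪ A₂
      · exact Or.inl h1
      · by_cases h2 : v ∈ T
        · exact Or.inr (Or.inr h2)
        · refine Or.inr (Or.inl (Finset.mem_sdiff.2 ⟨Finset.mem_univ v, fun h => ?_⟩))
          rcases Finset.mem_union.1 h with h | h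
          · exact h2 h
          · exact h1 h)
    (fun a ha b hb hab => by
      have hb2 := (Finset.mem_sdiff.1 hb).2
      rcases Finset.mem_union.1 ha with h | h
      · rcases c₁ a h b hab with h' | h'
        · exact hb2 (Finset.mem_union_right _ (Finset.mem_union_left _ h'))
        · exact hb2 (Finset.mem_union_left _ h')
      · rcases c₂ a h b hab with h' | h'
        · exact hb2 (Finset.mem_union_right _ (Finset.mem_union_right _ h'))
        · exact hb2 (Finset.mem_union_left _ h'))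
  have hB : (Finset.univ \ (T ∪ (A₁ ∪ A₂))).card ≤ 1 := by
    rcases hcase with h | h
    · omega
    · exact h
  have h3 : 1 ≤ A₃.card := Finset.card_pos.2 n₃
  have heq : A₃ = Finset.univ \ (T ∪ (A₁ ∪ A₂)) :=
    Finset.eq_of_subset_of_card_le hsub (hB.trans h3)
  have h31 : A₃.card = 1 := by
    have := Finset.card_le_card hsub
    omega
  refine ⟨Finset.card_eq_one.1 h31, fun v => ?_⟩
  by_cases hT' : v ∈ T
  · exact Or.inl hT'
  by_cases h1 : v ∈ A₁
  · exact Or.inr (Or.inl h1)
  by_cases h2 : v ∈ A₂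
  · exact Or.inr (Or.inr (Or.inl h2))
  refine Or.inr (Or.inr (Or.inr ?_))
  rw [heq, Finset.mem_sdiff]
  refine ⟨Finset.mem_univ v, fun h => ?_⟩
  rcases Finset.mem_union.1 h with h | h
  · exact hT' h
  · rcases Finset.mem_union.1 h with h | h
    · exact h1 h
    · exact h2 h

omit [Fintype V] in
/-- Two elements `q`, `r` of `T = {p, q, r}` which are not adjacent: `G - p` is bipartite. -/
theorem apx (G : SimpleGraph V) (T : Finset V) (hout : ∀ u v, u ∉ T → G.Adj u v → v ∈ T)
    (p q r : V) (hT : ∀ v ∈ T, v = p ∨ v = q ∨ v = r) (hqr : ¬ G.Adj q r) : Apex G := by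
  refine ⟨p, fun v => decide (v ∈ T), fun x y hx hy hxy => ?_⟩
  by_cases hxT : x ∈ T
  · by_cases hyT : y ∈ T
    · exfalso
      rcases hT x hxT with h | h | h
      · exact hx h
      · rcases hT y hyT with h' | h' | h'
        · exact hy h'
        · rw [h, h'] at hxy
          exact G.loopless.irrefl _ hxy
        · rw [h, h'] at hxy
          exact hqr hxy
      · rcases hT y hyT with h' | h' | h'
        · exact hy h'
        · rw [h, h'] at hxy
          exact hqr hxy.symm
        · rw [h, h'] at hxy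
          exact G.loopless.irrefl _ hxy
    · simp [hxT, hyT]
  · have hyT := hout x y hxT hxy
    simp [hxT, hyT]

end SIXM

open SIXM

theorem specSIX (hC : SpecCM3.{u}) : SpecSIX.{u} := by
  intro V _ _ G hI hB T K0 F hG
  classical
  obtain ⟨K, hK⟩ := hG.ne
  obtain ⟨x₀, hx₀⟩ := hG.con.1
  have cl : ∀ L ∈ F, ∀ x ∈ L, ∀ y, G.Adj x y → y ∈ L ∨ y ∈ T :=
    fun L hL x hx y hxy => hG.fam.nb L hL x hx y (Finset.mem_univ y) hxy
  have ne : ∀ L ∈ F, L.Nonempty := fun L hL => by
    obtain ⟨k, hk⟩ := hG.fam.odd L hL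
    exact Finset.card_pos.1 (by omega)
  have h3 : 3 ≤ T.card := hC.three V G hI.1 T K (ne K hK) (hG.fam.dis K hK) (cl K hK) x₀
    (fun h => Finset.disjoint_left.1 (hG.dk K hK) h hx₀)
    (fun h => Finset.disjoint_left.1 hG.dis hx₀ h)
  by_cases h4 : 4 ≤ T.card
  · exact Or.inl h4
  right
  have hT : T.card = 3 := by omega
  have hF : 1 < F.card := by
    have := hG.num
    omega
  obtain ⟨L, hL, hLK⟩ : ∃ L ∈ F, L ≠ K := Finset.exists_mem_ne hF K
  have dKL : Disjoint K L := hG.fam.pw K hK L hL hLK.symm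
  have dK0 : Disjoint K K0 := hG.dk K hK
  have dL0 : Disjoint L K0 := hG.dk L hL
  have tK : Disjoint K T := hG.fam.dis K hK
  have tL : Disjoint L T := hG.fam.dis L hL
  have n0 : K0.Nonempty := hG.con.1
  obtain ⟨⟨z, hz⟩, hcov⟩ := key G hI T K L K0 hT (ne K hK) (ne L hL) n0 dKL dK0 dL0 tK tL hG.dis
    (cl K hK) (cl L hL)
  obtain ⟨⟨y, hy⟩, -⟩ := key G hI T K K0 L hT (ne K hK) n0 (ne L hL) dK0 dKL dL0.symm tK hG.dis tL
    (cl K hK) hG.nb
  obtain ⟨⟨x, hx⟩, -⟩ := key G hI T L K0 K hT (ne L hL) n0 (ne K hK) dL0 dKL.symm dK0.symm tL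
    hG.dis tK (cl L hL) hG.nb
  -- the neighbours of a vertex outside of `T`
  have hout : ∀ u v, u ∉ T → G.Adj u v → v ∈ T := by
    intro u v hu huv
    rcases hcov u with h | h | h | h
    · exact absurd h hu
    · rcases cl K hK u h v huv with h' | h'
      · rw [hx, Finset.mem_singleton] at h h'
        rw [h, h'] at huv
        exact absurd huv (G.loopless.irrefl _)
      · exact h'
    · rcases cl L hL u h v huv with h' | h'
      · rw [hy, Finset.mem_singleton] at h h'
        rw [h, h'] at huv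
        exact absurd huv (G.loopless.irrefl _)
      · exact h'
    · rcases hG.nb u h v huv with h' | h'
      · rw [hz, Finset.mem_singleton] at h h'
        rw [h, h'] at huv
        exact absurd huv (G.loopless.irrefl _)
      · exact h'
  have hxT : x ∉ T := fun h => Finset.disjoint_left.1 tK (by rw [hx]; exact Finset.mem_singleton_self x) h
  have hxa : ∀ t ∈ T, G.Adj x t := by
    have h5 := hC.deg V G hI.1 x (T.filter fun t => G.Adj x t)
      (fun v hv => Finset.mem_filter.2 ⟨hout x v hxT hv, hv⟩)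
    have h6 : T.filter (fun t => G.Adj x t) = T :=
      Finset.eq_of_subset_of_card_le (Finset.filter_subset _ _) (by rw [hT]; exact h5)
    intro t ht
    rw [← h6] at ht
    exact (Finset.mem_filter.1 ht).2
  obtain ⟨p, q, r, hpq, hpr, hqr, hTe⟩ := Finset.card_eq_three.1 hT
  have hmem : ∀ v ∈ T, v = p ∨ v = q ∨ v = r := fun v hv => by
    rw [hTe] at hv
    simpa using hv
  have hp : p ∈ T := by rw [hTe]; simp
  have hq : q ∈ T := by rw [hTe]; simp
  have hr : r ∈ T := by rw [hTe]; simp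
  by_cases a1 : G.Adj p q
  swap
  · exact apx G T hout r p q (fun v hv => by rcases hmem v hv with h | h | h <;> tauto) a1
  by_cases a2 : G.Adj p r
  swap
  · exact apx G T hout q p r (fun v hv => by rcases hmem v hv with h | h | h <;> tauto) a2
  by_cases a3 : G.Adj q r
  swap
  · exact apx G T hout p q r hmem a3
  exfalso
  have xp : x ≠ p := fun h => hxT (h ▸ hp)
  have xq : x ≠ q := fun h => hxT (h ▸ hq)
  have xr : x ≠ r := fun h => hxT (h ▸ hr)
  obtain ⟨d, hd⟩ := hB {p, q, r, x}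
  have e1 : ({p, q, r, x} : Finset V) \ {p, q} = {r, x} := by
    ext v
    simp only [Finset.mem_sdiff, Finset.mem_insert, Finset.mem_singleton]
    constructor
    · tauto
    · rintro (rfl | rfl)
      · exact ⟨by tauto, by rintro (h | h); exacts [hpr h.symm, hqr h.symm]⟩
      · exact ⟨by tauto, by rintro (h | h); exacts [xp h, xq h]⟩
  have e2 : ({p, q, r, x} : Finset V) \ {p, r} = {q, x} := by
    ext v
    simp only [Finset.mem_sdiff, Finset.mem_insert, Finset.mem_singleton]
    constructor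
    · tauto
    · rintro (rfl | rfl)
      · exact ⟨by tauto, by rintro (h | h); exacts [hpq h.symm, hqr h]⟩
      · exact ⟨by tauto, by rintro (h | h); exacts [xp h, xr h]⟩
  have e3 : ({p, q, r, x} : Finset V) \ {q, r} = {p, x} := by
    ext v
    simp only [Finset.mem_sdiff, Finset.mem_insert, Finset.mem_singleton]
    constructor
    · tauto
    · rintro (rfl | rfl)
      · exact ⟨by tauto, by rintro (h | h); exacts [hpq h, hpr h]⟩
      · exact ⟨by tauto, by rintro (h | h); exacts [xq h, xr h]⟩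
  have d1 : d p ≠ d q := hd p (by simp) q (by simp) a1 (by
    rw [e1]; exact mtc_pair G r x (hxa r hr).symm)
  have d2 : d p ≠ d r := hd p (by simp) r (by simp) a2 (by
    rw [e2]; exact mtc_pair G q x (hxa q hq).symm)
  have d3 : d q ≠ d r := hd q (by simp) r (by simp) a3 (by
    rw [e3]; exact mtc_pair G p x (hxa p hp).symm)
  revert d1 d2 d3
  cases d p <;> cases d q <;> cases d r <;> simp

end Pool.Agent.Lib.MPded8ec.FI
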