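import Pool.Agent.Lib.MP_ded8ec_lc.FI.Spec

/-!
# Internally 4-connected Seymour graphs (MP_ded8ec_lc), module TGC (helper90)
-/

set_option autoImplicit false

namespace Pool.Agent.Lib.MPded8ec.FI

open Pool.Agent.Lib.MPded8ec.SG Pool.Agent.Lib.MPded8ec.FC

universe u

namespace TGCM

variable {V : Type u}

theorem nv_mono {G : SimpleGraph V} {T X Y : Finset V} (h : X ⊆ Y) : NV G T X ⊆ NV G T Y := by
  classical
  intro t ht
  unfold NV at ht ⊢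
  rw [Finset.mem_filter] at ht ⊢
  obtain ⟨h1, x, hx, h2⟩ := ht
  exact ⟨h1, x, h hx, h2⟩

theorem nv_union [DecidableEq V] {G : SimpleGraph V} {T X Y : Finset V} {t : V}
    (h : t ∈ NV G T (X ∪ Y)) : t ∈ NV G T X ∨ t ∈ NV G T Y := by
  classical
  unfold NV at h ⊢
  rw [Finset.mem_filter] at h
  rw [Finset.mem_filter, Finset.mem_filter]
  obtain ⟨h1, x, hx, h2⟩ := h
  rcases Finset.mem_union.1 hx with hx | hx
  · exact Or.inl ⟨h1, x, hx, h2⟩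
  · exact Or.inr ⟨h1, x, hx, h2⟩

/-- The smallest tight set without `i` with `p`, `q`, `r` in the neighbourhood. -/
theorem smallest [DecidableEq V] (hTGH : SpecTGH.{u}) (hTGM : SpecTGM.{u}) {G : SimpleGraph V}
    {T I : Finset V} (hH : HubE G T I) {i : V} (hi : i ∈ I) {p q r : V}
    (hpT : p ∈ T) (hqT : q ∈ T) (hrT : r ∈ T) (hnd : [p, q, r].Nodup) :
    ∃ Z, (Ti G T I Z ∧ i ∉ Z ∧ p ∈ NV G T Z ∧ q ∈ NV G T Z ∧ r ∈ NV G T Z) ∧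
      ∀ Y, (Ti G T I Y ∧ i ∉ Y ∧ p ∈ NV G T Y ∧ q ∈ NV G T Y ∧ r ∈ NV G T Y) → Z ⊆ Y := by
  refine hTGM V G T I hH
    (fun Z => Ti G T I Z ∧ i ∉ Z ∧ p ∈ NV G T Z ∧ q ∈ NV G T Z ∧ r ∈ NV G T Z) p q r hnd
    (fun X hX => ⟨hX.1, hX.2.2.1, hX.2.2.2.1, hX.2.2.2.2⟩) ?_ ?_ ?_
  · intro X Y hX hY h
    have : i ∈ X ∪ Y := h ▸ hi
    rcases Finset.mem_union.1 this with h | h
    · exact hX.2.1 h
    · exact hY.2.1 h
  · intro X Y hX hY h1 h2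
    refine ⟨h1, fun h => hX.2.1 (Finset.mem_inter.1 h).1, ?_, ?_, ?_⟩
    · rw [h2]; exact Finset.mem_inter.2 ⟨hX.2.2.1, hY.2.2.1⟩
    · rw [h2]; exact Finset.mem_inter.2 ⟨hX.2.2.2.1, hY.2.2.2.1⟩
    · rw [h2]; exact Finset.mem_inter.2 ⟨hX.2.2.2.2, hY.2.2.2.2⟩
  · obtain ⟨h1, h2⟩ := hTGH.one V G T I hH i hi
    exact ⟨I.erase i, h1, Finset.notMem_erase i I, h2.symm ▸ hpT, h2.symm ▸ hqT, h2.symm ▸ hrT⟩

/-- The smallest tight set without `i` with four points in the neighbourhood. -/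
theorem smallest4 [DecidableEq V] (hTGH : SpecTGH.{u}) (hTGM : SpecTGM.{u}) {G : SimpleGraph V}
    {T I : Finset V} (hH : HubE G T I) {i : V} (hi : i ∈ I) {p q r s : V}
    (hpT : p ∈ T) (hqT : q ∈ T) (hrT : r ∈ T) (hsT : s ∈ T) (hnd : [p, q, r].Nodup) :
    ∃ Z, (Ti G T I Z ∧ i ∉ Z ∧ p ∈ NV G T Z ∧ q ∈ NV G T Z ∧ r ∈ NV G T Z ∧ s ∈ NV G T Z) ∧
      ∀ Y, (Ti G T I Y ∧ i ∉ Y ∧ p ∈ NV G T Y ∧ q ∈ NV G T Y ∧ r ∈ NV G T Y ∧ s ∈ NV G T Y) →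
        Z ⊆ Y := by
  refine hTGM V G T I hH
    (fun Z => Ti G T I Z ∧ i ∉ Z ∧ p ∈ NV G T Z ∧ q ∈ NV G T Z ∧ r ∈ NV G T Z ∧ s ∈ NV G T Z)
    p q r hnd (fun X hX => ⟨hX.1, hX.2.2.1, hX.2.2.2.1, hX.2.2.2.2.1⟩) ?_ ?_ ?_
  · intro X Y hX hY h
    have : i ∈ X ∪ Y := h ▸ hi
    rcases Finset.mem_union.1 this with h | h
    · exact hX.2.1 h
    · exact hY.2.1 h
  · intro X Y hX hY h1 h2
    refine ⟨h1, fun h => hX.2.1 (Finset.mem_inter.1 h).1, ?_, ?_, ?_, ?_⟩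
    · rw [h2]; exact Finset.mem_inter.2 ⟨hX.2.2.1, hY.2.2.1⟩
    · rw [h2]; exact Finset.mem_inter.2 ⟨hX.2.2.2.1, hY.2.2.2.1⟩
    · rw [h2]; exact Finset.mem_inter.2 ⟨hX.2.2.2.2.1, hY.2.2.2.2.1⟩
    · rw [h2]; exact Finset.mem_inter.2 ⟨hX.2.2.2.2.2, hY.2.2.2.2.2⟩
  · obtain ⟨h1, h2⟩ := hTGH.one V G T I hH i hi
    exact ⟨I.erase i, h1, Finset.notMem_erase i I, h2.symm ▸ hpT, h2.symm ▸ hqT, h2.symm ▸ hrT,
      h2.symm ▸ hsT⟩

/-- The smallest element of the family `P_a`: tight, `p`, `q`, `r` in the neighbourhood, `s` not. -/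
theorem smallestN [DecidableEq V] (hTGH : SpecTGH.{u}) (hTGM : SpecTGM.{u}) {G : SimpleGraph V}
    {T I : Finset V} (hH : HubE G T I) {p q r s : V} (hsT : s ∈ T) (hnd : [p, q, r].Nodup)
    (hex : ∃ Z, Ti G T I Z ∧ s ∉ NV G T Z ∧ p ∈ NV G T Z ∧ q ∈ NV G T Z ∧ r ∈ NV G T Z) :
    ∃ Z, (Ti G T I Z ∧ s ∉ NV G T Z ∧ p ∈ NV G T Z ∧ q ∈ NV G T Z ∧ r ∈ NV G T Z) ∧
      ∀ Y, (Ti G T I Y ∧ s ∉ NV G T Y ∧ p ∈ NV G T Y ∧ q ∈ NV G T Y ∧ r ∈ NV G T Y) → Z ⊆ Y := by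
  refine hTGM V G T I hH
    (fun Z => Ti G T I Z ∧ s ∉ NV G T Z ∧ p ∈ NV G T Z ∧ q ∈ NV G T Z ∧ r ∈ NV G T Z) p q r hnd
    (fun X hX => ⟨hX.1, hX.2.2.1, hX.2.2.2.1, hX.2.2.2.2⟩) ?_ ?_ hex
  · intro X Y hX hY h
    have h0 : s ∈ NV G T (X ∪ Y) := by
      rw [h, hTGH.all V G T I hH]
      exact hsT
    rcases nv_union h0 with h | h
    · exact hX.2.1 h
    · exact hY.2.1 h
  · intro X Y hX hY h1 h2
    refine ⟨h1, fun h => hX.2.1 (nv_mono Finset.inter_subset_left h), ?_, ?_, ?_⟩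
    · rw [h2]; exact Finset.mem_inter.2 ⟨hX.2.2.1, hY.2.2.1⟩
    · rw [h2]; exact Finset.mem_inter.2 ⟨hX.2.2.2.1, hY.2.2.2.1⟩
    · rw [h2]; exact Finset.mem_inter.2 ⟨hX.2.2.2.2, hY.2.2.2.2⟩

/-- Step (2): a bottom below `Y`. -/
theorem exists_bot [DecidableEq V] {G : SimpleGraph V} {T I : Finset V} {i a b : V}
    {Y : Finset V} (hY : Ti G T I Y) (hi : i ∉ Y) (ha : a ∈ NV G T Y) (hb : b ∈ NV G T Y) :
    ∃ X, X ⊆ Y ∧ Bot G T I i a b X := by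
  classical
  have h0 : ∃ n, ∃ X, X ⊆ Y ∧ Ti G T I X ∧ a ∈ NV G T X ∧ b ∈ NV G T X ∧ X.card = n :=
    ⟨_, Y, subset_rfl, hY, ha, hb, rfl⟩
  obtain ⟨X, h1, h2, h3, h4, h5⟩ := Nat.find_spec h0
  refine ⟨X, h1, h2, fun h => hi (h1 h), h3, h4, ?_⟩
  intro Z hZ _ hZa hZb hZX
  refine Finset.eq_of_subset_of_card_le hZX ?_
  rw [h5]
  exact Nat.find_min' h0 ⟨Z, hZX.trans h1, hZ, hZa, hZb, rfl⟩

/-- Step (1). -/
theorem edge [DecidableEq V] (hTGH : SpecTGH.{u}) {G : SimpleGraph V} {T I : Finset V}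
    (hH : HubE G T I) {i a c d : V} (hi : i ∈ I) {X Z : Finset V} (hX : Ti G T I X)
    (hiX : i ∉ X) (haX : a ∈ NV G T X) (hZ : Ti G T I Z) (hiZ : i ∉ Z) (haZ : a ∈ NV G T Z)
    (hmin : ∀ Y, (Ti G T I Y ∧ i ∉ Y ∧ a ∈ NV G T Y ∧ c ∈ NV G T Y ∧ d ∈ NV G T Y) → Z ⊆ Y)
    (hne : (X ∩ Z).Nonempty) : ∃ j ∈ X, G.Adj j a ∧ Fr G T I i a c d j := by
  classical
  have h0 : X ∪ Z ≠ I := by
    intro h
    have : i ∈ X ∪ Z := h ▸ hi
    rcases Finset.mem_union.1 this with h | h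
    · exact hiX h
    · exact hiZ h
  obtain ⟨_, h2⟩ := hTGH.cap V G T I hH X Z hX hZ h0 hne
  have h3 : a ∈ NV G T (X ∩ Z) := by
    rw [h2]
    exact Finset.mem_inter.2 ⟨haX, haZ⟩
  unfold NV at h3
  rw [Finset.mem_filter] at h3
  obtain ⟨_, j, hj, hja⟩ := h3
  refine ⟨j, (Finset.mem_inter.1 hj).1, hja, ?_⟩
  intro Y hY hiY haY hcY hdY
  exact hmin Y ⟨hY, hiY, haY, hcY, hdY⟩ (Finset.mem_inter.1 hj).2

/-- The two cases of step (4), in the form which we use: either the smallest set for `i` is `Y i`, or the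
family `P_a` has an element without `i`. -/
theorem four [DecidableEq V] {G : SimpleGraph V} {T I : Finset V} {i a b c d : V}
    {Z Y : Finset V} (hZ : Ti G T I Z ∧ i ∉ Z ∧ a ∈ NV G T Z ∧ c ∈ NV G T Z ∧ d ∈ NV G T Z)
    (hmin : ∀ Y', (Ti G T I Y' ∧ i ∉ Y' ∧ a ∈ NV G T Y' ∧ c ∈ NV G T Y' ∧ d ∈ NV G T Y') → Z ⊆ Y')
    (hY : Ti G T I Y ∧ i ∉ Y ∧ a ∈ NV G T Y ∧ b ∈ NV G T Y ∧ c ∈ NV G T Y ∧ d ∈ NV G T Y)
    (hYmin : ∀ Y', (Ti G T I Y' ∧ i ∉ Y' ∧ a ∈ NV G T Y' ∧ b ∈ NV G T Y' ∧ c ∈ NV G T Y' ∧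
      d ∈ NV G T Y') → Y ⊆ Y') (hb : b ∈ NV G T Z) : Z = Y :=
  Finset.Subset.antisymm (hmin Y ⟨hY.1, hY.2.1, hY.2.2.1, hY.2.2.2.2.1, hY.2.2.2.2.2⟩)
    (hYmin Z ⟨hZ.1, hZ.2.1, hZ.2.2.1, hb, hZ.2.2.2.1, hZ.2.2.2.2⟩)

end TGCM

open TGCM in
theorem specTGC (hTGH : SpecTGH.{u}) (hTGM : SpecTGM.{u}) : SpecTGC.{u} := by
  intro V _ G T I hH a b c d ha hb hc hd hnd
  classical
  have hnd' := hnd
  simp only [List.nodup_cons, List.mem_cons, List.not_mem_nil, or_false, not_or,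
    not_false_eq_true, List.nodup_nil, and_true] at hnd'
  obtain ⟨⟨hab, hac, had⟩, ⟨hbc, hbd⟩, hcd⟩ := hnd'
  have hacd : [a, c, d].Nodup := by simp [hac, had, hcd]
  have hbcd : [b, c, d].Nodup := by simp [hbc, hbd, hcd]
  -- it is enough to find `i` and a bottom which meets `Za i` and `Zb i`
  have key : ∀ i ∈ I, ∀ Za Zb X : Finset V,
      (Ti G T I Za ∧ i ∉ Za ∧ a ∈ NV G T Za ∧ c ∈ NV G T Za ∧ d ∈ NV G T Za) →
      (∀ Y, (Ti G T I Y ∧ i ∉ Y ∧ a ∈ NV G T Y ∧ c ∈ NV G T Y ∧ d ∈ NV G T Y) → Za ⊆ Y) →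
      (Ti G T I Zb ∧ i ∉ Zb ∧ b ∈ NV G T Zb ∧ c ∈ NV G T Zb ∧ d ∈ NV G T Zb) →
      (∀ Y, (Ti G T I Y ∧ i ∉ Y ∧ b ∈ NV G T Y ∧ c ∈ NV G T Y ∧ d ∈ NV G T Y) → Zb ⊆ Y) →
      Bot G T I i a b X → (X ∩ Za).Nonempty → (X ∩ Zb).Nonempty →
      ∃ i ∈ I, ∃ X, Bot G T I i a b X ∧ (∃ j ∈ X, G.Adj j a ∧ Fr G T I i a c d j) ∧
        ∃ j ∈ X, G.Adj j b ∧ Fr G T I i b c d j := by
    intro i hi Za Zb X h1 h2 h3 h4 hX h5 h6
    exact ⟨i, hi, X, hX, edge hTGH hH hi hX.ti hX.ni hX.ha h1.1 h1.2.1 h1.2.2.1 h2 h5,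
      edge hTGH hH hi hX.ti hX.ni hX.hb h3.1 h3.2.1 h3.2.2.1 h4 h6⟩
  -- if no element of `P_a` and no element of `P_b` avoids `i`
  have five : ∀ i ∈ I,
      (∀ Z, (Ti G T I Z ∧ b ∉ NV G T Z ∧ a ∈ NV G T Z ∧ c ∈ NV G T Z ∧ d ∈ NV G T Z) → i ∈ Z) →
      (∀ Z, (Ti G T I Z ∧ a ∉ NV G T Z ∧ b ∈ NV G T Z ∧ c ∈ NV G T Z ∧ d ∈ NV G T Z) → i ∈ Z) →
      ∃ i ∈ I, ∃ X, Bot G T I i a b X ∧ (∃ j ∈ X, G.Adj j a ∧ Fr G T I i a c d j) ∧
        ∃ j ∈ X, G.Adj j b ∧ Fr G T I i b c d j := by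
    intro i hi h1 h2
    obtain ⟨Za, ha1, ha2⟩ := smallest hTGH hTGM hH hi ha hc hd hacd
    obtain ⟨Zb, hb1, hb2⟩ := smallest hTGH hTGM hH hi hb hc hd hbcd
    obtain ⟨Y, hY1, hY2⟩ := smallest4 hTGH hTGM hH hi (s := d) ha hb hc hd
      (by simp [hab, hac, hbc])
    have e1 : Za = Y := four ha1 ha2 hY1 hY2 (by
      by_contra h
      exact ha1.2.1 (h1 Za ⟨ha1.1, h, ha1.2.2⟩))
    have e2 : Zb = Y := four (a := b) (b := a) hb1 hb2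
      ⟨hY1.1, hY1.2.1, hY1.2.2.2.1, hY1.2.2.1, hY1.2.2.2.2⟩
      (fun Y' h => hY2 Y' ⟨h.1, h.2.1, h.2.2.2.1, h.2.2.1, h.2.2.2.2⟩) (by
        by_contra h
        exact hb1.2.1 (h2 Zb ⟨hb1.1, h, hb1.2.2⟩))
    obtain ⟨X, hXY, hX⟩ := exists_bot hY1.1 hY1.2.1 hY1.2.2.1 hY1.2.2.2.1
    have hXn : (X ∩ Y).Nonempty := by
      rw [Finset.inter_eq_left.2 hXY]
      exact hX.ti.ne
    exact key i hi Za Zb X ha1 ha2 hb1 hb2 hX (e1.symm ▸ hXn) (e2.symm ▸ hXn)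
  have hIne : I.Nonempty := Finset.card_pos.1 (by have := hH.two; omega)
  by_cases hPa : ∃ Z, Ti G T I Z ∧ b ∉ NV G T Z ∧ a ∈ NV G T Z ∧ c ∈ NV G T Z ∧ d ∈ NV G T Z
  · obtain ⟨Za, hZa, hZamin⟩ := smallestN hTGH hTGM hH hb hacd hPa
    by_cases hPb : ∃ Z, Ti G T I Z ∧ a ∉ NV G T Z ∧ b ∈ NV G T Z ∧ c ∈ NV G T Z ∧ d ∈ NV G T Z
    · obtain ⟨Zb, hZb, hZbmin⟩ := smallestN hTGH hTGM hH ha hbcd hPb
      by_cases hcap : (Za ∩ Zb).Nonempty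
      · obtain ⟨i, hi⟩ := hcap
        rw [Finset.mem_inter] at hi
        exact five i (hZa.1.sub hi.1) (fun Z hZ => hZamin Z hZ hi.1) (fun Z hZ => hZbmin Z hZ hi.2)
      · have hdis : Za ∩ Zb = ∅ := Finset.not_nonempty_iff_eq_empty.1 hcap
        -- the smallest set for `i` which is not in `Za`
        have mina : ∀ i, i ∉ Za →
            ∀ Y, (Ti G T I Y ∧ i ∉ Y ∧ a ∈ NV G T Y ∧ c ∈ NV G T Y ∧ d ∈ NV G T Y) →
              (∃ W, W ⊆ Y ∧ W ⊆ Za ∧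
                (Ti G T I W ∧ i ∉ W ∧ a ∈ NV G T W ∧ c ∈ NV G T W ∧ d ∈ NV G T W)) → Za ⊆ Y := by
          intro i _ Y _ ⟨W, hWY, hWZ, hW⟩
          exact (hZamin W ⟨hW.1, fun h => hZa.2.1 (nv_mono hWZ h), hW.2.2⟩).trans hWY
        have minb : ∀ i, i ∉ Zb →
            ∀ Y, (Ti G T I Y ∧ i ∉ Y ∧ b ∈ NV G T Y ∧ c ∈ NV G T Y ∧ d ∈ NV G T Y) →
              (∃ W, W ⊆ Y ∧ W ⊆ Zb ∧
                (Ti G T I W ∧ i ∉ W ∧ b ∈ NV G T W ∧ c ∈ NV G T W ∧ d ∈ NV G T W)) → Zb ⊆ Y := by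
          intro i _ Y _ ⟨W, hWY, hWZ, hW⟩
          exact (hZbmin W ⟨hW.1, fun h => hZb.2.1 (nv_mono hWZ h), hW.2.2⟩).trans hWY
        have Amin : ∀ i ∈ I, i ∉ Za →
            ∀ Y, (Ti G T I Y ∧ i ∉ Y ∧ a ∈ NV G T Y ∧ c ∈ NV G T Y ∧ d ∈ NV G T Y) → Za ⊆ Y := by
          intro i hi hiZ Y hY
          obtain ⟨W, hW1, hW2⟩ := smallest hTGH hTGM hH hi ha hc hd hacd
          exact mina i hiZ Y hY ⟨W, hW2 Y hY, hW2 Za ⟨hZa.1, hiZ, hZa.2.2⟩, hW1⟩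
        have Bmin : ∀ i ∈ I, i ∉ Zb →
            ∀ Y, (Ti G T I Y ∧ i ∉ Y ∧ b ∈ NV G T Y ∧ c ∈ NV G T Y ∧ d ∈ NV G T Y) → Zb ⊆ Y := by
          intro i hi hiZ Y hY
          obtain ⟨W, hW1, hW2⟩ := smallest hTGH hTGM hH hi hb hc hd hbcd
          exact minb i hiZ Y hY ⟨W, hW2 Y hY, hW2 Zb ⟨hZb.1, hiZ, hZb.2.2⟩, hW1⟩
        by_cases hcov : ∃ i ∈ I, i ∉ Za ∪ Zb
        · -- case (6)
          obtain ⟨i, hi, hiZ⟩ := hcov
          have hiA : i ∉ Za := fun h => hiZ (Finset.mem_union_left _ h)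
          have hiB : i ∉ Zb := fun h => hiZ (Finset.mem_union_right _ h)
          have hneI : Za ∪ Zb ≠ I := fun h => hiZ (h ▸ hi)
          have htwo : 2 ≤ (NV G T Za ∩ NV G T Zb).card := by
            have h1 : ({c, d} : Finset V) ⊆ NV G T Za ∩ NV G T Zb := by
              intro x hx
              rw [Finset.mem_insert, Finset.mem_singleton] at hx
              rcases hx with rfl | rfl
              · exact Finset.mem_inter.2 ⟨hZa.2.2.2.1, hZb.2.2.2.1⟩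
              · exact Finset.mem_inter.2 ⟨hZa.2.2.2.2, hZb.2.2.2.2⟩
            have h2 := Finset.card_le_card h1
            rwa [Finset.card_pair hcd] at h2
          have hU : Ti G T I (Za ∪ Zb) := hTGH.cup V G T I hH Za Zb hZa.1 hZb.1 hneI htwo
          obtain ⟨X, hXY, hX⟩ := exists_bot (i := i) (a := a) (b := b) hU hiZ
            (nv_mono Finset.subset_union_left hZa.2.2.1)
            (nv_mono Finset.subset_union_right hZb.2.2.1)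
          have hXA : (X ∩ Za).Nonempty := by
            by_contra h
            rw [Finset.not_nonempty_iff_eq_empty] at h
            have h1 : X ⊆ Zb := by
              intro x hx
              rcases Finset.mem_union.1 (hXY hx) with h2 | h2
              · exact absurd (Finset.mem_inter.2 ⟨hx, h2⟩) (by rw [h]; exact Finset.notMem_empty x)
              · exact h2
            exact hZb.2.1 (nv_mono h1 hX.ha)
          have hXB : (X ∩ Zb).Nonempty := by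
            by_contra h
            rw [Finset.not_nonempty_iff_eq_empty] at h
            have h1 : X ⊆ Za := by
              intro x hx
              rcases Finset.mem_union.1 (hXY hx) with h2 | h2
              · exact h2
              · exact absurd (Finset.mem_inter.2 ⟨hx, h2⟩) (by rw [h]; exact Finset.notMem_empty x)
            exact hZa.2.1 (nv_mono h1 hX.hb)
          exact key i hi Za Zb X ⟨hZa.1, hiA, hZa.2.2⟩ (Amin i hi hiA) ⟨hZb.1, hiB, hZb.2.2⟩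
            (Bmin i hi hiB) hX hXA hXB
        · -- case (7)
          push Not at hcov
          obtain ⟨i, hi⟩ := hZa.1.ne
          have hiI : i ∈ I := hZa.1.sub hi
          have hiB : i ∉ Zb := fun h => by
            have := Finset.mem_inter.2 ⟨hi, h⟩
            rw [hdis] at this
            exact Finset.notMem_empty i this
          obtain ⟨Za', ha1, ha2⟩ := smallest hTGH hTGM hH hiI ha hc hd hacd
          obtain ⟨Y, hY1, hY2⟩ := smallest4 hTGH hTGM hH hiI (s := d) ha hb hc hd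
            (by simp [hab, hac, hbc])
          have e1 : Za' = Y := four ha1 ha2 hY1 hY2 (by
            by_contra h
            exact ha1.2.1 (hZamin Za' ⟨ha1.1, h, ha1.2.2⟩ hi))
          obtain ⟨X, hXY, hX⟩ := exists_bot hY1.1 hY1.2.1 hY1.2.2.1 hY1.2.2.2.1
          have hXn : (X ∩ Y).Nonempty := by
            rw [Finset.inter_eq_left.2 hXY]
            exact hX.ti.ne
          have hXB : (X ∩ Zb).Nonempty := by
            by_contra h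
            rw [Finset.not_nonempty_iff_eq_empty] at h
            have h1 : X ⊆ Za := by
              intro x hx
              rcases Finset.mem_union.1 (hcov x (hX.ti.sub hx)) with h2 | h2
              · exact h2
              · exact absurd (Finset.mem_inter.2 ⟨hx, h2⟩) (by rw [h]; exact Finset.notMem_empty x)
            exact hZa.2.1 (nv_mono h1 hX.hb)
          exact key i hiI Za' Zb X ha1 ha2 ⟨hZb.1, hiB, hZb.2.2⟩ (Bmin i hiI hiB) hX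
            (e1.symm ▸ hXn) hXB
    · obtain ⟨i, hi⟩ := hZa.1.ne
      exact five i (hZa.1.sub hi) (fun Z hZ => hZamin Z hZ hi) (fun Z hZ => (hPb ⟨Z, hZ⟩).elim)
  · by_cases hPb : ∃ Z, Ti G T I Z ∧ a ∉ NV G T Z ∧ b ∈ NV G T Z ∧ c ∈ NV G T Z ∧ d ∈ NV G T Z
    · obtain ⟨Zb, hZb, hZbmin⟩ := smallestN hTGH hTGM hH ha hbcd hPb
      obtain ⟨i, hi⟩ := hZb.1.ne
      exact five i (hZb.1.sub hi) (fun Z hZ => (hPa ⟨Z, hZ⟩).elim) (fun Z hZ => hZbmin Z hZ hi)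
    · obtain ⟨i, hi⟩ := hIne
      exact five i hi (fun Z hZ => (hPa ⟨Z, hZ⟩).elim) (fun Z hZ => (hPb ⟨Z, hZ⟩).elim)

end Pool.Agent.Lib.MPded8ec.FI
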