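import Pool.Agent.Lib.MP_ded8ec_lc.FI.Spec

/-! # Module TGH of FI (MP_ded8ec_lc): the lattice of the tight sets of a hub -/

set_option autoImplicit false

namespace Pool.Agent.Lib.MPded8ec.FI

open Pool.Agent.Lib.MPded8ec.SG Pool.Agent.Lib.MPded8ec.FC

universe u

namespace TGHM

variable {V : Type u} {G : SimpleGraph V} {T I : Finset V}

lemma mem_NV {X : Finset V} {t : V} : t ∈ NV G T X ↔ t ∈ T ∧ ∃ x ∈ X, G.Adj x t := by
  simp only [NV, Finset.mem_filter]

lemma NV_sub (X : Finset V) : NV G T X ⊆ T := fun _ ht => (mem_NV.1 ht).1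

lemma NV_mono {X Y : Finset V} (h : X ⊆ Y) : NV G T X ⊆ NV G T Y := by
  intro t ht
  obtain ⟨h1, x, hx, h2⟩ := mem_NV.1 ht
  exact mem_NV.2 ⟨h1, x, h hx, h2⟩

variable [DecidableEq V]

lemma NV_union (X Y : Finset V) : NV G T (X ∪ Y) = NV G T X ∪ NV G T Y := by
  ext t
  rw [Finset.mem_union, mem_NV, mem_NV, mem_NV]
  constructor
  · rintro ⟨h1, x, hx, h2⟩
    rcases Finset.mem_union.1 hx with h | h
    · exact Or.inl ⟨h1, x, h, h2⟩
    · exact Or.inr ⟨h1, x, h, h2⟩
  · rintro (⟨h1, x, hx, h2⟩ | ⟨h1, x, hx, h2⟩)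
    · exact ⟨h1, x, Finset.mem_union_left _ hx, h2⟩
    · exact ⟨h1, x, Finset.mem_union_right _ hx, h2⟩

lemma NV_inter (X Y : Finset V) : NV G T (X ∩ Y) ⊆ NV G T X ∩ NV G T Y :=
  Finset.subset_inter (NV_mono Finset.inter_subset_left) (NV_mono Finset.inter_subset_right)

/-- The counting identity. -/
lemma count {X Y : Finset V} (hX : Ti G T I X) (hY : Ti G T I Y) :
    (NV G T (X ∪ Y)).card + (NV G T X ∩ NV G T Y).card = (X ∪ Y).card + (X ∩ Y).card + 4 := by
  have h1 := Finset.card_union_add_card_inter (NV G T X) (NV G T Y)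
  have h2 := Finset.card_union_add_card_inter X Y
  rw [NV_union]
  have h3 := hX.eq
  have h4 := hY.eq
  omega

lemma union_ge (h : HubE G T I) {X Y : Finset V} (hX : Ti G T I X) (hY : Ti G T I Y)
    (hne : X ∪ Y ≠ I) : (X ∪ Y).card + 2 ≤ (NV G T (X ∪ Y)).card :=
  h.sur _ (Finset.union_subset hX.sub hY.sub) (hX.ne.mono Finset.subset_union_left) hne

lemma inter_ge (h : HubE G T I) {X Y : Finset V} (hX : Ti G T I X)
    (hne : (X ∩ Y).Nonempty) : (X ∩ Y).card + 2 ≤ (NV G T (X ∩ Y)).card := by
  refine h.sur _ (Finset.inter_subset_left.trans hX.sub) hne fun h1 => ?_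
  exact hX.prop (Finset.Subset.antisymm hX.sub (h1 ▸ Finset.inter_subset_left))

end TGHM

open TGHM in
theorem specTGH : SpecTGH.{u} where
  cap := by
    intro V _ G T I h X Y hX hY hne hn
    have h1 := count hX hY
    have h2 := union_ge h hX hY hne
    have h3 := inter_ge h hX hn
    have h4 := Finset.card_le_card (NV_inter (G := G) (T := T) X Y)
    have h5 : NV G T (X ∩ Y) = NV G T X ∩ NV G T Y :=
      Finset.eq_of_subset_of_card_le (NV_inter X Y) (by omega)
    refine ⟨⟨Finset.inter_subset_left.trans hX.sub, hn, fun h6 => ?_, by omega⟩, h5⟩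
    exact hX.prop (Finset.Subset.antisymm hX.sub (h6 ▸ Finset.inter_subset_left))
  cup := by
    intro V _ G T I h X Y hX hY hne hn
    have h1 := count hX hY
    have h2 := union_ge h hX hY hne
    refine ⟨Finset.union_subset hX.sub hY.sub, hX.ne.mono Finset.subset_union_left, hne, ?_⟩
    rcases (X ∩ Y).eq_empty_or_nonempty with h3 | h3
    · rw [h3, Finset.card_empty] at h1
      omega
    · have h4 := inter_ge h hX h3
      have h5 := Finset.card_le_card (NV_inter (G := G) (T := T) X Y)
      omega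
  meet := by
    intro V _ G T I h X Y hX hY hne hn
    by_contra h3
    rw [Finset.not_nonempty_iff_eq_empty] at h3
    have h1 := count hX hY
    have h2 := union_ge h hX hY hne
    rw [h3, Finset.card_empty] at h1
    omega
  one := by
    intro V _ G T I h i hi
    have h2 := h.two
    have h3 := h.eq
    have h4 : (I.erase i).card = I.card - 1 := Finset.card_erase_of_mem hi
    have hne : (I.erase i).Nonempty := Finset.card_pos.1 (by omega)
    have hp : I.erase i ≠ I := fun h5 => by
      rw [h5] at h4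
      omega
    have h5 := h.sur _ (Finset.erase_subset i I) hne hp
    have h6 : NV G T (I.erase i) = T :=
      Finset.eq_of_subset_of_card_le (NV_sub _) (by omega)
    refine ⟨⟨Finset.erase_subset i I, hne, hp, ?_⟩, h6⟩
    rw [h6]
    omega
  all := by
    intro V _ G T I h
    have h2 := h.two
    have h3 := h.eq
    obtain ⟨i, hi⟩ : I.Nonempty := Finset.card_pos.1 (by omega)
    have h4 : (I.erase i).card = I.card - 1 := Finset.card_erase_of_mem hi
    have hne : (I.erase i).Nonempty := Finset.card_pos.1 (by omega)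
    have hp : I.erase i ≠ I := fun h5 => by
      rw [h5] at h4
      omega
    have h5 := h.sur _ (Finset.erase_subset i I) hne hp
    have h6 : NV G T (I.erase i) = T :=
      Finset.eq_of_subset_of_card_le (NV_sub _) (by omega)
    refine Finset.Subset.antisymm (NV_sub _) ?_
    conv_lhs => rw [← h6]
    exact NV_mono (Finset.erase_subset i I)

end Pool.Agent.Lib.MPded8ec.FI
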