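import Pool.Agent.Lib.MP_ded8ec_lc.FI.Spec

/-!
# Internally 4-connected Seymour graphs (MP_ded8ec_lc), module TGM (helper10)
-/

set_option autoImplicit false

namespace Pool.Agent.Lib.MPded8ec.FI

open Pool.Agent.Lib.MPded8ec.SG Pool.Agent.Lib.MPded8ec.FC

universe u

theorem specTGM (h : SpecTGH.{u}) : SpecTGM.{u} := by
  intro V _ G T I hub P p q r hnd hP hun hcap hex
  classical
  have hex' : ∃ n : ℕ, ∃ X, P X ∧ X.card = n := by
    obtain ⟨X, hX⟩ := hex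
    exact ⟨X.card, X, hX, rfl⟩
  obtain ⟨Z, hZ, hc⟩ := Nat.find_spec hex'
  refine ⟨Z, hZ, fun Y hY => ?_⟩
  obtain ⟨hZt, hZp, hZq, hZr⟩ := hP Z hZ
  obtain ⟨hYt, hYp, hYq, hYr⟩ := hP Y hY
  have hsub : ({p, q, r} : Finset V) ⊆ NV G T Z ∩ NV G T Y := by
    intro x hx
    rw [Finset.mem_insert, Finset.mem_insert, Finset.mem_singleton] at hx
    rw [Finset.mem_inter]
    rcases hx with rfl | rfl | rfl
    · exact ⟨hZp, hYp⟩
    · exact ⟨hZq, hYq⟩
    · exact ⟨hZr, hYr⟩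
  have hcard : ({p, q, r} : Finset V).card = 3 := by
    have h1 : p ≠ q ∧ p ≠ r ∧ q ≠ r := by
      simp only [List.nodup_cons, List.mem_cons, List.not_mem_nil, or_false, not_or,
        not_false_eq_true, List.nodup_nil, and_true] at hnd
      exact ⟨hnd.1.1, hnd.1.2, hnd.2⟩
    rw [Finset.card_eq_three]
    exact ⟨p, q, r, h1.1, h1.2.1, h1.2.2, rfl⟩
  have h3 : 3 ≤ (NV G T Z ∩ NV G T Y).card := by
    rw [← hcard]
    exact Finset.card_le_card hsub
  have hne := h.meet V G T I hub Z Y hZt hYt (hun Z Y hZ hY) h3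
  obtain ⟨h4, h5⟩ := h.cap V G T I hub Z Y hZt hYt (hun Z Y hZ hY) hne
  have h6 := hcap Z Y hZ hY h4 h5
  have h7 : Nat.find hex' ≤ (Z ∩ Y).card := Nat.find_min' hex' ⟨Z ∩ Y, h6, rfl⟩
  have h8 : Z ∩ Y = Z := Finset.eq_of_subset_of_card_le Finset.inter_subset_left (by omega)
  rw [← h8]
  exact Finset.inter_subset_right

end Pool.Agent.Lib.MPded8ec.FI
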