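import Pool.Agent.Lib.MP_ded8ec_lc.FI.Spec
import Pool.Agent.Lib.MP_ded8ec_lc.SG.TRI

/-!
# Internally 4-connected Seymour graphs (MP_ded8ec_lc), module TR3 (helper54, after SG/TRI of helper45)
-/

set_option autoImplicit false

namespace Pool.Agent.Lib.MPded8ec.FI

open Pool.Agent.Lib.MPded8ec.SG Pool.Agent.Lib.MPded8ec.FC

universe u

theorem specTR3 (hFA3 : SpecFA3.{u}) : SpecTR3.{u} := by
  intro V _ G hG R c κ t₁ t₂ t₃ hT b hb
  have n12 : t₁ ≠ t₂ := hT.a₁₂.ne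
  have n13 : t₁ ≠ t₃ := hT.a₁₃.ne
  have n23 : t₂ ≠ t₃ := hT.a₂₃.ne
  have nb1 : b ≠ t₁ := by
    rintro rfl; exact hb rfl
  have nb2 : b ≠ t₂ := by
    rintro rfl; exact hb hT.k₁₂.symm
  have nb3 : b ≠ t₃ := by
    rintro rfl; exact hb hT.k₁₃.symm
  obtain ⟨l₁, l₂, l₃, hnd, h1, h2, h3⟩ := hFA3 V G hG b t₁ t₂ t₃ (by
    simp [n12, n13, n23, nb1, nb2, nb3])
  have hn := hnd
  rw [List.nodup_cons, List.nodup_cons, List.nodup_cons, List.nodup_cons] at hn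
  obtain ⟨-, q1, q2, q3, -⟩ := hn
  have key : ∀ l : List V, (∀ x ∈ l, x ∈ l₁ ++ (l₂ ++ l₃)) →
      ∀ x ∈ b :: l, ¬ (x = t₁ ∨ x = t₂ ∨ x = t₃) := by
    intro l hl x hx hx'
    rcases List.mem_cons.1 hx with rfl | hx
    · rcases hx' with h | h | h
      · exact nb1 h
      · exact nb2 h
      · exact nb3 h
    · have hx2 := hl x hx
      rcases hx' with h | h | h
      · subst h
        exact q1 (List.mem_cons_of_mem _ (List.mem_cons_of_mem _ hx2))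
      · subst h
        exact q2 (List.mem_cons_of_mem _ hx2)
      · subst h
        exact q3 hx2
  have ev : ∀ (l : List V) (t : V), (∀ x ∈ l, x ∈ l₁ ++ (l₂ ++ l₃)) → Wk G.Adj b l t →
      κ t = κ t₁ → Even l.length := by
    intro l t hl hw ht
    exact (TRIM.parity G κ (fun x => x = t₁ ∨ x = t₂ ∨ x = t₃)
      (fun x y hxy he => (hT.only x y hxy he).1) t l b hw (key l hl)).1 (by rw [ht]; exact hb)
  refine ⟨b, t₁, t₂, t₃, l₁, l₂, l₃, [], [], [], ?_, ⟨h1, ?_⟩, ⟨hT.a₂₃, by simp⟩, ⟨h2, ?_⟩,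
    ⟨hT.a₁₃, by simp⟩, ⟨h3, ?_⟩, ⟨hT.a₁₂, by simp⟩⟩
  · simpa using hnd
  · exact ev l₁ t₁ (fun x hx => by simp [hx]) h1 rfl
  · exact ev l₂ t₂ (fun x hx => by simp [hx]) h2 hT.k₁₂.symm
  · exact ev l₃ t₃ (fun x hx => by simp [hx]) h3 hT.k₁₃.symm

end Pool.Agent.Lib.MPded8ec.FI
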