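import Pool.Agent.Lib.MP_ded8ec_lc.FI.Spec
import Pool.Agent.Lib.MP_ded8ec_lc.FC.MTC
import Pool.Agent.Lib.MP_ded8ec_lc.FC.PTH
import Pool.Agent.Lib.MP_ded8ec_lc.FC.TWO

set_option autoImplicit false

namespace Pool.Agent.Lib.MPded8ec.FI

open Pool.Agent.Lib.MPded8ec.SG Pool.Agent.Lib.MPded8ec.FC

universe u

namespace TWFM

/-- the first end of a breaking path is in `T` -/
theorem fst {V : Type u} [DecidableEq V] {G : SimpleGraph V} {T I : Finset V} (hH : HubE G T I)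
    {a b : V} {l : List V} (h : BP G (T ∪ I) (fun x => decide (x ∈ I)) a l b) : a ∈ T := by
  rcases Finset.mem_union.1 h.ha with h0 | h0
  · exact h0
  exfalso
  have hw := h.wk
  cases l with
  | nil =>
    have h1 : b ∈ T := hH.nb a h0 b hw
    have h2 : b ∉ I := fun h2 => Finset.disjoint_left.1 hH.dis h1 h2
    have h3 := h.br
    unfold sg at h3
    simp [h0, h2] at h3
  | cons x l =>
    have h1 : x ∈ T := hH.nb a h0 x hw.1
    exact h.av x (by simp) (Finset.mem_union_left _ h1)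

section Pieces

variable {V : Type u} [DecidableEq V] {G : SimpleGraph V} {T I L L' P W : Finset V} {i a b : V}

theorem t1 (h : SpecMTC.{u}) (hP : ∀ w, w ∈ P ↔ w = a ∨ w = b ∨ w ∈ L)
    (hW : ∀ w, w ∈ W ↔ ((w ∈ T ∨ w ∈ I) ∧ w ≠ i) ∨ w ∈ L ∨ w ∈ L') (hTI : ∀ w ∈ T, w ∉ I)
    (hi : i ∈ I) (ha : a ∈ T) (hb : b ∈ T)
    (dL : ∀ w ∈ L, w ∉ T ∧ w ∉ I) (dL' : ∀ w ∈ L', w ∉ T ∧ w ∉ I) (dd : ∀ w ∈ L, w ∉ L')
    {x y : V} (hx : x ∈ P) (hy : y ∈ P) (m1 : Mt G (P \ {x, y}))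
    (m2 : Mt G ((T ∪ I) \ {i, a, b})) (m3 : Mt G L') : Mt G (W \ {x, y}) := by
  have hai : a ≠ i := fun e => hTI a ha (e ▸ hi)
  have hbi : b ≠ i := fun e => hTI b hb (e ▸ hi)
  have hLi : i ∉ L := fun e => (dL i e).2 hi
  have hLi' : i ∉ L' := fun e => (dL' i e).2 hi
  have key : W \ {x, y} = (P \ {x, y}) ∪ (((T ∪ I) \ {i, a, b}) ∪ L') := by
    ext w
    simp only [Finset.mem_sdiff, Finset.mem_union, Finset.mem_insert, Finset.mem_singleton, hW, hP]
      at hx hy ⊢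
    grind
  rw [key]
  refine h.uni V G _ _ ?_ m1 (h.uni V G _ _ ?_ m2 m3)
  · rw [Finset.disjoint_left]
    intro w
    simp only [Finset.mem_sdiff, Finset.mem_union, Finset.mem_insert, Finset.mem_singleton, hP]
    grind
  · rw [Finset.disjoint_left]
    intro w
    simp only [Finset.mem_sdiff, Finset.mem_union, Finset.mem_insert, Finset.mem_singleton]
    grind

theorem t2 (h : SpecMTC.{u}) (hP : ∀ w, w ∈ P ↔ w = a ∨ w = b ∨ w ∈ L')
    (hW : ∀ w, w ∈ W ↔ ((w ∈ T ∨ w ∈ I) ∧ w ≠ i) ∨ w ∈ L ∨ w ∈ L') (hTI : ∀ w ∈ T, w ∉ I)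
    (hi : i ∈ I) (ha : a ∈ T) (hb : b ∈ T)
    (dL : ∀ w ∈ L, w ∉ T ∧ w ∉ I) (dL' : ∀ w ∈ L', w ∉ T ∧ w ∉ I) (dd : ∀ w ∈ L, w ∉ L')
    {x y : V} (hx : x ∈ L) (hy : y ∈ L) (m1 : Mt G (L \ {x, y}))
    (m2 : Mt G ((T ∪ I) \ {i, a, b})) (m3 : Mt G P) : Mt G (W \ {x, y}) := by
  have hai : a ≠ i := fun e => hTI a ha (e ▸ hi)
  have hbi : b ≠ i := fun e => hTI b hb (e ▸ hi)
  have hLi : i ∉ L := fun e => (dL i e).2 hi
  have hLi' : i ∉ L' := fun e => (dL' i e).2 hi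
  have key : W \ {x, y} = (L \ {x, y}) ∪ (((T ∪ I) \ {i, a, b}) ∪ P) := by
    ext w
    simp only [Finset.mem_sdiff, Finset.mem_union, Finset.mem_insert, Finset.mem_singleton, hW, hP]
    grind
  rw [key]
  refine h.uni V G _ _ ?_ m1 (h.uni V G _ _ ?_ m2 m3)
  · rw [Finset.disjoint_left]
    intro w
    simp only [Finset.mem_sdiff, Finset.mem_union, Finset.mem_insert, Finset.mem_singleton, hP]
    grind
  · rw [Finset.disjoint_left]
    intro w
    simp only [Finset.mem_sdiff, Finset.mem_union, Finset.mem_insert, Finset.mem_singleton, hP]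
    grind

theorem t3 (h : SpecMTC.{u}) (hP : ∀ w, w ∈ P ↔ w = a ∨ w = b ∨ w ∈ L)
    (hW : ∀ w, w ∈ W ↔ ((w ∈ T ∨ w ∈ I) ∧ w ≠ i) ∨ w ∈ L ∨ w ∈ L') (hTI : ∀ w ∈ T, w ∉ I)
    (hi : i ∈ I) (ha : a ∈ T)
    (hb : b ∈ T) (dL : ∀ w ∈ L, w ∉ T ∧ w ∉ I) (dL' : ∀ w ∈ L', w ∉ T ∧ w ∉ I)
    (dd : ∀ w ∈ L, w ∉ L') {j t : V} (hj : j ∈ I) (ht : t ∈ T) (hta : t ≠ a) (htb : t ≠ b)
    (m1 : Mt G ((T ∪ I) \ {i, j, t, a, b})) (m2 : Mt G P) (m3 : Mt G L') :
    Mt G (W \ {j, t}) := by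
  have hai : a ≠ i := fun e => hTI a ha (e ▸ hi)
  have hbi : b ≠ i := fun e => hTI b hb (e ▸ hi)
  have hLi : i ∉ L := fun e => (dL i e).2 hi
  have hLi' : i ∉ L' := fun e => (dL' i e).2 hi
  have key : W \ {j, t} = ((T ∪ I) \ {i, j, t, a, b}) ∪ (P ∪ L') := by
    ext w
    simp only [Finset.mem_sdiff, Finset.mem_union, Finset.mem_insert, Finset.mem_singleton, hW, hP]
    grind
  rw [key]
  refine h.uni V G _ _ ?_ m1 (h.uni V G _ _ ?_ m2 m3)
  · rw [Finset.disjoint_left]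
    intro w
    simp only [Finset.mem_sdiff, Finset.mem_union, Finset.mem_insert, Finset.mem_singleton, hP]
    grind
  · rw [Finset.disjoint_left]
    intro w
    simp only [hP]
    grind

end Pieces

end TWFM

open TWFM

theorem specTWF (hHAE : SpecHAE.{u}) (hTWE : SpecTWE.{u}) : SpecTWF.{u} := by
  intro V _ _ G hB T I hH a b a' b' l l' h
  have hM : SpecMTC.{u} := FC.specMTC
  have hPT : SpecPTH.{u} := FC.specPTH FC.specMTC
  obtain ⟨h1, h2, h3⟩ := h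
  have ha := TWFM.fst hH h1
  have hb := TWFM.fst hH (TWOM.rev h1)
  have ha' := TWFM.fst hH h2
  have hb' := TWFM.fst hH (TWOM.rev h2)
  have hTI : ∀ w ∈ T, w ∉ I := fun w hw => Finset.disjoint_left.1 hH.dis hw
  have even : ∀ {a b : V} {l : List V}, a ∈ T → b ∈ T →
      BP G (T ∪ I) (fun x => decide (x ∈ I)) a l b → Even l.length := by
    intro a b l ha hb h
    have h0 := h.br
    unfold sg at h0
    simpa [hTI a ha, hTI b hb] using h0
  have e1 := even ha hb h1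
  have e2 := even ha' hb' h2
  have hab : a ≠ b := fun e => by
    have := h1.nd
    rw [e] at this
    simp at this
  have hab' : a' ≠ b' := fun e => by
    have := h2.nd
    rw [e] at this
    simp at this
  have hP : ∀ w, w ∈ (a :: (l ++ [b])).toFinset ↔ w = a ∨ w = b ∨ w ∈ l.toFinset := by
    intro w
    simp only [List.mem_toFinset, List.mem_cons, List.mem_append, List.not_mem_nil, or_false]
    tauto
  have hP' : ∀ w, w ∈ (a' :: (l' ++ [b'])).toFinset ↔ w = a' ∨ w = b' ∨ w ∈ l'.toFinset := by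
    intro w
    simp only [List.mem_toFinset, List.mem_cons, List.mem_append, List.not_mem_nil, or_false]
    tauto
  have dL : ∀ w ∈ l.toFinset, w ∉ T ∧ w ∉ I := by
    intro w hw
    have := h1.av w (List.mem_toFinset.1 hw)
    rw [Finset.mem_union, not_or] at this
    exact this
  have dL' : ∀ w ∈ l'.toFinset, w ∉ T ∧ w ∉ I := by
    intro w hw
    have := h2.av w (List.mem_toFinset.1 hw)
    rw [Finset.mem_union, not_or] at this
    exact this
  have dd : ∀ w ∈ l.toFinset, w ∉ l'.toFinset := by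
    intro w hw hw'
    rw [List.mem_toFinset] at hw hw'
    exact h3 w (by simp [hw]) (by simp [hw'])
  have na : a ≠ a' ∧ a ≠ b' := by
    have := h3 a (by simp)
    simp only [List.mem_cons, List.mem_append, List.not_mem_nil, or_false, not_or] at this
    exact ⟨this.1, this.2.2⟩
  have nb : b ≠ a' ∧ b ≠ b' := by
    have := h3 b (by simp)
    simp only [List.mem_cons, List.mem_append, List.not_mem_nil, or_false, not_or] at this
    exact ⟨this.1, this.2.2⟩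
  obtain ⟨i, hi, hδ⟩ := hTWE V G T I hH a b a' b' ha hb ha' hb' (by
    simp only [List.nodup_cons, List.mem_cons, List.not_mem_nil, or_false, not_or,
      not_false_eq_true, List.nodup_nil, and_true]
    exact ⟨⟨hab, na.1, na.2⟩, ⟨nb.1, nb.2⟩, hab'⟩)
  set L := l.toFinset with hL
  set L' := l'.toFinset with hL'
  set P := (a :: (l ++ [b])).toFinset with hPd
  set P' := (a' :: (l' ++ [b'])).toFinset with hPd'
  obtain ⟨d, hd⟩ := hB (((T ∪ I) \ {i}) ∪ (L ∪ L'))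
  have hW : ∀ w, w ∈ ((T ∪ I) \ {i}) ∪ (L ∪ L') ↔
      ((w ∈ T ∨ w ∈ I) ∧ w ≠ i) ∨ w ∈ L ∨ w ∈ L' := by
    intro w
    simp only [Finset.mem_union, Finset.mem_sdiff, Finset.mem_singleton]
  have hW' : ∀ w, w ∈ ((T ∪ I) \ {i}) ∪ (L ∪ L') ↔
      ((w ∈ T ∨ w ∈ I) ∧ w ≠ i) ∨ w ∈ L' ∨ w ∈ L := by
    intro w
    rw [hW]
    tauto
  have hTi : ∀ t ∈ T, t ≠ i := fun t ht e => hTI t ht (e ▸ hi)
  have mL := hPT.inn V G a b l h1.wk h1.nd e1
  have mL' := hPT.inn V G a' b' l' h2.wk h2.nd e2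
  have mP := hPT.full V G a b l h1.wk h1.nd e1
  have mP' := hPT.full V G a' b' l' h2.wk h2.nd e2
  have m0 := hHAE.p2 V G T I hH i a b hi ha hb hab
  have m0' := hHAE.p2 V G T I hH i a' b' hi ha' hb' hab'
  -- the edges of the first path
  have hwk := specWKL.mono V _ (fun x y => d x ≠ d y) (fun x y hxy => by
    obtain ⟨hadj, hxy⟩ := hxy
    rcases hxy with ⟨hx, hy, hm⟩ | ⟨hx, hy, hm⟩
    · have hx' : x ∈ P := List.mem_toFinset.2 hx
      have hy' : y ∈ P := List.mem_toFinset.2 hy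
      have hPW : ∀ z ∈ P, z ∈ ((T ∪ I) \ {i}) ∪ (L ∪ L') := by
        intro z hz
        rw [hW]
        rcases (hP z).1 hz with e | e | e
        · exact Or.inl ⟨Or.inl (e ▸ ha), hTi z (e ▸ ha)⟩
        · exact Or.inl ⟨Or.inl (e ▸ hb), hTi z (e ▸ hb)⟩
        · exact Or.inr (Or.inl e)
      exact hd x (hPW x hx') y (hPW y hy') hadj
        (t1 hM hP hW hTI hi ha hb dL dL' dd hx' hy' hm m0 mL')
    · have hx' : x ∈ L := List.mem_toFinset.2 hx
      have hy' : y ∈ L := List.mem_toFinset.2 hy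
      exact hd x ((hW x).2 (Or.inr (Or.inl hx'))) y ((hW y).2 (Or.inr (Or.inl hy'))) hadj
        (t2 hM hP' hW hTI hi ha' hb' dL dL' dd hx' hy' hm m0' mP')) a b l
    (hPT.edg V G a b l h1.wk h1.nd e1)
  -- the edges between `I` and `T`
  have hcon := hδ d (fun j hj hji t ht hjt hAl => by
    refine hd j ((hW j).2 (Or.inl ⟨Or.inr hj, hji⟩)) t
      ((hW t).2 (Or.inl ⟨Or.inl ht, hTi t ht⟩)) hjt ?_
    rcases hAl with ⟨ht1, ht2, hm⟩ | ⟨ht1, ht2, hm⟩
    · exact t3 hM hP hW hTI hi ha hb dL dL' dd hj ht ht1 ht2 hm mP mL'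
    · exact t3 hM hP' hW' hTI hi ha' hb' dL' dL (fun w hw hw' => dd w hw' hw) hj ht ht1 ht2 hm
        mP' mL)
  have hok := specWKL.ok V d (fun x y => d x ≠ d y) (fun x y e => e) a b l hwk
  unfold sg at hok
  rw [hcon] at hok
  simp [e1] at hok

end Pool.Agent.Lib.MPded8ec.FI
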