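import Pool.Agent.Lib.MP_ded8ec_lc.FI.Spec
import Pool.Agent.Lib.MP_ded8ec_lc.SG.TRI
import Pool.Agent.Lib.MP_ded8ec_lc.SG.WKL

/-! # Internally 4-connected Seymour graphs (MP_ded8ec_lc), module XC3 (helper94) -/

set_option autoImplicit false

namespace Pool.Agent.Lib.MPded8ec.FI

open Pool.Agent.Lib.MPded8ec.SG Pool.Agent.Lib.MPded8ec.FC

universe u

namespace XC3M

variable {V : Type u} {G : SimpleGraph V} {R : Finset V} {c κ : V → Bool} {p : V} {N : Finset V}

/-- `p` is not on a path whose vertices, except for the last one, are not in `N` -/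
theorem notp (hE : Ex3 G R c κ p N) (t : V) : ∀ (l : List V) (m : V), Wk G.Adj m l t → m ∉ N →
    (∀ w ∈ l, w ∉ N) → p ∉ l := by
  intro l
  induction l with
  | nil =>
    intro m _ _ _ h
    exact absurd h List.not_mem_nil
  | cons w l ih =>
    intro m hw hm hl hp
    have hw' : G.Adj m w ∧ Wk G.Adj w l t := hw
    rcases List.mem_cons.1 hp with h | h
    · subst h
      exact hm ((hE.nb m).1 hw'.1.symm)
    · exact ih w hw'.2 (hl w List.mem_cons_self) (fun v hv => hl v (List.mem_cons_of_mem _ hv)) h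

theorem apexA [DecidableEq V] (hE : Ex3 G R c κ p N) {x y z : V} (hN : N = {x, y, z})
    (hy : κ y = κ x) (hz : κ z = κ x) (hyz : ¬ G.Adj y z) : Apex G := by
  have hcol : ∀ w ∈ N, κ w = κ x := by
    intro w hw
    rw [hN] at hw
    simp only [Finset.mem_insert, Finset.mem_singleton] at hw
    rcases hw with rfl | rfl | rfl
    · rfl
    · exact hy
    · exact hz
  refine ⟨x, fun w => if w = p then !κ x else κ w, ?_⟩
  intro a b ha hb hab
  beta_reduce
  by_cases hap : a = p
  · have hbp : b ≠ p := fun h => hab.ne (hap.trans h.symm)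
    rw [if_pos hap, if_neg hbp]
    have hbN : b ∈ N := (hE.nb b).1 (hap ▸ hab)
    rw [hcol b hbN]
    cases κ x <;> simp
  · by_cases hbp : b = p
    · rw [if_neg hap, if_pos hbp]
      have haN : a ∈ N := (hE.nb a).1 (hbp ▸ hab.symm)
      rw [hcol a haN]
      cases κ x <;> simp
    · rw [if_neg hap, if_neg hbp]
      intro h
      obtain ⟨h1, h2⟩ := hE.only a b hap hbp hab h
      rw [hN] at h1 h2
      simp only [Finset.mem_insert, Finset.mem_singleton] at h1 h2
      rcases h1 with h1 | h1 | h1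
      · exact ha h1
      · rcases h2 with h2 | h2 | h2
        · exact hb h2
        · exact hab.ne (h1.trans h2.symm)
        · exact hyz (h1 ▸ h2 ▸ hab)
      · rcases h2 with h2 | h2 | h2
        · exact hb h2
        · exact hyz (h1 ▸ h2 ▸ hab.symm)
        · exact hab.ne (h1.trans h2.symm)

theorem caseB [Fintype V] [DecidableEq V] (hFA3 : SpecFA3.{u}) (hG : Conn3 G)
    (hE : Ex3 G R c κ p N) (hR : ∀ (β : Bool) (z : V), ∃ m ∈ R, c m = β ∧ m ≠ z)
    {x y z : V} (hN : N = {x, y, z}) (hxy : x ≠ y) (hxz : x ≠ z) (hyz : y ≠ z)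
    (h1 : κ y = κ x) (h2 : κ z ≠ κ x) : Apex G ∨ TOK G := by
  have memN : ∀ w, w ∈ N ↔ w = x ∨ w = y ∨ w = z := by
    intro w
    rw [hN]
    simp only [Finset.mem_insert, Finset.mem_singleton]
  by_cases hadj : G.Adj x y
  · right
    obtain ⟨m, hm, hmc, hmz⟩ := hR (κ z) z
    have hκm : κ m = κ z := (hE.col m hm).trans hmc
    have hmx : m ≠ x := by
      intro h
      rw [h] at hκm
      exact h2 hκm.symm
    have hmy : m ≠ y := by
      intro h
      rw [h, h1] at hκm
      exact h2 hκm.symm
    have hmN : m ∉ N := by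
      rw [memN]
      rintro (h | h | h)
      · exact hmx h
      · exact hmy h
      · exact hmz h
    have hmp : m ≠ p := fun h => hE.pR (h ▸ hm)
    have hxN : x ∈ N := (memN x).2 (Or.inl rfl)
    have hyN : y ∈ N := (memN y).2 (Or.inr (Or.inl rfl))
    have hzN : z ∈ N := (memN z).2 (Or.inr (Or.inr rfl))
    have hpx : p ≠ x := fun h => hE.pN (h ▸ hxN)
    have hpy : p ≠ y := fun h => hE.pN (h ▸ hyN)
    have hpz : p ≠ z := fun h => hE.pN (h ▸ hzN)
    obtain ⟨l₁, l₂, l₃, hnd, w1, w2, w3⟩ := hFA3 V G hG m x y z (by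
      simp [hxy, hxz, hyz, hmx, hmy, hmz])
    have hn := hnd
    rw [List.nodup_cons, List.nodup_cons, List.nodup_cons, List.nodup_cons] at hn
    obtain ⟨-, q1, q2, q3, -⟩ := hn
    have hlN : ∀ w ∈ l₁ ++ (l₂ ++ l₃), w ∉ N := by
      intro w hw hw'
      rcases (memN w).1 hw' with h | h | h
      · subst h
        exact q1 (List.mem_cons_of_mem _ (List.mem_cons_of_mem _ hw))
      · subst h
        exact q2 (List.mem_cons_of_mem _ hw)
      · subst h
        exact q3 hw
    have sub1 : ∀ w ∈ l₁, w ∈ l₁ ++ (l₂ ++ l₃) := fun w hw => List.mem_append_left _ hw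
    have sub2 : ∀ w ∈ l₂, w ∈ l₁ ++ (l₂ ++ l₃) := fun w hw =>
      List.mem_append_right _ (List.mem_append_left _ hw)
    have sub3 : ∀ w ∈ l₃, w ∈ l₁ ++ (l₂ ++ l₃) := fun w hw =>
      List.mem_append_right _ (List.mem_append_right _ hw)
    have par : ∀ (l : List V) (t : V), (∀ w ∈ l, w ∈ l₁ ++ (l₂ ++ l₃)) → Wk G.Adj m l t →
        p ∉ l ∧ (κ m ≠ κ t ↔ Even l.length) := by
      intro l t hl hw
      have hp : p ∉ l := notp hE t l m hw hmN (fun w hw => hlN w (hl w hw))
      refine ⟨hp, TRIM.parity G κ (fun w => w ∈ N ∨ w = p) ?_ t l m hw ?_⟩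
      · intro a b hab he
        by_cases ha : a = p
        · exact Or.inr ha
        · by_cases hb : b = p
          · exact Or.inl ((hE.nb a).1 (hb ▸ hab.symm))
          · exact Or.inl (hE.only a b ha hb hab he).1
      · intro w hw hw'
        rcases List.mem_cons.1 hw with h | h
        · subst h
          rcases hw' with h' | h'
          · exact hmN h'
          · exact hmp h'
        · rcases hw' with h' | h'
          · exact hlN w (hl w h) h'
          · exact hp (h' ▸ h)
    obtain ⟨p1, e1⟩ := par l₁ x sub1 w1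
    obtain ⟨p2, e2⟩ := par l₂ y sub2 w2
    obtain ⟨p3, e3⟩ := par l₃ z sub3 w3
    have e1' : Even l₁.length := e1.1 (by rw [hκm]; exact h2)
    have e2' : Even l₂.length := e2.1 (by rw [hκm, h1]; exact h2)
    have e3' : ¬ Even l₃.length := fun h => (e3.2 h) hκm
    have sym : ∀ a b, G.Adj a b → G.Adj b a := fun a b h => h.symm
    have hbig : (p :: (m :: x :: y :: z :: (l₁ ++ (l₂ ++ l₃)))).Nodup := by
      rw [List.nodup_cons]
      refine ⟨?_, hnd⟩
      intro h
      simp only [List.mem_cons, List.mem_append] at h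
      rcases h with h | h | h | h | h | h | h
      · exact hmp h.symm
      · exact hpx h
      · exact hpy h
      · exact hpz h
      · exact p1 h
      · exact p2 h
      · exact p3 h
    refine ⟨p, x, y, m, [], [], z :: l₃.reverse, [], l₁.reverse, l₂.reverse, ?_,
      ⟨(hE.nb x).2 hxN, by simp⟩, ⟨WKLM.rev G.Adj sym y l₂ m w2, by simpa using e2'⟩,
      ⟨(hE.nb y).2 hyN, by simp⟩, ⟨WKLM.rev G.Adj sym x l₁ m w1, by simpa using e1'⟩,
      ⟨⟨(hE.nb z).2 hzN, WKLM.rev G.Adj sym z l₃ m w3⟩, ?_⟩, ⟨hadj, by simp⟩⟩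
    · refine (List.Perm.nodup_iff ?_).2 hbig
      rw [List.perm_iff_count]
      intro a
      simp only [List.count_append, List.count_cons, List.count_reverse, List.nil_append,
        List.append_nil]
      omega
    · rw [List.length_cons, List.length_reverse, Nat.even_add_one]
      exact e3'
  · left
    refine ⟨p, κ, ?_⟩
    intro a b ha hb hab he
    obtain ⟨ha', hb'⟩ := hE.only a b ha hb hab he
    rw [memN] at ha' hb'
    rcases ha' with rfl | rfl | rfl
    · rcases hb' with rfl | rfl | rfl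
      · exact hab.ne rfl
      · exact hadj hab
      · exact h2 he.symm
    · rcases hb' with rfl | rfl | rfl
      · exact hadj hab.symm
      · exact hab.ne rfl
      · exact h2 (he.symm.trans h1)
    · rcases hb' with rfl | rfl | rfl
      · exact h2 he
      · exact h2 (he.trans h1)
      · exact hab.ne rfl

end XC3M

theorem specXC3 (hFA3 : SpecFA3.{u}) : SpecXC3.{u} := by
  intro V _ _ G hG R c κ hR p N hE
  obtain ⟨x, y, z, hxy, hxz, hyz, hN⟩ := Finset.card_eq_three.1 hE.num
  have hxN : x ∈ N := by rw [hN]; simp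
  have hyN : y ∈ N := by rw [hN]; simp
  have hzN : z ∈ N := by rw [hN]; simp
  have s1 : ({x, y, z} : Finset V) = {y, x, z} := by
    ext w; simp only [Finset.mem_insert, Finset.mem_singleton]; tauto
  have s2 : ({x, y, z} : Finset V) = {z, x, y} := by
    ext w; simp only [Finset.mem_insert, Finset.mem_singleton]; tauto
  have s3 : ({x, y, z} : Finset V) = {x, z, y} := by
    ext w; simp only [Finset.mem_insert, Finset.mem_singleton]; tauto
  have s4 : ({x, y, z} : Finset V) = {y, z, x} := by
    ext w; simp only [Finset.mem_insert, Finset.mem_singleton]; tauto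
  by_cases h1 : κ y = κ x
  · by_cases h2 : κ z = κ x
    · by_cases a1 : G.Adj y z
      · by_cases a2 : G.Adj x z
        · by_cases a3 : G.Adj x y
          · right
            have hpx : p ≠ x := fun h => hE.pN (h ▸ hxN)
            have hpy : p ≠ y := fun h => hE.pN (h ▸ hyN)
            have hpz : p ≠ z := fun h => hE.pN (h ▸ hzN)
            refine ⟨p, x, y, z, [], [], [], [], [], [], ?_, ⟨(hE.nb x).2 hxN, by simp⟩,
              ⟨a1, by simp⟩, ⟨(hE.nb y).2 hyN, by simp⟩, ⟨a2, by simp⟩,
              ⟨(hE.nb z).2 hzN, by simp⟩, ⟨a3, by simp⟩⟩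
            simp [hpx, hpy, hpz, hxy, hxz, hyz]
          · exact Or.inl (XC3M.apexA hE (hN.trans s2) (x := z) (y := x) (z := y) h2.symm
              (h1.trans h2.symm) a3)
        · exact Or.inl (XC3M.apexA hE (hN.trans s1) (x := y) (y := x) (z := z) h1.symm
            (h2.trans h1.symm) a2)
      · exact Or.inl (XC3M.apexA hE hN h1 h2 a1)
    · exact XC3M.caseB hFA3 hG hE hR hN hxy hxz hyz h1 h2
  · by_cases h2 : κ z = κ x
    · exact XC3M.caseB hFA3 hG hE hR (hN.trans s3) hxz hxy hyz.symm h2 h1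
    · refine XC3M.caseB hFA3 hG hE hR (hN.trans s4) hyz hxy.symm hxz.symm ?_ (Ne.symm h1)
      revert h1 h2
      cases κ x <;> cases κ y <;> cases κ z <;> simp

end Pool.Agent.Lib.MPded8ec.FI
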