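import Pool.Agent.Lib.MP_ded8ec_lc.FI.CM3
import Pool.Agent.Lib.MP_ded8ec_lc.FI.FA3
import Pool.Agent.Lib.MP_ded8ec_lc.FI.TR3
import Pool.Agent.Lib.MP_ded8ec_lc.FI.SE3
import Pool.Agent.Lib.MP_ded8ec_lc.FI.XC3
import Pool.Agent.Lib.MP_ded8ec_lc.FI.DI3
import Pool.Agent.Lib.MP_ded8ec_lc.FI.TGH
import Pool.Agent.Lib.MP_ded8ec_lc.FI.TGM
import Pool.Agent.Lib.MP_ded8ec_lc.FI.TGC
import Pool.Agent.Lib.MP_ded8ec_lc.FI.HAE
import Pool.Agent.Lib.MP_ded8ec_lc.FI.TWE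
import Pool.Agent.Lib.MP_ded8ec_lc.FI.TWF
import Pool.Agent.Lib.MP_ded8ec_lc.FI.OPE
import Pool.Agent.Lib.MP_ded8ec_lc.FI.SIX
import Pool.Agent.Lib.MP_ded8ec_lc.FI.ENE
import Pool.Agent.Lib.MP_ded8ec_lc.FI.FCE
import Pool.Agent.Lib.MP_ded8ec_lc.FI.SUE
import Pool.Agent.Lib.MP_ded8ec_lc.FI.HLE
import Pool.Agent.Lib.MP_ded8ec_lc.FI.EXE
import Pool.Agent.Lib.MP_ded8ec_lc.FI.SAE
import Pool.Agent.Lib.MP_ded8ec_lc.FI.SBE
import Pool.Agent.Lib.MP_ded8ec_lc.FI.SGE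
import Pool.Agent.Lib.MP_ded8ec_lc.FI.HBE
import Pool.Agent.Lib.MP_ded8ec_lc.FI.FNE
import Pool.Agent.Lib.MP_ded8ec_lc.FI.NGA
import Pool.Agent.Lib.MP_ded8ec_lc.FI.LNS
import Pool.Agent.Lib.MP_ded8ec_lc.FI.LNE
import Pool.Agent.Lib.MP_ded8ec_lc.FI.LNM
import Pool.Agent.Lib.MP_ded8ec_lc.FI.LST
import Pool.Agent.Lib.MP_ded8ec_lc.FI.LBA
import Pool.Agent.Lib.MP_ded8ec_lc.FI.LBB
import Pool.Agent.Lib.MP_ded8ec_lc.FI.LCN
import Pool.Agent.Lib.MP_ded8ec_lc.FI.LSP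
import Pool.Agent.Lib.MP_ded8ec_lc.FI.LFI
import Pool.Agent.Lib.MP_ded8ec_lc.FI.LAS
import Pool.Agent.Lib.MP_ded8ec_lc.FI.FIN

/-!
# Internally 4-connected Seymour graphs (MP_ded8ec_lc): the theorem (helper90)
-/

set_option autoImplicit false

namespace Pool.Agent.Lib.MPded8ec.FI

universe u

theorem mDI3 : SpecDI3.{u} := specDI3 (specSE3 specCM3) (specXC3 specFA3) (specTR3 specFA3)

theorem mTGC : SpecTGC.{u} := specTGC specTGH (specTGM specTGH)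

theorem mTWF : SpecTWF.{u} := specTWF specHAE (specTWE specTGH mTGC specHAE)

theorem mEXE : SpecEXE.{u} := specEXE specHLE

theorem mSUE : SpecSUE.{u} := specSUE specENE

theorem mSGE : SpecSGE.{u} :=
  specSGE specCM3 (specFCE specENE) mSUE (specSAE mEXE) (specSBE specCM3 specENE)

theorem mFNE : SpecFNE.{u} :=
  specFNE (specSIX specCM3) specOPE mSUE mSGE specHBE mTWF mDI3

theorem mLNS : SpecLNS.{u} := specLNS specNGA

theorem mLNE : SpecLNE.{u} := specLNE specNGA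

theorem mLNM : SpecLNM.{u} := specLNM mLNS mLNE mEXE

theorem mLBB : SpecLBB.{u} := specLBB specNGA (specLBA mLNS mEXE)

theorem mLFI : SpecLFI.{u} := specLFI mLNM mLBB specLCN (specLSP mLNM mLBB)

theorem mLAS : SpecLAS.{u} :=
  specLAS specCM3 mLNE mLNM (specLST mLNS specHBE mTWF mLNM) mLFI

theorem main : Main.{u} := specFIN specNGA mFNE mLAS

end Pool.Agent.Lib.MPded8ec.FI
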