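import Pool.Agent.Lib.MP_ded8ec_lc.FI.Spec

/-!
# Internally 4-connected Seymour graphs: the choice of `i` forces `δ a = δ b` (module TWE)
-/

set_option autoImplicit false

namespace Pool.Agent.Lib.MPded8ec.FI

open Pool.Agent.Lib.MPded8ec.SG Pool.Agent.Lib.MPded8ec.FC

universe u

namespace TWEM

variable {V : Type u} {G : SimpleGraph V} {T : Finset V}

theorem mem_NV {X : Finset V} {t : V} : t ∈ NV G T X ↔ t ∈ T ∧ ∃ x ∈ X, G.Adj x t := by
  simp only [NV, Finset.mem_filter]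

theorem NV_union [DecidableEq V] (X Y : Finset V) : NV G T (X ∪ Y) = NV G T X ∪ NV G T Y := by
  ext t
  simp only [mem_NV, Finset.mem_union]
  constructor
  · rintro ⟨ht, x, hx | hx, h⟩
    · exact Or.inl ⟨ht, x, hx, h⟩
    · exact Or.inr ⟨ht, x, hx, h⟩
  · rintro (⟨ht, x, hx, h⟩ | ⟨ht, x, hx, h⟩)
    · exact ⟨ht, x, Or.inl hx, h⟩
    · exact ⟨ht, x, Or.inr hx, h⟩

/-- three different points in a set -/
theorem three_le [DecidableEq V] {S : Finset V} {p q r : V} (hp : p ∈ S) (hq : q ∈ S)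
    (hr : r ∈ S) (h1 : p ≠ q) (h2 : p ≠ r) (h3 : q ≠ r) : 3 ≤ S.card := by
  have h : ({p, q, r} : Finset V).card = 3 := Finset.card_eq_three.2 ⟨p, q, r, h1, h2, h3, rfl⟩
  rw [← h]
  refine Finset.card_le_card fun x hx => ?_
  simp only [Finset.mem_insert, Finset.mem_singleton] at hx
  rcases hx with rfl | rfl | rfl
  · exact hp
  · exact hq
  · exact hr

end TWEM

open TWEM in
theorem specTWE (hTGH : SpecTGH.{u}) (hTGC : SpecTGC.{u}) (hHAE : SpecHAE.{u}) :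
    SpecTWE.{u} := by
  intro V _ G T I hH a b c d ha hb hc hd hnd
  obtain ⟨i, hi, X, hX, ⟨j₁, hj₁X, hj₁a, hF₁⟩, ⟨j₂, hj₂X, hj₂b, hF₂⟩⟩ :=
    hTGC V G T I hH a b c d ha hb hc hd hnd
  simp only [List.nodup_cons, List.mem_cons, List.not_mem_nil, or_false, not_or,
    List.nodup_nil, and_true, not_false_eq_true] at hnd
  obtain ⟨⟨hab, hac, had⟩, ⟨hbc, hbd⟩, hcd⟩ := hnd
  refine ⟨i, hi, fun δ hδ => ?_⟩
  have hXI : ∀ j ∈ X, j ∈ I := fun j hj => hX.ti.sub hj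
  have hXi : ∀ j ∈ X, j ≠ i := fun j hj h => hX.ni (h ▸ hj)
  have hun : ∀ Z : Finset V, i ∉ Z → X ∪ Z ≠ I := by
    intro Z hZ h
    rw [← h, Finset.mem_union] at hi
    exact hi.elim hX.ni hZ
  -- (1)
  have key1 : ∀ j ∈ X, ∀ t ∈ T, G.Adj j t → t ≠ a → t ≠ b → δ j ≠ δ t := by
    intro j hj t ht hjt hta htb
    refine hδ j (hXI j hj) (hXi j hj) t ht hjt (Or.inl ⟨hta, htb, ?_⟩)
    refine hHAE.p3 V G T I hH i j t a b hi (hXI j hj) (hXi j hj).symm ht ha hb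
      (by simp [hta, htb, hab]) ?_
    intro Z hZ hiZ haZ hbZ htZ
    have htX : t ∈ NV G T X := mem_NV.2 ⟨ht, j, hj, hjt⟩
    have h3 : 3 ≤ (NV G T X ∩ NV G T Z).card :=
      three_le (Finset.mem_inter.2 ⟨htX, htZ⟩) (Finset.mem_inter.2 ⟨hX.ha, haZ⟩)
        (Finset.mem_inter.2 ⟨hX.hb, hbZ⟩) hta htb hab
    have hne := hTGH.meet V G T I hH X Z hX.ti hZ (hun Z hiZ) h3
    obtain ⟨hcap, hcap2⟩ := hTGH.cap V G T I hH X Z hX.ti hZ (hun Z hiZ) hne
    have hmin := hX.min (X ∩ Z) hcap (fun h => hX.ni (Finset.mem_inter.1 h).1)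
      (by rw [hcap2]; exact Finset.mem_inter.2 ⟨hX.ha, haZ⟩)
      (by rw [hcap2]; exact Finset.mem_inter.2 ⟨hX.hb, hbZ⟩) Finset.inter_subset_left
    rw [← hmin] at hj
    exact (Finset.mem_inter.1 hj).2
  -- (2)
  have key2 : δ j₁ = δ j₂ := by
    by_contra hne
    set X₁ := X.filter fun j => δ j = true with hX₁
    set X₂ := X.filter fun j => ¬ δ j = true with hX₂
    have hn1 : X₁.Nonempty := by
      cases h1 : δ j₁ with
      | true => exact ⟨j₁, Finset.mem_filter.2 ⟨hj₁X, h1⟩⟩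
      | false =>
        cases h2 : δ j₂ with
        | true => exact ⟨j₂, Finset.mem_filter.2 ⟨hj₂X, h2⟩⟩
        | false => exact absurd (h1.trans h2.symm) hne
    have hn2 : X₂.Nonempty := by
      cases h1 : δ j₁ with
      | false => exact ⟨j₁, Finset.mem_filter.2 ⟨hj₁X, by simp [h1]⟩⟩
      | true =>
        cases h2 : δ j₂ with
        | false => exact ⟨j₂, Finset.mem_filter.2 ⟨hj₂X, by simp [h2]⟩⟩
        | true => exact absurd (h1.trans h2.symm) hne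
    have hu : X₁ ∪ X₂ = X := Finset.filter_union_filter_not_eq _ X
    have hcard : X₁.card + X₂.card = X.card := Finset.card_filter_add_card_filter_not _
    have hs1 : X₁ ⊆ X := Finset.filter_subset _ _
    have hs2 : X₂ ⊆ X := Finset.filter_subset _ _
    have hI : ∀ Y ⊆ X, Y ≠ I := by
      intro Y hY h
      exact hX.ni (hY (h ▸ hi))
    have hc1 := hH.sur X₁ (hs1.trans hX.ti.sub) hn1 (hI X₁ hs1)
    have hc2 := hH.sur X₂ (hs2.trans hX.ti.sub) hn2 (hI X₂ hs2)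
    have hN : NV G T X₁ ∪ NV G T X₂ = NV G T X := by rw [← NV_union, hu]
    have hcu := Finset.card_union_add_card_inter (NV G T X₁) (NV G T X₂)
    rw [hN, hX.ti.eq] at hcu
    have hsub : NV G T X₁ ∩ NV G T X₂ ⊆ {a, b} := by
      intro t ht
      rw [Finset.mem_inter, mem_NV, mem_NV] at ht
      obtain ⟨⟨htT, x, hx, hxt⟩, ⟨-, y, hy, hyt⟩⟩ := ht
      rw [Finset.mem_insert, Finset.mem_singleton]
      by_contra hcon
      push Not at hcon
      have h1 := key1 x (hs1 hx) t htT hxt hcon.1 hcon.2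
      have h2 := key1 y (hs2 hy) t htT hyt hcon.1 hcon.2
      have hx' : δ x = true := (Finset.mem_filter.1 hx).2
      have hy' : ¬ δ y = true := (Finset.mem_filter.1 hy).2
      rw [hx'] at h1
      rw [Bool.not_eq_true] at hy'
      rw [hy'] at h2
      cases h : δ t with
      | true => exact h1 h.symm
      | false => exact h2 h.symm
    have h2 : ({a, b} : Finset V).card = 2 := Finset.card_pair hab
    have hle := Finset.card_le_card hsub
    have heq : NV G T X₁ ∩ NV G T X₂ = {a, b} :=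
      Finset.eq_of_subset_of_card_le hsub (by omega)
    have hti : Ti G T I X₁ := ⟨hs1.trans hX.ti.sub, hn1, hI X₁ hs1, by omega⟩
    have haN : a ∈ NV G T X₁ := by
      have : a ∈ NV G T X₁ ∩ NV G T X₂ := by rw [heq]; simp
      exact (Finset.mem_inter.1 this).1
    have hbN : b ∈ NV G T X₁ := by
      have : b ∈ NV G T X₁ ∩ NV G T X₂ := by rw [heq]; simp
      exact (Finset.mem_inter.1 this).1
    have hmin := hX.min X₁ hti (fun h => hX.ni (hs1 h)) haN hbN hs1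
    have := hn2.card_pos
    rw [hmin] at hcard
    omega
  -- (3)
  have k1 : δ j₁ ≠ δ a := by
    refine hδ j₁ (hXI j₁ hj₁X) (hXi j₁ hj₁X) a ha hj₁a (Or.inr ⟨hac, had, ?_⟩)
    exact hHAE.p3 V G T I hH i j₁ a c d hi (hXI j₁ hj₁X) (hXi j₁ hj₁X).symm ha hc hd
      (by simp [hac, had, hcd]) fun Z hZ hiZ hcZ hdZ haZ => hF₁ Z hZ hiZ haZ hcZ hdZ
  have k2 : δ j₂ ≠ δ b := by
    refine hδ j₂ (hXI j₂ hj₂X) (hXi j₂ hj₂X) b hb hj₂b (Or.inr ⟨hbc, hbd, ?_⟩)
    exact hHAE.p3 V G T I hH i j₂ b c d hi (hXI j₂ hj₂X) (hXi j₂ hj₂X).symm hb hc hd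
      (by simp [hbc, hbd, hcd]) fun Z hZ hiZ hcZ hdZ hbZ => hF₂ Z hZ hiZ hbZ hcZ hdZ
  rw [key2] at k1
  cases h1 : δ a <;> cases h2 : δ b <;> cases h3 : δ j₂ <;> simp_all

end Pool.Agent.Lib.MPded8ec.FI
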